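import Pool.Agent.Run7.h926.Thin

set_option autoImplicit false

/-!
# Blocks of a nested family of cuts
-/

namespace Run7.h926

open Set

variable {V : Type*} {G : SimpleGraph V}

/-- `A` together with its neighbours. -/
def hull (G : SimpleGraph V) (A : Set V) : Set V := {x | x ∈ A ∨ ∃ u ∈ A, G.Adj u x}

theorem hull_mono {A B : Set V} (h : A ⊆ B) : hull G A ⊆ hull G B := by
  rintro x (hx | ⟨u, hu, hux⟩)
  · exact Or.inl (h hx)
  · exact Or.inr ⟨u, h hu, hux⟩

theorem subset_hull (A : Set V) : A ⊆ hull G A := fun _ hx => Or.inl hx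

theorem cutVerts_subset_hull (A : Set V) : cutVerts G A ⊆ hull G A := by
  rintro x ⟨w, hxw, h⟩
  by_cases hx : x ∈ A
  · exact Or.inl hx
  · refine Or.inr ⟨w, ?_, hxw.symm⟩
    by_contra hw
    exact hx (h.2 hw)

theorem cutVerts_compl (A : Set V) : cutVerts G Aᶜ = cutVerts G A := by
  ext x
  constructor
  · rintro ⟨w, hxw, h⟩
    refine ⟨w, hxw, ?_⟩
    simp only [mem_compl_iff, not_not] at h
    tauto
  · rintro ⟨w, hxw, h⟩
    refine ⟨w, hxw, ?_⟩
    simp only [mem_compl_iff, not_not]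
    tauto

theorem mem_cutVerts_of_hull {A : Set V} {x : V} (h1 : x ∈ hull G A) (h2 : x ∈ hull G Aᶜ) :
    x ∈ cutVerts G A := by
  rcases h1 with h1 | ⟨u, hu, hux⟩
  · rcases h2 with h2 | ⟨w, hw, hwx⟩
    · exact absurd h1 h2
    · exact ⟨w, hwx.symm, iff_of_true h1 hw⟩
  · by_cases hx : x ∈ A
    · rcases h2 with h2 | ⟨w, hw, hwx⟩
      · exact absurd hx h2
      · exact ⟨w, hwx.symm, iff_of_true hx hw⟩
    · exact ⟨u, hux.symm, iff_of_false hx (fun h => h hu)⟩

/-- The properties of the family of cuts that are used. -/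
structure NFam (G : SimpleGraph V) (F : Set (Set V)) : Prop where
  compl : ∀ A ∈ F, Aᶜ ∈ F
  nested : ∀ A ∈ F, ∀ B ∈ F, ¬ Cross A B
  conn : ∀ A ∈ F, Conn G A
  fin : ∀ A ∈ F, (bd G A).Finite
  dart : ∀ d, {A | A ∈ F ∧ d ∈ bd G A}.Finite
  inv : ∀ g : G ≃g G, ∀ A ∈ F, g ⁻¹' A ∈ F

theorem fam_nfam (hG : G.Connected) (k : ℕ) : NFam G (Fam G k) where
  compl := (fam_good hG k).compl
  nested := (fam_good hG k).nested
  conn := fun A hA => by
    obtain ⟨j, -, -, p, q, h⟩ := (fam_good hG k).opt A hA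
    exact h.conn hG
  fin := fun A hA => by
    obtain ⟨j, -, -, p, q, h⟩ := (fam_good hG k).opt A hA
    exact h.fin
  dart := fun d => fam_dart_finite hG k d
  inv := fam_inv k

/-- A consistent orientation of the family. -/
structure Ori (F o : Set (Set V)) : Prop where
  sub : o ⊆ F
  tot : ∀ A ∈ F, A ∈ o ∨ Aᶜ ∈ o
  cons : ∀ A ∈ o, ∀ B ∈ o, (A ∩ B).Nonempty
  fin : ∀ z, {A | A ∈ o ∧ z ∉ A}.Finite

theorem Ori.not_compl {F o : Set (Set V)} (ho : Ori F o) {A : Set V} (hA : A ∈ o) : Aᶜ ∉ o := by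
  intro h
  have := ho.cons A hA Aᶜ h
  simp at this

/-- The block of an orientation. -/
def blk (G : SimpleGraph V) (o : Set (Set V)) : Set V := {x | ∀ A ∈ o, x ∈ hull G A}

/-- The torso graph: edges of `G` and all pairs of vertices of a common cut. -/
def tg (G : SimpleGraph V) (F : Set (Set V)) : SimpleGraph V where
  Adj x y := x ≠ y ∧ (G.Adj x y ∨ ∃ A ∈ F, x ∈ cutVerts G A ∧ y ∈ cutVerts G A)
  symm := ⟨by
    rintro x y ⟨hne, h | ⟨A, hA, hx, hy⟩⟩
    · exact ⟨hne.symm, Or.inl h.symm⟩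
    · exact ⟨hne.symm, Or.inr ⟨A, hA, hy, hx⟩⟩⟩
  loopless := ⟨fun x h => h.1 rfl⟩

theorem le_tg (F : Set (Set V)) : G ≤ tg G F := fun _ _ h => ⟨h.ne, Or.inl h⟩

theorem exit_mem {F : Set (Set V)} (hF : NFam G F) {A : Set V} (hA : A ∈ F) {x z : V}
    (h : (tg G F).Adj x z) (hx : x ∈ hull G A) (hz : z ∉ hull G A) : x ∈ cutVerts G A := by
  obtain ⟨-, h | ⟨B, hB, hxB, hzB⟩⟩ := h
  · have hxA : x ∉ A := fun hxA => hz (Or.inr ⟨x, hxA, h⟩)
    rcases hx with hx | ⟨u, hu, hux⟩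
    · exact absurd hx hxA
    · exact ⟨u, hux.symm, iff_of_false hxA (fun h => h hu)⟩
  · have hn := hF.nested A hA B hB
    rw [nested_iff] at hn
    rcases hn with hn | hn | hn | hn
    · -- A ⊆ Bᶜ
      refine mem_cutVerts_of_hull hx ?_
      have h1 : B ⊆ Aᶜ := subset_compl_comm.1 hn
      exact hull_mono h1 (cutVerts_subset_hull B hxB)
    · -- A ⊆ B
      refine mem_cutVerts_of_hull hx ?_
      have h1 : Bᶜ ⊆ Aᶜ := compl_subset_compl.2 hn
      rw [← cutVerts_compl] at hxB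
      exact hull_mono h1 (cutVerts_subset_hull _ hxB)
    · -- Aᶜ ⊆ Bᶜ
      have h1 : B ⊆ A := compl_subset_compl.1 hn
      exact absurd (hull_mono h1 (cutVerts_subset_hull B hzB)) hz
    · -- Aᶜ ⊆ B
      have h1 : Bᶜ ⊆ A := compl_subset_comm.1 hn
      rw [← cutVerts_compl] at hzB
      exact absurd (hull_mono h1 (cutVerts_subset_hull _ hzB)) hz

/-- Short-cutting a walk along one cut. -/
theorem one_cut {F : Set (Set V)} (hF : NFam G F) {A : Set V} (hA : A ∈ F) {x y : V}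
    (p : (tg G F).Walk x y) (hy : y ∈ hull G A) :
    (x ∈ hull G A → ∃ p' : (tg G F).Walk x y,
      (∀ v ∈ p'.support, v ∈ hull G A ∧ v ∈ p.support) ∧ p'.length ≤ p.length) ∧
    (x ∉ hull G A → ∃ w ∈ cutVerts G A, ∃ q : (tg G F).Walk w y,
      (∀ v ∈ q.support, v ∈ hull G A ∧ v ∈ p.support) ∧ q.length + 1 ≤ p.length) := by
  induction p with
  | nil =>
    refine ⟨fun _ => ⟨SimpleGraph.Walk.nil, ?_, le_refl _⟩, fun h => absurd hy h⟩
    intro v hv
    rw [SimpleGraph.Walk.support_nil, List.mem_singleton] at hv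
    subst hv
    exact ⟨hy, by simp⟩
  | @cons x z y h p ih =>
    obtain ⟨ih1, ih2⟩ := ih hy
    refine ⟨fun hx => ?_, fun hx => ?_⟩
    · by_cases hz : z ∈ hull G A
      · obtain ⟨p', hp', hl⟩ := ih1 hz
        refine ⟨SimpleGraph.Walk.cons h p', ?_, ?_⟩
        · intro v hv
          rw [SimpleGraph.Walk.support_cons, List.mem_cons] at hv ⊢
          rcases hv with rfl | hv
          · exact ⟨hx, Or.inl rfl⟩
          · exact ⟨(hp' v hv).1, Or.inr (hp' v hv).2⟩
        · rw [SimpleGraph.Walk.length_cons, SimpleGraph.Walk.length_cons]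
          omega
      · obtain ⟨w, hw, q, hq, hl⟩ := ih2 hz
        have hxc := exit_mem hF hA h hx hz
        by_cases hxw : x = w
        · subst hxw
          refine ⟨q, ?_, ?_⟩
          · intro v hv
            rw [SimpleGraph.Walk.support_cons, List.mem_cons]
            exact ⟨(hq v hv).1, Or.inr (hq v hv).2⟩
          · rw [SimpleGraph.Walk.length_cons]
            omega
        · have hadj : (tg G F).Adj x w := ⟨hxw, Or.inr ⟨A, hA, hxc, hw⟩⟩
          refine ⟨SimpleGraph.Walk.cons hadj q, ?_, ?_⟩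
          · intro v hv
            rw [SimpleGraph.Walk.support_cons, List.mem_cons] at hv ⊢
            rcases hv with rfl | hv
            · exact ⟨hx, Or.inl rfl⟩
            · exact ⟨(hq v hv).1, Or.inr (hq v hv).2⟩
          · rw [SimpleGraph.Walk.length_cons, SimpleGraph.Walk.length_cons]
            omega
    · by_cases hz : z ∈ hull G A
      · obtain ⟨p', hp', hl⟩ := ih1 hz
        refine ⟨z, exit_mem hF hA h.symm hz hx, p', ?_, ?_⟩
        · intro v hv
          rw [SimpleGraph.Walk.support_cons, List.mem_cons]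
          exact ⟨(hp' v hv).1, Or.inr (hp' v hv).2⟩
        · rw [SimpleGraph.Walk.length_cons]
          omega
      · obtain ⟨w, hw, q, hq, hl⟩ := ih2 hz
        refine ⟨w, hw, q, ?_, ?_⟩
        · intro v hv
          rw [SimpleGraph.Walk.support_cons, List.mem_cons]
          exact ⟨(hq v hv).1, Or.inr (hq v hv).2⟩
        · rw [SimpleGraph.Walk.length_cons]
          omega

/-- Short-cutting a walk between vertices of a block into the block. -/
theorem all_cuts {F o : Set (Set V)} (hF : NFam G F) (ho : Ori F o) :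
    ∀ (n : ℕ) {x y : V} (p : (tg G F).Walk x y), x ∈ blk G o → y ∈ blk G o →
      {A | A ∈ o ∧ ∃ z ∈ p.support, z ∉ hull G A}.ncard = n →
      ∃ p' : (tg G F).Walk x y, (∀ v ∈ p'.support, v ∈ blk G o ∧ v ∈ p.support) ∧
        p'.length ≤ p.length := by
  intro n
  induction n using Nat.strong_induction_on with
  | _ n ih =>
    intro x y p hx hy hn
    have hfin : {A | A ∈ o ∧ ∃ z ∈ p.support, z ∉ hull G A}.Finite := by
      refine Finite.subset (Finite.biUnion (List.finite_toSet p.support) fun z _ => ho.fin z) ?_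
      rintro A ⟨hA, z, hz, hzA⟩
      simp only [mem_iUnion]
      exact ⟨z, hz, hA, fun h => hzA (subset_hull A h)⟩
    by_cases hne : {A | A ∈ o ∧ ∃ z ∈ p.support, z ∉ hull G A}.Nonempty
    swap
    · refine ⟨p, fun v hv => ⟨fun A hA => ?_, hv⟩, le_refl _⟩
      by_contra h
      exact hne ⟨A, hA, v, hv, h⟩
    obtain ⟨A, hA, z, hz, hzA⟩ := hne
    obtain ⟨p₁, hp₁, hl₁⟩ := (one_cut hF (ho.sub hA) p (hy A hA)).1 (hx A hA)
    have hss : {B | B ∈ o ∧ ∃ z ∈ p₁.support, z ∉ hull G B} ⊂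
        {B | B ∈ o ∧ ∃ z ∈ p.support, z ∉ hull G B} := by
      refine ⟨?_, fun h => ?_⟩
      · rintro B ⟨hB, z, hz, hzB⟩
        exact ⟨hB, z, (hp₁ z hz).2, hzB⟩
      · obtain ⟨-, z', hz', hzA'⟩ := h ⟨hA, z, hz, hzA⟩
        exact hzA' (hp₁ z' hz').1
    obtain ⟨p', hp', hl'⟩ := ih _ (hn ▸ ncard_lt_ncard hss hfin) p₁ hx hy rfl
    exact ⟨p', fun v hv => ⟨(hp' v hv).1, (hp₁ v (hp' v hv).2).2⟩, hl'.trans hl₁⟩

/-- The graph of pairs at distance at most `r`. -/
def rg (G : SimpleGraph V) (r : ℕ) : SimpleGraph V where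
  Adj x y := x ≠ y ∧ G.dist x y ≤ r
  symm := ⟨by
    rintro x y ⟨hne, h⟩
    exact ⟨hne.symm, by rwa [SimpleGraph.dist_comm]⟩⟩
  loopless := ⟨fun x h => h.1 rfl⟩

/-- The block graph. -/
abbrev bg (G : SimpleGraph V) (r : ℕ) (o : Set (Set V)) : SimpleGraph (blk G o) :=
  (rg G r).induce (blk G o)

/-- Scale adapted to the family. -/
def Scale (G : SimpleGraph V) (F : Set (Set V)) (r : ℕ) : Prop :=
  1 ≤ r ∧ ∀ A ∈ F, ∀ x ∈ cutVerts G A, ∀ y ∈ cutVerts G A, G.dist x y ≤ r

theorem tg_le_rg {F : Set (Set V)} {r : ℕ} (hr : Scale G F r) : tg G F ≤ rg G r := by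
  rintro x y ⟨hne, h | ⟨A, hA, hx, hy⟩⟩
  · refine ⟨hne, ?_⟩
    rw [SimpleGraph.dist_eq_one_iff_adj.2 h]
    exact hr.1
  · exact ⟨hne, hr.2 A hA x hx y hy⟩

theorem mem_support_induce {s : Set V} {H : SimpleGraph V} {u v : V} (p : H.Walk u v)
    (hp : ∀ x ∈ p.support, x ∈ s) {w : s} (hw : w ∈ (p.induce s hp).support) :
    w.1 ∈ p.support := by
  have h1 : w.1 ∈ ((p.induce s hp).map (SimpleGraph.Embedding.induce s).toHom).support := by
    rw [SimpleGraph.Walk.support_map]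
    exact List.mem_map.2 ⟨w, hw, rfl⟩
  rw [SimpleGraph.Walk.map_induce] at h1
  exact h1

theorem length_induce' {s : Set V} {H : SimpleGraph V} {u v : V} (p : H.Walk u v)
    (hp : ∀ x ∈ p.support, x ∈ s) : (p.induce s hp).length = p.length := by
  have h1 := SimpleGraph.Walk.length_map (SimpleGraph.Embedding.induce s).toHom (p.induce s hp)
  rw [SimpleGraph.Walk.map_induce] at h1
  exact h1.symm

/-- Walks of `G` between vertices of the block give walks of the block graph. -/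
theorem blk_short {F o : Set (Set V)} (hF : NFam G F) (ho : Ori F o) {r : ℕ}
    (hr : Scale G F r) {x y : V} (p : G.Walk x y) (hx : x ∈ blk G o) (hy : y ∈ blk G o) :
    ∃ p' : (bg G r o).Walk ⟨x, hx⟩ ⟨y, hy⟩, p'.length ≤ p.length ∧
      ∀ v ∈ p'.support, v.1 ∈ p.support := by
  obtain ⟨p₁, hp₁, hl₁⟩ := all_cuts hF ho _ (p.mapLe (le_tg F)) hx hy rfl
  have hs : ∀ v ∈ (p₁.mapLe (tg_le_rg hr)).support, v ∈ blk G o := by
    intro v hv
    rw [SimpleGraph.Walk.support_mapLe_eq_support] at hv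
    exact (hp₁ v hv).1
  refine ⟨(p₁.mapLe (tg_le_rg hr)).induce _ hs, ?_, ?_⟩
  · rw [length_induce', SimpleGraph.Walk.length_map]
    refine hl₁.trans ?_
    rw [SimpleGraph.Walk.length_map]
  · intro v hv
    have h1 := mem_support_induce _ hs hv
    rw [SimpleGraph.Walk.support_mapLe_eq_support] at h1
    have h2 := (hp₁ v.1 h1).2
    rwa [SimpleGraph.Walk.support_mapLe_eq_support] at h2

end Run7.h926
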