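import Pool.Agent.Run7.h926.Block

set_option autoImplicit false

/-!
# The block graph: connectedness, distances, quasi-transitivity
-/

namespace Run7.h926

open Set

variable {V : Type*} {G : SimpleGraph V}

/-- A scale adapted to the family exists. -/
theorem exists_scale (hG : G.Connected) (hf : ∀ v, (G.neighborSet v).Finite)
    (hS : ∃ S : Finset V, ∀ v : V, ∃ s ∈ S, ∃ φ : G ≃g G, φ s = v) {F : Set (Set V)}
    (hF : NFam G F) : ∃ r, Scale G F r := by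
  classical
  obtain ⟨S, hS⟩ := hS
  -- finitely many members touch `S`
  have hfin : {A | A ∈ F ∧ ∃ s ∈ S, s ∈ cutVerts G A}.Finite := by
    have hsub : {A | A ∈ F ∧ ∃ s ∈ S, s ∈ cutVerts G A} ⊆
        ⋃ s ∈ (S : Set V), ⋃ w ∈ G.neighborSet s, ({A | A ∈ F ∧ (s, w) ∈ bd G A} ∪
          {A | A ∈ F ∧ (w, s) ∈ bd G A}) := by
      rintro A ⟨hA, s, hs, w, hsw, h⟩
      simp only [mem_iUnion]
      refine ⟨s, hs, w, hsw, ?_⟩
      by_cases hsA : s ∈ A
      · exact Or.inl ⟨hA, hsw, hsA, h.1 hsA⟩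
      · refine Or.inr ⟨hA, hsw.symm, ?_, hsA⟩
        by_contra hw
        exact hsA (h.2 hw)
    refine Finite.subset ?_ hsub
    exact S.finite_toSet.biUnion fun s _ => (hf s).biUnion fun w _ =>
      (hF.dart _).union (hF.dart _)
  have hdist : (⋃ A ∈ {A | A ∈ F ∧ ∃ s ∈ S, s ∈ cutVerts G A},
      (fun p : V × V => G.dist p.1 p.2) '' (cutVerts G A ×ˢ cutVerts G A)).Finite := by
    refine hfin.biUnion fun A hA => ?_
    have := cutVerts_finite (hF.fin A hA.1)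
    exact (this.prod this).image _
  obtain ⟨b, hb⟩ := hdist.bddAbove
  refine ⟨b + 1, by omega, fun A hA x hx y hy => ?_⟩
  obtain ⟨s, hs, φ, rfl⟩ := hS x
  have hx' : s ∈ cutVerts G (φ ⁻¹' A) := by
    obtain ⟨w, hw, h⟩ := hx
    refine ⟨φ.symm w, ?_, ?_⟩
    · rw [← φ.map_adj_iff]; simpa using hw
    · simpa using h
  have hy' : φ.symm y ∈ cutVerts G (φ ⁻¹' A) := by
    obtain ⟨w, hw, h⟩ := hy
    refine ⟨φ.symm w, ?_, ?_⟩
    · rw [← φ.map_adj_iff]; simpa using hw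
    · simpa using h
  have h1 : G.dist s (φ.symm y) ≤ b := by
    apply hb
    simp only [mem_iUnion]
    exact ⟨φ ⁻¹' A, ⟨hF.inv φ A hA, s, hs, hx'⟩, (s, φ.symm y), ⟨hx', hy'⟩, rfl⟩
  have h2 := dist_map φ hG s (φ.symm y)
  have h3 : φ (φ.symm y) = y := by simp
  rw [h3] at h2
  rw [h2]
  omega

theorem rg_dist_le (hG : G.Connected) {r : ℕ} {s : Set V} {x y : s}
    (p : ((rg G r).induce s).Walk x y) : G.dist x.1 y.1 ≤ r * p.length := by
  induction p with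
  | nil => simp
  | @cons x z y h p ih =>
    have h1 : G.dist x.1 z.1 ≤ r := h.2
    have h2 := hG.dist_triangle (u := x.1) (v := z.1) (w := y.1)
    rw [SimpleGraph.Walk.length_cons, Nat.mul_add, Nat.mul_one]
    omega

theorem bg_connected {F o : Set (Set V)} (hG : G.Connected) (hF : NFam G F) (ho : Ori F o) {r : ℕ}
    (hr : Scale G F r) (hne : (blk G o).Nonempty) : (bg G r o).Connected := by
  obtain ⟨x₀, hx₀⟩ := hne
  rw [SimpleGraph.connected_iff_exists_forall_reachable]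
  refine ⟨⟨x₀, hx₀⟩, fun ⟨x, hx⟩ => ?_⟩
  obtain ⟨p⟩ := hG.preconnected x₀ x
  obtain ⟨p', -⟩ := blk_short hF ho hr p hx₀ hx
  exact ⟨p'⟩

theorem bg_dist_le {F o : Set (Set V)} (hG : G.Connected) (hF : NFam G F) (ho : Ori F o) {r : ℕ}
    (hr : Scale G F r) (x y : blk G o) : (bg G r o).dist x y ≤ G.dist x.1 y.1 := by
  obtain ⟨p, hp⟩ := hG.exists_walk_length_eq_dist x.1 y.1
  obtain ⟨p', hp', -⟩ := blk_short hF ho hr p x.2 y.2
  rw [← hp]
  exact (SimpleGraph.dist_le p').trans hp'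

theorem dist_le_bg {F o : Set (Set V)} (hG : G.Connected) (hF : NFam G F) (ho : Ori F o) {r : ℕ}
    (hr : Scale G F r) (x y : blk G o) : G.dist x.1 y.1 ≤ r * (bg G r o).dist x y := by
  obtain ⟨p, hp⟩ := (bg_connected hG hF ho hr ⟨x.1, x.2⟩).exists_walk_length_eq_dist x y
  rw [← hp]
  exact rg_dist_le hG p

theorem bg_locfin (hG : G.Connected) (hf : ∀ v, (G.neighborSet v).Finite) (r : ℕ)
    (o : Set (Set V)) (x : blk G o) : ((bg G r o).neighborSet x).Finite := by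
  have h1 : Subtype.val '' ((bg G r o).neighborSet x) ⊆ {y | G.dist x.1 y ≤ r} := by
    rintro _ ⟨y, hy, rfl⟩
    exact hy.2
  exact Finite.of_finite_image ((ball_finite hG hf r x.1).subset h1) Subtype.val_injective.injOn

/-! ### Orientations are determined locally -/

theorem blk_determined {F o : Set (Set V)} (ho : Ori F o) {x : V} (hx : x ∈ blk G o) {A : Set V}
    (hA : A ∈ F) (hxA : x ∉ cutVerts G A) : A ∈ o ↔ x ∈ A := by
  constructor
  · intro h
    rcases hx A h with h1 | ⟨u, hu, hux⟩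
    · exact h1
    · by_contra h1
      exact hxA ⟨u, hux.symm, iff_of_false h1 (fun h => h hu)⟩
  · intro h
    rcases ho.tot A hA with h1 | h1
    · exact h1
    · exfalso
      rcases hx Aᶜ h1 with h2 | ⟨u, hu, hux⟩
      · exact h2 h
      · exact hxA ⟨u, hux.symm, iff_of_true h hu⟩

theorem mem_cutVerts_preimage (g : G ≃g G) {A : Set V} {x : V} :
    x ∈ cutVerts G (g ⁻¹' A) ↔ g x ∈ cutVerts G A := by
  constructor
  · rintro ⟨w, hw, h⟩
    exact ⟨g w, g.map_adj_iff.2 hw, h⟩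
  · rintro ⟨w, hw, h⟩
    refine ⟨g.symm w, ?_, ?_⟩
    · rw [← g.map_adj_iff]; simpa using hw
    · simpa using h

theorem mem_hull_preimage (g : G ≃g G) {A : Set V} {x : V} :
    x ∈ hull G (g ⁻¹' A) ↔ g x ∈ hull G A := by
  constructor
  · rintro (h | ⟨u, hu, hux⟩)
    · exact Or.inl h
    · exact Or.inr ⟨g u, hu, g.map_adj_iff.2 hux⟩
  · rintro (h | ⟨u, hu, hux⟩)
    · exact Or.inl h
    · refine Or.inr ⟨g.symm u, by simpa using hu, ?_⟩
      rw [← g.map_adj_iff]; simpa using hux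

/-- Transfer of orientations along an automorphism matching them locally. -/
theorem ori_transfer {F o o' : Set (Set V)} (hF : NFam G F) (ho : Ori F o) (ho' : Ori F o')
    (g : G ≃g G) {x : V} (hx : x ∈ blk G o) (hx' : g x ∈ blk G o')
    (hloc : ∀ A ∈ F, g x ∈ cutVerts G A → (A ∈ o' ↔ g ⁻¹' A ∈ o)) :
    ∀ A ∈ F, (A ∈ o' ↔ g ⁻¹' A ∈ o) := by
  intro A hA
  by_cases h : g x ∈ cutVerts G A
  · exact hloc A hA h
  · have h' : x ∉ cutVerts G (g ⁻¹' A) := fun h1 => h ((mem_cutVerts_preimage g).1 h1)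
    rw [blk_determined ho' hx' hA h, blk_determined ho hx (hF.inv g A hA) h']
    exact Iff.rfl

theorem blk_map {F o o' : Set (Set V)} (hF : NFam G F) (ho : Ori F o) (ho' : Ori F o')
    (g : G ≃g G) (h : ∀ A ∈ F, (A ∈ o' ↔ g ⁻¹' A ∈ o)) (x : V) :
    x ∈ blk G o ↔ g x ∈ blk G o' := by
  constructor
  · intro hx A hA
    rw [← mem_hull_preimage]
    exact hx _ ((h A (ho'.sub hA)).1 hA)
  · intro hx A hA
    have h1 : g ⁻¹' (g.symm ⁻¹' A) = A := preimage_preimage_symm g A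
    rw [← h1, mem_hull_preimage]
    refine hx _ ?_
    rw [h _ (hF.inv g.symm A (ho.sub hA)), h1]
    exact hA

/-- The isomorphism of block graphs induced by an automorphism matching the orientations. -/
def blkIso {F o o' : Set (Set V)} (hG : G.Connected) (hF : NFam G F) (ho : Ori F o)
    (ho' : Ori F o') (r : ℕ) (g : G ≃g G) (h : ∀ A ∈ F, (A ∈ o' ↔ g ⁻¹' A ∈ o)) :
    bg G r o ≃g bg G r o' where
  toEquiv := g.toEquiv.subtypeEquiv (blk_map hF ho ho' g h)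
  map_rel_iff' := by
    rintro ⟨x, hx⟩ ⟨y, hy⟩
    show (g x ≠ g y ∧ G.dist (g x) (g y) ≤ r) ↔ (x ≠ y ∧ G.dist x y ≤ r)
    rw [dist_map g hG, g.injective.ne_iff]

/-- The members of the family touching a vertex. -/
theorem touch_finite (hf : ∀ v, (G.neighborSet v).Finite) {F : Set (Set V)}
    (hF : NFam G F) (s : V) : {A | A ∈ F ∧ s ∈ cutVerts G A}.Finite := by
  have hsub : {A | A ∈ F ∧ s ∈ cutVerts G A} ⊆
      ⋃ w ∈ G.neighborSet s, ({A | A ∈ F ∧ (s, w) ∈ bd G A} ∪ {A | A ∈ F ∧ (w, s) ∈ bd G A}) := by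
    rintro A ⟨hA, w, hsw, h⟩
    simp only [mem_iUnion]
    refine ⟨w, hsw, ?_⟩
    by_cases hsA : s ∈ A
    · exact Or.inl ⟨hA, hsw, hsA, h.1 hsA⟩
    · refine Or.inr ⟨hA, hsw.symm, ?_, hsA⟩
      by_contra hw
      exact hsA (h.2 hw)
  refine Finite.subset ?_ hsub
  exact (hf s).biUnion fun w _ => (hF.dart _).union (hF.dart _)

/-- Signature of a placement. -/
def sig (G : SimpleGraph V) (F o : Set (Set V)) (s : V) (g : G ≃g G) : V × Set (Set V) :=
  (s, {A | A ∈ F ∧ s ∈ cutVerts G A ∧ g.symm ⁻¹' A ∈ o})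

/-- The finitely many possible signatures. -/
def sigs (G : SimpleGraph V) (F : Set (Set V)) (S : Set V) : Set (V × Set (Set V)) :=
  ⋃ s ∈ S, ({s} : Set V) ×ˢ {U | U ⊆ {A | A ∈ F ∧ s ∈ cutVerts G A}}

theorem sigs_finite (hf : ∀ v, (G.neighborSet v).Finite) {F : Set (Set V)} (hF : NFam G F)
    {S : Set V} (hS : S.Finite) : (sigs G F S).Finite :=
  hS.biUnion fun s _ => (finite_singleton s).prod (touch_finite hf hF s).finite_subsets

theorem sig_mem {F o : Set (Set V)} {S : Set V} {s : V} (hs : s ∈ S) (g : G ≃g G) :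
    sig G F o s g ∈ sigs G F S := by
  simp only [sigs, mem_iUnion]
  exact ⟨s, hs, rfl, fun A hA => ⟨hA.1, hA.2.1⟩⟩

/-- Equal signatures give matching automorphisms. -/
theorem sig_match {F o o' : Set (Set V)} (hF : NFam G F) (ho : Ori F o) (ho' : Ori F o')
    {s s' : V} {g g' : G ≃g G} (hx : g s ∈ blk G o) (hx' : g' s' ∈ blk G o')
    (h : sig G F o s g = sig G F o' s' g') :
    (∀ A ∈ F, (A ∈ o' ↔ (g.symm.trans g') ⁻¹' A ∈ o)) ∧ (g.symm.trans g') (g s) = g' s' := by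
  have h1 : s = s' := congrArg Prod.fst h
  have h2 : {A | A ∈ F ∧ s ∈ cutVerts G A ∧ g.symm ⁻¹' A ∈ o} =
    {A | A ∈ F ∧ s' ∈ cutVerts G A ∧ g'.symm ⁻¹' A ∈ o'} := congrArg Prod.snd h
  subst h1
  have e : (g.symm.trans g') (g s) = g' s := by
    show g' (g.symm (g s)) = g' s
    rw [g.symm_apply_apply]
  refine ⟨?_, e⟩
  refine ori_transfer hF ho ho' _ hx (by rw [e]; exact hx') ?_
  intro A hA hc
  rw [e, ← mem_cutVerts_preimage] at hc
  have hB : g' ⁻¹' A ∈ F := hF.inv g' A hA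
  have e1 : g'.symm ⁻¹' (g' ⁻¹' A) = A := preimage_symm_preimage g' A
  have e2 : (g.symm.trans g') ⁻¹' A = g.symm ⁻¹' (g' ⁻¹' A) := rfl
  rw [e2]
  constructor
  · intro h
    have : g' ⁻¹' A ∈ {A | A ∈ F ∧ s ∈ cutVerts G A ∧ g.symm ⁻¹' A ∈ o} := by
      rw [h2]
      exact ⟨hB, hc, by rw [e1]; exact h⟩
    exact this.2.2
  · intro h
    have : g' ⁻¹' A ∈ {A | A ∈ F ∧ s ∈ cutVerts G A ∧ g'.symm ⁻¹' A ∈ o'} := by
      rw [← h2]
      exact ⟨hB, hc, h⟩
    have h3 := this.2.2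
    rwa [e1] at h3

/-- The block graph is quasi-transitive, by automorphisms of `G` fixing the orientation. -/
theorem bg_quasi_aux (hf : ∀ v, (G.neighborSet v).Finite)
    (hS : ∃ S : Finset V, ∀ v : V, ∃ s ∈ S, ∃ φ : G ≃g G, φ s = v) {F o : Set (Set V)}
    (hF : NFam G F) (ho : Ori F o) :
    ∃ R : Finset V, (∀ x ∈ R, x ∈ blk G o) ∧ ∀ y ∈ blk G o, ∃ x ∈ R, ∃ g : G ≃g G,
      (∀ A ∈ F, (A ∈ o ↔ g ⁻¹' A ∈ o)) ∧ g x = y := by
  classical
  obtain ⟨S, hS⟩ := hS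
  have hS' : ∀ v : V, ∃ (s : V) (φ : G ≃g G), s ∈ S ∧ φ s = v := fun v => by
    obtain ⟨s, hs, φ, h⟩ := hS v
    exact ⟨s, φ, hs, h⟩
  choose s φ hs hφ using hS'
  set σ : V → V × Set (Set V) := fun v => sig G F o (s v) (φ v) with hσ
  have hfin : (σ '' blk G o).Finite := by
    refine (sigs_finite hf hF S.finite_toSet).subset ?_
    rintro _ ⟨v, -, rfl⟩
    exact sig_mem (by exact_mod_cast hs v) _
  obtain ⟨R, hR1, hR2⟩ : ∃ R : Finset V, (R : Set V) ⊆ blk G o ∧ σ '' blk G o ⊆ σ '' (R : Set V) := by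
    obtain ⟨T, hT1, hT2⟩ := Set.exists_subset_bijOn (blk G o) σ
    have hTf : T.Finite := by
      refine Finite.of_finite_image ?_ hT2.injOn
      rw [hT2.image_eq]
      exact hfin
    refine ⟨hTf.toFinset, ?_, ?_⟩
    · rw [hTf.coe_toFinset]; exact hT1
    · rw [hTf.coe_toFinset, hT2.image_eq]
  refine ⟨R, fun x hx => hR1 (by exact_mod_cast hx), fun y hy => ?_⟩
  obtain ⟨x, hx, hxy⟩ := hR2 ⟨y, hy, rfl⟩
  have hx' : x ∈ blk G o := hR1 hx
  have hxy' : sig G F o (s x) (φ x) = sig G F o (s y) (φ y) := hxy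
  obtain ⟨h1, h2⟩ := sig_match hF ho ho (by rw [hφ x]; exact hx') (by rw [hφ y]; exact hy) hxy'
  refine ⟨x, by exact_mod_cast hx, _, h1, ?_⟩
  rw [hφ, hφ] at h2
  exact h2

theorem bg_quasi (hG : G.Connected) (hf : ∀ v, (G.neighborSet v).Finite)
    (hS : ∃ S : Finset V, ∀ v : V, ∃ s ∈ S, ∃ φ : G ≃g G, φ s = v) {F o : Set (Set V)}
    (hF : NFam G F) (ho : Ori F o) (r : ℕ) :
    ∃ S : Finset (blk G o), ∀ v : blk G o, ∃ s ∈ S, ∃ φ : bg G r o ≃g bg G r o, φ s = v := by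
  classical
  obtain ⟨R, hR1, hR2⟩ := bg_quasi_aux hf hS hF ho
  refine ⟨R.subtype (· ∈ blk G o), ?_⟩
  rintro ⟨y, hy⟩
  obtain ⟨x, hx, g, hg, rfl⟩ := hR2 y hy
  refine ⟨⟨x, hR1 x hx⟩, Finset.mem_subtype.2 hx, blkIso hG hF ho ho r g hg, ?_⟩
  rfl

end Run7.h926
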