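import Pool.Agent.Run7.h926.Fam2

set_option autoImplicit false

/-!
# Clusters of the boundaries of the members of the canonical family
-/

namespace Run7.h926

open Set

variable {V : Type*} (G : SimpleGraph V) (N : V → Set V)

/-- Both ends of the dart `d` lie in `N x`. -/
def InN (x : V) (d : V × V) : Prop := d.1 ∈ N x ∧ d.2 ∈ N x

/-- Two darts of the boundary of `A` lying in a common `N x`. -/
def CR (A : Set V) (d d' : V × V) : Prop :=
  d ∈ bd G A ∧ d' ∈ bd G A ∧ ∃ x, InN N x d ∧ InN N x d'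

/-- The cluster of `d` in the boundary of `A`. -/
def cl (A : Set V) (d : V × V) : Set (V × V) := {d' | Relation.ReflTransGen (CR G N A) d d'}

/-- The largest member of the level `k` with prescribed trace on `N x` and boundary containing
`d`. -/
def Mx (k : ℕ) (d : V × V) (x : V) (U : Set V) : Set V :=
  ⋃₀ {A | A ∈ Fam G k ∧ d ∈ bd G A ∧ A ∩ N x = U}

variable {G N}

theorem cl_sub {A : Set V} {d d' : V × V} (hd : d ∈ bd G A) (h : d' ∈ cl G N A d) :
    d' ∈ bd G A := by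
  induction h with
  | refl => exact hd
  | tail _ h _ => exact h.2.1

theorem cl_symm {A : Set V} {d d' : V × V} (h : d' ∈ cl G N A d) : d ∈ cl G N A d' := by
  induction h with
  | refl => exact Relation.ReflTransGen.refl
  | tail _ h ih =>
    obtain ⟨h1, h2, x, h3, h4⟩ := h
    exact Relation.ReflTransGen.head ⟨h2, h1, x, h4, h3⟩ ih

theorem cl_eq {A : Set V} {d d' : V × V} (h : d' ∈ cl G N A d) : cl G N A d' = cl G N A d := by
  ext e
  exact ⟨fun he => Relation.ReflTransGen.trans h he,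
    fun he => Relation.ReflTransGen.trans (cl_symm h) he⟩

theorem mem_bd_of_agree {A B : Set V} {x : V} (h : A ∩ N x = B ∩ N x) {d : V × V}
    (hx : InN N x d) (hd : d ∈ bd G A) : d ∈ bd G B := by
  have h1 : d.1 ∈ A ∩ N x ↔ d.1 ∈ B ∩ N x := by rw [h]
  have h2 : d.2 ∈ A ∩ N x ↔ d.2 ∈ B ∩ N x := by rw [h]
  obtain ⟨ha, hA1, hA2⟩ := hd
  obtain ⟨hx1, hx2⟩ := hx
  refine ⟨ha, (h1.1 ⟨hA1, hx1⟩).1, fun hB => hA2 (h2.2 ⟨hB, hx2⟩).1⟩

/-- Key lemma: every cluster is the cluster of a locally maximal member. -/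
theorem exists_locally_max (hG : G.Connected) (hN1 : ∀ u v, G.Adj u v → ∃ x, InN N x (u, v))
    {k : ℕ} {A : Set V} (hA : A ∈ Fam G k) {d : V × V} (hd : d ∈ bd G A) :
    ∃ d' x M, M ∈ Fam G k ∧ InN N x d' ∧ d' ∈ bd G M ∧ M = Mx G N k d' x (M ∩ N x) ∧
      cl G N M d' = cl G N A d := by
  have hfin : {B | B ∈ Fam G k ∧ d ∈ bd G B ∧ cl G N B d = cl G N A d}.Finite :=
    (fam_dart_finite hG k d).subset fun B hB => ⟨hB.1, hB.2.1⟩
  obtain ⟨M, hM⟩ := hfin.exists_maximal ⟨A, hA, hd, rfl⟩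
  obtain ⟨hMF, hdM, hMcl⟩ := hM.prop
  by_contra hno
  push Not at hno
  -- there is always a larger member agreeing in the ball
  have hbig : ∀ d' ∈ cl G N M d, ∀ x, InN N x d' →
      ∃ B, B ∈ Fam G k ∧ d' ∈ bd G B ∧ B ∩ N x = M ∩ N x ∧ M ⊂ B := by
    intro d' hd' x hx
    have hd'M := cl_sub hdM hd'
    by_contra hnone
    refine hno d' x M hMF hx hd'M ?_ (by rw [cl_eq hd', hMcl])
    refine subset_antisymm (fun z hz => ⟨M, ⟨hMF, hd'M, rfl⟩, hz⟩) ?_
    rintro z ⟨B, ⟨hB, hdB, hBx⟩, hz⟩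
    rcases fam_chain hG hB hMF hdB hd'M with h | h
    · exact h hz
    · by_contra hzM
      exact hnone ⟨B, hB, hdB, hBx, h, fun h' => hzM (h' hz)⟩
  obtain ⟨x₀, hx₀⟩ := hN1 d.1 d.2 hdM.1
  have hUpfin : {B | B ∈ Fam G k ∧ d ∈ bd G B ∧ M ⊂ B}.Finite :=
    (fam_dart_finite hG k d).subset fun B hB => ⟨hB.1, hB.2.1⟩
  obtain ⟨B₀, hB₀, hdB₀, -, hMB₀⟩ := hbig d Relation.ReflTransGen.refl x₀ hx₀
  obtain ⟨S, hS⟩ := hUpfin.exists_minimal ⟨B₀, hB₀, hdB₀, hMB₀⟩
  obtain ⟨hSF, hdS, hMS⟩ := hS.prop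
  -- agreement from minimality
  have hagree : ∀ d' ∈ cl G N M d, (∀ B, B ∈ Fam G k → d' ∈ bd G B → M ⊂ B → S ⊆ B) →
      ∀ x, InN N x d' → S ∩ N x = M ∩ N x := by
    intro d' hd' hmin x hx
    obtain ⟨B, hB, hdB, hBx, hMB⟩ := hbig d' hd' x hx
    have hSB := hmin B hB hdB hMB
    refine subset_antisymm ?_ (inter_subset_inter_left _ hMS.1)
    rw [← hBx]
    exact inter_subset_inter_left _ hSB
  have hclaim : ∀ d' ∈ cl G N M d, d' ∈ bd G S ∧ d' ∈ cl G N S d ∧
      ∀ B, B ∈ Fam G k → d' ∈ bd G B → M ⊂ B → S ⊆ B := by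
    intro d' hd'
    induction hd' with
    | refl =>
      refine ⟨hdS, Relation.ReflTransGen.refl, fun B hB hdB hMB => ?_⟩
      rcases fam_chain hG hSF hB hdS hdB with h | h
      · exact h
      · exact hS.le_of_le ⟨hB, hdB, hMB⟩ h
    | @tail d1 d2 h12 hR ih =>
      obtain ⟨ih1, ih2, ih3⟩ := ih
      obtain ⟨hR1, hR2, x, hx1, hx2⟩ := hR
      have hd2cl : d2 ∈ cl G N M d := Relation.ReflTransGen.tail h12 ⟨hR1, hR2, x, hx1, hx2⟩
      have hSx := hagree d1 h12 ih3 x hx1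
      have hd2S : d2 ∈ bd G S := mem_bd_of_agree hSx.symm hx2 hR2
      refine ⟨hd2S, Relation.ReflTransGen.tail ih2 ⟨ih1, hd2S, x, hx1, hx2⟩, ?_⟩
      -- minimal element at d2
      have hfin2 : {B | B ∈ Fam G k ∧ d2 ∈ bd G B ∧ M ⊂ B}.Finite :=
        (fam_dart_finite hG k d2).subset fun B hB => ⟨hB.1, hB.2.1⟩
      obtain ⟨S', hS'⟩ := hfin2.exists_minimal ⟨S, hSF, hd2S, hMS⟩
      obtain ⟨hS'F, hd2S', hMS'⟩ := hS'.prop
      have hmin' : ∀ B, B ∈ Fam G k → d2 ∈ bd G B → M ⊂ B → S' ⊆ B := by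
        intro B hB hdB hMB
        rcases fam_chain hG hS'F hB hd2S' hdB with h | h
        · exact h
        · exact hS'.le_of_le ⟨hB, hdB, hMB⟩ h
      have hS'x : S' ∩ N x = M ∩ N x := by
        obtain ⟨B, hB, hdB, hBx, hMB⟩ := hbig d2 hd2cl x hx2
        refine subset_antisymm ?_ (inter_subset_inter_left _ hMS'.1)
        rw [← hBx]
        exact inter_subset_inter_left _ (hmin' B hB hdB hMB)
      have hd1S' : d1 ∈ bd G S' := mem_bd_of_agree hS'x.symm hx1 hR1
      have hSS' : S ⊆ S' := ih3 S' hS'F hd1S' hMS'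
      exact fun B hB hdB hMB => hSS'.trans (hmin' B hB hdB hMB)
  have hcl : cl G N S d = cl G N M d := by
    refine subset_antisymm ?_ fun d' hd' => (hclaim d' hd').2.1
    intro d' hd'
    induction hd' with
    | refl => exact Relation.ReflTransGen.refl
    | @tail d1 d2 h12 hR ih =>
      obtain ⟨hR1, hR2, x, hx1, hx2⟩ := hR
      have hSx := hagree d1 ih (hclaim d1 ih).2.2 x hx1
      exact Relation.ReflTransGen.tail ih
        ⟨mem_bd_of_agree hSx hx1 hR1, mem_bd_of_agree hSx hx2 hR2, x, hx1, hx2⟩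
  have hSin : S ∈ {B | B ∈ Fam G k ∧ d ∈ bd G B ∧ cl G N B d = cl G N A d} :=
    ⟨hSF, hdS, by rw [hcl, hMcl]⟩
  exact hMS.2 (hM.le_of_ge hSin hMS.1)

/-! ### Equivariance -/

section Equiv

variable (hNi : ∀ (g : G ≃g G) (x y : V), g y ∈ N (g x) ↔ y ∈ N x) (g : G ≃g G)

include hNi

theorem inN_map (x : V) (d : V × V) : InN N (g x) (Prod.map g g d) ↔ InN N x d := by
  unfold InN
  simp only [Prod.map_fst, Prod.map_snd, hNi]

theorem cr_preimage (A : Set V) (d d' : V × V) :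
    CR G N (g ⁻¹' A) d d' ↔ CR G N A (Prod.map g g d) (Prod.map g g d') := by
  unfold CR
  rw [bd_preimage]
  simp only [mem_preimage]
  refine and_congr Iff.rfl (and_congr Iff.rfl ⟨?_, ?_⟩)
  · rintro ⟨x, h1, h2⟩
    exact ⟨g x, (inN_map hNi g x d).2 h1, (inN_map hNi g x d').2 h2⟩
  · rintro ⟨x, h1, h2⟩
    refine ⟨g.symm x, ?_, ?_⟩
    · rw [← inN_map hNi g]; simpa using h1
    · rw [← inN_map hNi g]; simpa using h2

theorem cl_preimage (A : Set V) (d : V × V) :
    cl G N (g ⁻¹' A) d = Prod.map g g ⁻¹' cl G N A (Prod.map g g d) := by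
  have hsurj : Function.Surjective (Prod.map g g) := g.surjective.prodMap g.surjective
  ext d'
  simp only [mem_preimage]
  constructor
  · intro h
    induction h with
    | refl => exact Relation.ReflTransGen.refl
    | tail _ hR ih => exact Relation.ReflTransGen.tail ih ((cr_preimage hNi g A _ _).1 hR)
  · intro h
    have key : ∀ e, Relation.ReflTransGen (CR G N A) (Prod.map g g d) e →
        ∀ e', Prod.map g g e' = e → e' ∈ cl G N (g ⁻¹' A) d := by
      intro e he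
      induction he with
      | refl =>
        intro e' he'
        have := (g.injective.prodMap g.injective) he'
        rw [this]
        exact Relation.ReflTransGen.refl
      | @tail e1 e2 _ hR ih =>
        intro e' he'
        obtain ⟨e1', rfl⟩ := hsurj e1
        refine Relation.ReflTransGen.tail (ih e1' rfl) ?_
        rw [cr_preimage hNi g A, he']
        exact hR
    exact key _ h d' rfl

theorem cl_preimage_ncard (A : Set V) (d : V × V) :
    (cl G N (g ⁻¹' A) d).ncard = (cl G N A (Prod.map g g d)).ncard := by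
  have h : cl G N A (Prod.map g g d) = Prod.map g g '' cl G N (g ⁻¹' A) d := by
    rw [cl_preimage hNi, image_preimage_eq _ (g.surjective.prodMap g.surjective)]
  rw [h, ncard_image_of_injective _ (g.injective.prodMap g.injective)]

theorem mx_preimage (k : ℕ) (d : V × V) (x : V) (U : Set V) :
    Mx G N k d x (g ⁻¹' U) = g ⁻¹' Mx G N k (Prod.map g g d) (g x) U := by
  have hNx : ∀ A : Set V, g ⁻¹' A ∩ N x = g ⁻¹' (A ∩ N (g x)) := by
    intro A
    ext y
    simp only [mem_inter_iff, mem_preimage, hNi]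
  have hinj : ∀ A B : Set V, g ⁻¹' A = g ⁻¹' B → A = B := by
    intro A B hAB
    have := congrArg (fun S : Set V => g.symm ⁻¹' S) hAB
    simpa only [preimage_symm_preimage] using this
  ext z
  unfold Mx
  simp only [mem_sUnion, mem_preimage, mem_ofPred_eq]
  constructor
  · rintro ⟨A, ⟨hA, hd, hU⟩, hz⟩
    refine ⟨g.symm ⁻¹' A, ⟨fam_inv k g.symm A hA, ?_, ?_⟩, by simpa using hz⟩
    · have : d ∈ bd G (g ⁻¹' (g.symm ⁻¹' A)) := by rwa [preimage_preimage_symm]
      rw [bd_preimage] at this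
      exact this
    · apply hinj
      rw [← hNx, preimage_preimage_symm]
      exact hU
  · rintro ⟨A, ⟨hA, hd, hU⟩, hz⟩
    refine ⟨g ⁻¹' A, ⟨fam_inv k g A hA, ?_, ?_⟩, hz⟩
    · rw [bd_preimage]; exact hd
    · rw [hNx, hU]

end Equiv

/-- The sizes of the clusters at level `k`. -/
def sizes (G : SimpleGraph V) (N : V → Set V) (k : ℕ) : Set ℕ :=
  {n | ∃ A ∈ Fam G k, ∃ d ∈ bd G A, (cl G N A d).ncard = n}

theorem sizes_mono {j k : ℕ} (h : j ≤ k) : sizes G N j ⊆ sizes G N k := by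
  rintro n ⟨A, hA, d, hd, hn⟩
  exact ⟨A, fam_mono h hA, d, hd, hn⟩

/-- The clusters of all members of the family have bounded size. -/
theorem sizes_bounded (hG : G.Connected) (hN1 : ∀ u v, G.Adj u v → ∃ x, InN N x (u, v))
    (hNi : ∀ (g : G ≃g G) (x y : V), g y ∈ N (g x) ↔ y ∈ N x) (hNf : ∀ x, (N x).Finite)
    (S : Finset V) (hS : ∀ v : V, ∃ s ∈ S, ∃ φ : G ≃g G, φ s = v) :
    ∃ b : ℕ, ∀ k, ∀ n ∈ sizes G N k, n ≤ b := by
  classical
  -- the index set
  set T : Set ((V × V) × V × Set V) :=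
    ⋃ s ∈ (S : Set V), (N s ×ˢ N s) ×ˢ ({s} : Set V) ×ˢ {U | U ⊆ N s} with hT
  have hTf : T.Finite := by
    refine S.finite_toSet.biUnion fun s _ => ?_
    exact ((hNf s).prod (hNf s)).prod ((finite_singleton s).prod (hNf s).finite_subsets)
  have hsub : ∀ k, sizes G N k ⊆
      (fun t : (V × V) × V × Set V => (cl G N (Mx G N k t.1 t.2.1 t.2.2) t.1).ncard) '' T := by
    rintro k n ⟨A, hA, d, hd, rfl⟩
    obtain ⟨d', x, M, hM, hx, hd'M, hMx, hMcl⟩ := exists_locally_max hG hN1 hA hd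
    obtain ⟨s, hs, g, rfl⟩ := hS x
    obtain ⟨d'', rfl⟩ : ∃ d'', Prod.map g g d'' = d' :=
      (g.surjective.prodMap g.surjective) d'
    refine ⟨(d'', s, g ⁻¹' (M ∩ N (g s))), ?_, ?_⟩
    · rw [hT]
      simp only [mem_iUnion]
      refine ⟨s, hs, ⟨(inN_map hNi g s d'').1 hx, rfl, ?_⟩⟩
      rintro y ⟨-, hy⟩
      exact (hNi g s y).1 hy
    · simp only
      rw [mx_preimage hNi, cl_preimage_ncard hNi, ← hMx, hMcl]
  have hfinU : (⋃ k, sizes G N k).Finite := by
    by_contra hinf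
    obtain ⟨t, htsub, htcard⟩ := Set.Infinite.exists_subset_card_eq hinf (T.ncard + 1)
    have : ∀ n ∈ t, ∃ k, n ∈ sizes G N k := fun n hn => by
      simpa using htsub hn
    choose! κ hκ using this
    have ht : (t : Set ℕ) ⊆ sizes G N (t.sup κ) := fun n hn =>
      sizes_mono (Finset.le_sup (f := κ) hn) (hκ n hn)
    have h1 : t.card ≤ T.ncard := by
      rw [← ncard_coe_finset]
      exact (ncard_le_ncard (ht.trans (hsub _)) (hTf.image _)).trans (ncard_image_le hTf)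
    omega
  obtain ⟨b, hb⟩ := hfinU.bddAbove
  exact ⟨b, fun k n hn => hb (mem_iUnion.2 ⟨k, hn⟩)⟩

end Run7.h926
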