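import Mathlib

set_option autoImplicit false

/-!
# Finite edge cuts of a graph: boundaries, submodularity, points, crossing
-/

namespace Run7.h926

open Set

variable {V : Type*} (G : SimpleGraph V)

/-- The darts leaving `A`. -/
def bd (A : Set V) : Set (V × V) := {d | G.Adj d.1 d.2 ∧ d.1 ∈ A ∧ d.2 ∉ A}

theorem mem_bd {A : Set V} {d : V × V} : d ∈ bd G A ↔ G.Adj d.1 d.2 ∧ d.1 ∈ A ∧ d.2 ∉ A :=
  Iff.rfl

theorem bd_compl (A : Set V) : bd G Aᶜ = Prod.swap '' bd G A := by
  ext ⟨u, v⟩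
  simp only [mem_bd, mem_compl_iff, mem_image, Prod.exists, Prod.swap_prod_mk, Prod.mk.injEq,
    not_not]
  constructor
  · rintro ⟨h, hu, hv⟩
    exact ⟨v, u, ⟨h.symm, hv, hu⟩, rfl, rfl⟩
  · rintro ⟨a, b, ⟨h, ha, hb⟩, rfl, rfl⟩
    exact ⟨h.symm, hb, ha⟩

theorem bd_compl_finite {A : Set V} (h : (bd G A).Finite) : (bd G Aᶜ).Finite := by
  rw [bd_compl]; exact h.image _

theorem bd_compl_ncard (A : Set V) : (bd G Aᶜ).ncard = (bd G A).ncard := by
  rw [bd_compl, ncard_image_of_injective _ Prod.swap_injective]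

theorem bd_inter_union_subset (A B : Set V) :
    bd G (A ∩ B) ∪ bd G (A ∪ B) ⊆ bd G A ∪ bd G B := by
  rintro ⟨u, v⟩
  simp only [mem_union, mem_bd, mem_inter_iff]
  tauto

theorem bd_inter_union_inter (A B : Set V) :
    bd G (A ∩ B) ∩ bd G (A ∪ B) ⊆ bd G A ∩ bd G B := by
  rintro ⟨u, v⟩
  simp only [mem_union, mem_bd, mem_inter_iff]
  tauto

theorem bd_inter_finite {A B : Set V} (hA : (bd G A).Finite) (hB : (bd G B).Finite) :
    (bd G (A ∩ B)).Finite :=
  (hA.union hB).subset (subset_union_left.trans (bd_inter_union_subset G A B))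

theorem bd_union_finite {A B : Set V} (hA : (bd G A).Finite) (hB : (bd G B).Finite) :
    (bd G (A ∪ B)).Finite :=
  (hA.union hB).subset (subset_union_right.trans (bd_inter_union_subset G A B))

/-- Submodularity of the size of the boundary. -/
theorem bd_submod {A B : Set V} (hA : (bd G A).Finite) (hB : (bd G B).Finite) :
    (bd G (A ∩ B)).ncard + (bd G (A ∪ B)).ncard ≤ (bd G A).ncard + (bd G B).ncard := by
  rw [← ncard_union_add_ncard_inter (bd G (A ∩ B)) (bd G (A ∪ B)) (bd_inter_finite G hA hB)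
    (bd_union_finite G hA hB), ← ncard_union_add_ncard_inter (bd G A) (bd G B) hA hB]
  exact add_le_add (ncard_le_ncard (bd_inter_union_subset G A B) (hA.union hB))
    (ncard_le_ncard (bd_inter_union_inter G A B) (hA.inter_of_left _))

/-- Submodularity for the opposite corners `A ∩ B` and `Aᶜ ∩ Bᶜ`. -/
theorem bd_corner {A B : Set V} (hA : (bd G A).Finite) (hB : (bd G B).Finite) :
    (bd G (A ∩ B)).ncard + (bd G (Aᶜ ∩ Bᶜ)).ncard ≤ (bd G A).ncard + (bd G B).ncard := by
  have h := bd_submod G hA hB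
  rw [← compl_union, bd_compl_ncard]
  exact h

/-! ### Points -/

/-- A point: a two-valued homomorphism on the algebra of sets with finite boundary. -/
structure IsPt (p : Set V → Prop) : Prop where
  inter : ∀ A B, (bd G A).Finite → (bd G B).Finite → (p (A ∩ B) ↔ p A ∧ p B)
  compl : ∀ A, (bd G A).Finite → (p Aᶜ ↔ ¬ p A)

/-- `A` separates the points `p` and `q`. -/
def Sep (p q : Set V → Prop) (A : Set V) : Prop := (bd G A).Finite ∧ ¬ (p A ↔ q A)

/-- `A` separates the points `p` and `q` with smallest possible boundary. -/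
structure Opt (p q : Set V → Prop) (A : Set V) : Prop where
  pt1 : IsPt G p
  pt2 : IsPt G q
  fin : (bd G A).Finite
  sep : ¬ (p A ↔ q A)
  le : ∀ B, (bd G B).Finite → ¬ (p B ↔ q B) → (bd G A).ncard ≤ (bd G B).ncard

variable {G}

theorem Opt.compl {p q : Set V → Prop} {A : Set V} (h : Opt G p q A) : Opt G p q Aᶜ := by
  refine ⟨h.pt1, h.pt2, bd_compl_finite G h.fin, ?_, ?_⟩
  · rw [h.pt1.compl _ h.fin, h.pt2.compl _ h.fin]
    have := h.sep
    tauto
  · intro B hB hs
    rw [bd_compl_ncard]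
    exact h.le B hB hs

theorem Opt.symm {p q : Set V → Prop} {A : Set V} (h : Opt G p q A) : Opt G q p A :=
  ⟨h.pt2, h.pt1, h.fin, fun e => h.sep e.symm, fun B hB hs => h.le B hB fun e => hs e.symm⟩

theorem Opt.of_le {p q : Set V → Prop} {A B : Set V} (h : Opt G p q A) (hB : (bd G B).Finite)
    (hs : ¬ (p B ↔ q B)) (hle : (bd G B).ncard ≤ (bd G A).ncard) : Opt G p q B :=
  ⟨h.pt1, h.pt2, hB, hs, fun C hC hsC => hle.trans (h.le C hC hsC)⟩

theorem Opt.ncard_eq {p q : Set V → Prop} {A B : Set V} (h : Opt G p q A) (h' : Opt G p q B) :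
    (bd G A).ncard = (bd G B).ncard :=
  le_antisymm (h.le _ h'.fin h'.sep) (h'.le _ h.fin h.sep)

theorem exists_opt {p q : Set V → Prop} (hp : IsPt G p) (hq : IsPt G q) {A : Set V}
    (hA : (bd G A).Finite) (hs : ¬ (p A ↔ q A)) : ∃ B, Opt G p q B := by
  classical
  have hex : ∃ n, ∃ B, (bd G B).Finite ∧ ¬ (p B ↔ q B) ∧ (bd G B).ncard = n :=
    ⟨_, A, hA, hs, rfl⟩
  obtain ⟨B, hB, hsB, hn⟩ := Nat.find_spec hex
  exact ⟨B, hp, hq, hB, hsB, fun C hC hsC => hn ▸ Nat.find_min' hex ⟨C, hC, hsC, rfl⟩⟩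

/-! ### Connectedness -/

variable (G) in
/-- `A` is nonempty and connected, in the form: no nonempty proper part of `A` is closed. -/
def Conn (A : Set V) : Prop :=
  A.Nonempty ∧ ∀ B ⊆ A, B.Nonempty → (∀ u ∈ B, ∀ v ∈ A, G.Adj u v → v ∈ B) → A ⊆ B

theorem exists_bd_of_ne (hG : G.Connected) {A : Set V} (h1 : A.Nonempty) (h2 : Aᶜ.Nonempty) :
    (bd G A).Nonempty := by
  obtain ⟨a, ha⟩ := h1
  obtain ⟨b, hb⟩ := h2
  obtain ⟨w⟩ := hG.preconnected a b
  obtain ⟨d, -, hd1, hd2⟩ := w.exists_boundary_dart A ha hb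
  exact ⟨(d.fst, d.snd), d.adj, hd1, hd2⟩

theorem IsPt.not_empty {p : Set V → Prop} (hp : IsPt G p) : ¬ p ∅ := by
  have h0 : (bd G (∅ : Set V)).Finite := by
    have : bd G (∅ : Set V) = ∅ := by
      ext d; simp [mem_bd]
    rw [this]; exact finite_empty
  have h1 := hp.compl ∅ h0
  have h2 := hp.inter ∅ ∅ᶜ h0 (bd_compl_finite G h0)
  rw [empty_inter] at h2
  tauto

theorem Opt.nonempty {p q : Set V → Prop} {A : Set V} (h : Opt G p q A) : A.Nonempty := by
  rw [nonempty_iff_ne_empty]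
  rintro rfl
  exact h.sep (iff_of_false h.pt1.not_empty h.pt2.not_empty)

theorem IsPt.union {p : Set V → Prop} (hp : IsPt G p) {A B : Set V} (hA : (bd G A).Finite)
    (hB : (bd G B).Finite) : p (A ∪ B) ↔ p A ∨ p B := by
  have h1 := hp.compl (Aᶜ ∩ Bᶜ) (bd_inter_finite G (bd_compl_finite G hA) (bd_compl_finite G hB))
  have h2 := hp.inter Aᶜ Bᶜ (bd_compl_finite G hA) (bd_compl_finite G hB)
  have h3 := hp.compl A hA
  have h4 := hp.compl B hB
  rw [compl_inter, compl_compl, compl_compl] at h1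
  tauto

/-- An optimal separator is connected. -/
theorem Opt.conn (hG : G.Connected) {p q : Set V → Prop} {A : Set V} (h : Opt G p q A) :
    Conn G A := by
  refine ⟨h.nonempty, fun B hBA hB hcl => ?_⟩
  by_contra hne
  have hCne : (A \ B).Nonempty := by
    rw [sdiff_nonempty]; exact hne
  have hAc : Aᶜ.Nonempty := h.compl.nonempty
  -- boundaries of the two parts partition the boundary of A
  have hsub1 : bd G B ⊆ bd G A := by
    rintro ⟨u, v⟩ ⟨ha, hu, hv⟩
    exact ⟨ha, hBA hu, fun hvA => hv (hcl u hu v hvA ha)⟩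
  have hsub2 : bd G (A \ B) ⊆ bd G A := by
    rintro ⟨u, v⟩ ⟨ha, hu, hv⟩
    refine ⟨ha, hu.1, fun hvA => hv ⟨hvA, fun hvB => hu.2 (hcl v hvB u hu.1 ha.symm)⟩⟩
  have hfB : (bd G B).Finite := h.fin.subset hsub1
  have hfC : (bd G (A \ B)).Finite := h.fin.subset hsub2
  have hdisj : Disjoint (bd G B) (bd G (A \ B)) := by
    rw [Set.disjoint_left]
    rintro ⟨u, v⟩ h1 h2
    exact h2.2.1.2 h1.2.1
  have hBc : Bᶜ.Nonempty := hAc.mono (compl_subset_compl.2 hBA)
  have hCc : (A \ B)ᶜ.Nonempty := hAc.mono (compl_subset_compl.2 sdiff_subset)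
  have hn1 : 0 < (bd G B).ncard := (ncard_pos hfB).2 (exists_bd_of_ne hG hB hBc)
  have hn2 : 0 < (bd G (A \ B)).ncard := (ncard_pos hfC).2 (exists_bd_of_ne hG hCne hCc)
  have hsum : (bd G B).ncard + (bd G (A \ B)).ncard ≤ (bd G A).ncard := by
    rw [← ncard_union_eq hdisj hfB hfC]
    exact ncard_le_ncard (union_subset hsub1 hsub2) h.fin
  have hAeq : B ∪ (A \ B) = A := union_sdiff_cancel hBA
  have hpu := h.pt1.union hfB hfC
  have hqu := h.pt2.union hfB hfC
  rw [hAeq] at hpu hqu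
  have hs := h.sep
  by_cases hsB : (p B ↔ q B)
  · by_cases hsC : (p (A \ B) ↔ q (A \ B))
    · tauto
    · have := h.le _ hfC hsC
      omega
  · have := h.le _ hfB hsB
    omega

/-! ### Crossing -/

/-- `A` and `B` cross: all four corners are nonempty. -/
def Cross (A B : Set V) : Prop :=
  (A ∩ B).Nonempty ∧ (A ∩ Bᶜ).Nonempty ∧ (Aᶜ ∩ B).Nonempty ∧ (Aᶜ ∩ Bᶜ).Nonempty

theorem Cross.symm {A B : Set V} (h : Cross A B) : Cross B A := by
  obtain ⟨h1, h2, h3, h4⟩ := h
  refine ⟨?_, ?_, ?_, ?_⟩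
  · rwa [inter_comm]
  · rwa [inter_comm]
  · rwa [inter_comm]
  · rwa [inter_comm]

theorem cross_comm {A B : Set V} : Cross A B ↔ Cross B A := ⟨Cross.symm, Cross.symm⟩

theorem cross_compl_left {A B : Set V} : Cross Aᶜ B ↔ Cross A B := by
  unfold Cross; rw [compl_compl]; tauto

theorem cross_compl_right {A B : Set V} : Cross A Bᶜ ↔ Cross A B := by
  unfold Cross; rw [compl_compl]; tauto

theorem not_cross_self (A : Set V) : ¬ Cross A A := by
  rintro ⟨-, h, -, -⟩
  simp at h

theorem not_cross_of_subset {A B : Set V} (h : A ⊆ B) : ¬ Cross A B := by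
  rintro ⟨-, ⟨x, hx, hx'⟩, -, -⟩
  exact hx' (h hx)

theorem nested_iff {A B : Set V} :
    ¬ Cross A B ↔ (A ⊆ Bᶜ ∨ A ⊆ B ∨ Aᶜ ⊆ Bᶜ ∨ Aᶜ ⊆ B) := by
  unfold Cross
  rw [not_and_or, not_and_or, not_and_or]
  simp only [not_nonempty_iff_eq_empty, ← disjoint_iff_inter_eq_empty]
  simp only [subset_compl_iff_disjoint_right, disjoint_compl_right_iff_subset]

/-- Corner lemma. -/
theorem not_cross_corner {A B C : Set V} (hAB : (Aᶜ ∩ Bᶜ).Nonempty) (hA : ¬ Cross C A)
    (hB : ¬ Cross C B) : ¬ Cross C (A ∩ B) := by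
  rw [nested_iff] at hA hB ⊢
  obtain ⟨x, hxA, hxB⟩ := hAB
  rcases hA with hA | hA | hA | hA
  · left; exact hA.trans (compl_subset_compl.2 inter_subset_left)
  · rcases hB with hB | hB | hB | hB
    · left; exact hB.trans (compl_subset_compl.2 inter_subset_right)
    · right; left; exact subset_inter hA hB
    · right; right; left; exact hB.trans (compl_subset_compl.2 inter_subset_right)
    · exfalso
      by_cases hx : x ∈ C
      · exact hxA (hA hx)
      · exact hxB (hB hx)
  · right; right; left; exact hA.trans (compl_subset_compl.2 inter_subset_left)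
  · rcases hB with hB | hB | hB | hB
    · left; exact hB.trans (compl_subset_compl.2 inter_subset_right)
    · exfalso
      by_cases hx : x ∈ C
      · exact hxB (hB hx)
      · exact hxA (hA hx)
    · right; right; left; exact hB.trans (compl_subset_compl.2 inter_subset_right)
    · right; right; right; exact subset_inter hA hB

/-- If `C` crosses two opposite corners of `A`, `B` then it crosses `A`. -/
theorem cross_of_cross_corners {A X Y C : Set V} (hX : X ⊆ A) (hY : Y ⊆ Aᶜ)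
    (h1 : Cross C X) (h2 : Cross C Y) : Cross C A := by
  by_contra h
  rw [nested_iff] at h
  rcases h with h | h | h | h
  · exact not_cross_of_subset (h.trans (compl_subset_compl.2 hX)) (cross_compl_right.2 h1)
  · apply not_cross_of_subset (A := C) (B := Yᶜ) _ (cross_compl_right.2 h2)
    intro x hx hxY
    exact hY hxY (h hx)
  · exact not_cross_of_subset (h.trans (compl_subset_compl.2 hX))
      (cross_compl_right.2 (cross_compl_left.2 h1))
  · apply not_cross_of_subset (A := Cᶜ) (B := Yᶜ) _ (cross_compl_right.2 (cross_compl_left.2 h2))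
    intro x hx hxY
    exact hY hxY (h hx)

end Run7.h926
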