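import Pool.Agent.Run7.h926.Block2

set_option autoImplicit false

/-!
# Constructing ends and moving them between a graph and its blocks
-/

namespace Run7.h926

open Set Opposite

variable {V : Type*} {G : SimpleGraph V}

/-- Two vertices in the side of an end are joined by a walk avoiding the finite set. -/
theorem side_walk (ω : G.end) (K : Finset V) {x y : V} (hx : x ∈ side ω K) (hy : y ∈ side ω K) :
    ∃ p : G.Walk x y, ∀ z ∈ p.support, z ∉ K := by
  obtain ⟨hxK, hx'⟩ := hx
  obtain ⟨hyK, hy'⟩ := hy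
  have hr : (G.induce (K : Set V)ᶜ).Reachable ⟨x, hxK⟩ ⟨y, hyK⟩ := by
    rw [← SimpleGraph.ConnectedComponent.eq]
    exact hx'.trans hy'.symm
  obtain ⟨p⟩ := hr
  refine ⟨p.map (SimpleGraph.Embedding.induce _).toHom, ?_⟩
  intro z hz
  have hz' : z ∈ p.support.map (SimpleGraph.Embedding.induce (G := G) (K : Set V)ᶜ).toHom := by
    rw [← SimpleGraph.Walk.support_map]
    exact hz
  obtain ⟨w, -, rfl⟩ := List.mem_map.1 hz'
  intro h
  exact w.2 (by exact_mod_cast h)

/-- A walk avoiding the finite set stays in the side of the end. -/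
theorem side_of_walk (ω : G.end) (K : Finset V) {x y : V} (hx : x ∈ side ω K) (p : G.Walk x y)
    (hp : ∀ z ∈ p.support, z ∉ K) : y ∈ side ω K := by
  induction p with
  | nil => exact hx
  | @cons x z y h p ih =>
    refine ih ?_ fun w hw => hp w (by
      rw [SimpleGraph.Walk.support_cons, List.mem_cons]; exact Or.inr hw)
    refine SimpleGraph.ComponentCompl.mem_of_adj (G := G) (K := (K : Set V)) x z hx ?_ h
    intro hz
    have h1 : z ∈ (SimpleGraph.Walk.cons h p).support := by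
      rw [SimpleGraph.Walk.support_cons, List.mem_cons]
      exact Or.inr p.start_mem_support
    exact hp z h1 (by exact_mod_cast hz)

theorem side_disjoint {ω₁ ω₂ : G.end} {K : Finset V} (h : ω₁.val (op K) ≠ ω₂.val (op K)) :
    Disjoint (side ω₁ K) (side ω₂ K) :=
  SimpleGraph.ComponentCompl.pairwise_disjoint (G := G) (K := (K : Set V)) h

theorem val_eq_of_common {ω₁ ω₂ : G.end} {K : Finset V} {x : V} (h1 : x ∈ side ω₁ K)
    (h2 : x ∈ side ω₂ K) : ω₁.val (op K) = ω₂.val (op K) := by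
  by_contra h
  exact Set.disjoint_left.1 (side_disjoint h) h1 h2

theorem side_eq_of_val {ω₁ ω₂ : G.end} {K : Finset V} (h : ω₁.val (op K) = ω₂.val (op K)) :
    side ω₁ K = side ω₂ K := by
  unfold side
  rw [h]

/-- Constructing an end from a coherent choice of connected pieces. -/
theorem exists_end (N : Finset V → Set V) (hne : ∀ K, (N K).Nonempty)
    (hmono : ∀ K L, K ⊆ L → N L ⊆ N K)
    (hconn : ∀ K, ∀ x ∈ N K, ∀ y ∈ N K, ∃ p : G.Walk x y, ∀ z ∈ p.support, z ∉ K) :
    ∃ ω : G.end, ∀ K, N K ⊆ side ω K := by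
  classical
  choose a ha using hne
  have hdisj : ∀ K, ∀ x ∈ N K, x ∉ (K : Set V) := by
    intro K x hx
    obtain ⟨p, hp⟩ := hconn K x hx x hx
    intro h
    exact hp x p.start_mem_support (by exact_mod_cast h)
  have hmk : ∀ K, ∀ x (hx : x ∈ N K), G.componentComplMk (hdisj K x hx) =
      G.componentComplMk (hdisj K (a K) (ha K)) := by
    intro K x hx
    obtain ⟨p, hp⟩ := hconn K x hx (a K) (ha K)
    rw [SimpleGraph.ConnectedComponent.eq]
    exact ⟨p.induce (K : Set V)ᶜ fun z hz h => hp z hz (by exact_mod_cast h)⟩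
  refine ⟨⟨fun K => G.componentComplMk (hdisj K.unop (a K.unop) (ha K.unop)), ?_⟩, ?_⟩
  · intro L K f
    have hKL : K.unop ⊆ L.unop := by
      intro x hx
      exact CategoryTheory.le_of_op_hom f hx
    show SimpleGraph.ComponentCompl.hom
      (show ((K.unop : Finset V) : Set V) ⊆ ((L.unop : Finset V) : Set V) by exact_mod_cast hKL)
      (G.componentComplMk _) = _
    have h1 : a L.unop ∈ N K.unop := hmono _ _ hKL (ha L.unop)
    exact hmk K.unop _ h1
  · intro K x hx
    exact ⟨hdisj K x hx, hmk K x hx⟩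

/-- Translating an end. -/
theorem exists_map_end (ω : G.end) (g : G ≃g G) :
    ∃ ω' : G.end, ∀ K : Finset V, ∀ L : Finset V, (∀ x, x ∈ L ↔ g x ∈ K) →
      ∀ x ∈ side ω L, g x ∈ side ω' K := by
  classical
  let pre : Finset V → Finset V := fun K => K.image g.symm
  have hpre : ∀ K x, x ∈ pre K ↔ g x ∈ K := by
    intro K x
    simp only [pre, Finset.mem_image]
    constructor
    · rintro ⟨y, hy, rfl⟩
      simpa using hy
    · intro h
      exact ⟨g x, h, by simp⟩
  have h1 : ∀ K : Finset V, (g '' side ω (pre K)).Nonempty := by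
    intro K
    obtain ⟨x, hx⟩ := side_nonempty ω (pre K)
    exact ⟨g x, x, hx, rfl⟩
  have h2 : ∀ K L : Finset V, K ⊆ L → g '' side ω (pre L) ⊆ g '' side ω (pre K) := by
    rintro K L hKL _ ⟨x, hx, rfl⟩
    refine ⟨x, side_anti ω ?_ hx, rfl⟩
    intro y hy
    rw [hpre] at hy ⊢
    exact hKL hy
  have h3 : ∀ K : Finset V, ∀ x ∈ g '' side ω (pre K), ∀ y ∈ g '' side ω (pre K),
      ∃ p : G.Walk x y, ∀ z ∈ p.support, z ∉ K := by
    rintro K _ ⟨x, hx, rfl⟩ _ ⟨y, hy, rfl⟩
    obtain ⟨p, hp⟩ := side_walk ω (pre K) hx hy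
    refine ⟨p.map g.toHom, ?_⟩
    intro z hz
    rw [SimpleGraph.Walk.support_map] at hz
    obtain ⟨w, hw, rfl⟩ := List.mem_map.1 hz
    have := hp w hw
    rw [hpre] at this
    exact this
  obtain ⟨ω', hω'⟩ := exists_end (G := G) (fun K => g '' side ω (pre K)) h1 h2 h3
  refine ⟨ω', fun K L hL x hx => hω' K ⟨x, ?_, rfl⟩⟩
  have : L = pre K := by
    ext y
    rw [hL, hpre]
  rwa [← this]

/-! ### Orientations from ends -/

/-- The orientation of the family given by an end. -/
def ori (F : Set (Set V)) (ω : G.end) : Set (Set V) := {A | A ∈ F ∧ endPt ω A}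

theorem endPt_inter (ω : G.end) {A B : Set V} (hA : endPt ω A) (hB : endPt ω B) :
    endPt ω (A ∩ B) := by
  classical
  obtain ⟨K, hK⟩ := hA
  obtain ⟨L, hL⟩ := hB
  exact ⟨K ∪ L, subset_inter ((side_anti ω Finset.subset_union_left).trans hK)
    ((side_anti ω Finset.subset_union_right).trans hL)⟩

theorem endPt_meets (ω : G.end) {A : Set V} (hA : endPt ω A) (L : Finset V) :
    (A ∩ side ω L).Nonempty := by
  classical
  obtain ⟨K, hK⟩ := hA
  obtain ⟨x, hx⟩ := side_nonempty ω (K ∪ L)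
  exact ⟨x, hK (side_anti ω Finset.subset_union_left hx), side_anti ω Finset.subset_union_right hx⟩

/-- A connected set avoiding `K` and meeting a side lies in the side. -/
theorem conn_subset_side (ω : G.end) {K : Finset V} {A : Set V} (hA : Conn G A)
    (hK : ∀ x ∈ A, x ∉ K) (hm : (A ∩ side ω K).Nonempty) : A ⊆ side ω K := by
  refine (hA.2 (A ∩ side ω K) inter_subset_left hm ?_).trans inter_subset_right
  rintro u ⟨hu, huS⟩ v hv huv
  refine ⟨hv, SimpleGraph.ComponentCompl.mem_of_adj (G := G) (K := (K : Set V)) u v huS ?_ huv⟩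
  intro h
  exact hK v hv (by exact_mod_cast h)

/-- The orientation given by an end which is not separated from another end. -/
theorem ori_of_end (hG : G.Connected) {F : Set (Set V)} (hF : NFam G F) {ω ω' : G.end}
    (hne : ω ≠ ω') (heq : ori F ω = ori F ω') : Ori F (ori F ω) := by
  refine ⟨fun A hA => hA.1, fun A hA => ?_, ?_, fun z => ?_⟩
  · by_cases h : endPt ω A
    · exact Or.inl ⟨hA, h⟩
    · exact Or.inr ⟨hF.compl A hA, (endPt_compl_iff ω (hF.fin A hA)).2 h⟩
  · rintro A ⟨-, hA⟩ B ⟨-, hB⟩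
    obtain ⟨x, hx, -⟩ := endPt_meets ω (endPt_inter ω hA hB) ∅
    exact ⟨x, hx⟩
  · -- a finite set separating the ends
    obtain ⟨K, hK⟩ : ∃ K : Finset V, ω.val (op K) ≠ ω'.val (op K) := by
      by_contra hno
      push Not at hno
      exact hne (Subtype.ext (funext fun K => hno K.unop))
    obtain ⟨w⟩ : Nonempty (∀ a b, G.Walk a b) := ⟨fun a b => (hG.preconnected a b).some⟩
    have hsub : {A | A ∈ ori F ω ∧ z ∉ A} ⊆ ⋃ c ∈ (K : Set V), ⋃ d ∈ {d | d ∈ (w c z).darts},
        {A | A ∈ F ∧ (d.fst, d.snd) ∈ bd G A} := by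
      rintro A ⟨⟨hA, hAω⟩, hz⟩
      have hAω' : endPt ω' A := by
        have : A ∈ ori F ω := ⟨hA, hAω⟩
        rw [heq] at this
        exact this.2
      have hex : ∃ c ∈ A, c ∈ K := by
        by_contra hno
        push Not at hno
        have h1 := conn_subset_side ω (hF.conn A hA) hno (endPt_meets ω hAω K)
        obtain ⟨x, hx, hx'⟩ := endPt_meets ω' hAω' K
        exact Set.disjoint_left.1 (side_disjoint hK) (h1 hx) hx'
      obtain ⟨c, hcA, hcK⟩ := hex
      obtain ⟨d, hd1, hd2, hd3⟩ := (w c z).exists_boundary_dart A hcA hz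
      simp only [mem_iUnion]
      exact ⟨c, by exact_mod_cast hcK, d, hd1, hA, d.adj, hd2, hd3⟩
    refine Finite.subset ?_ hsub
    exact K.finite_toSet.biUnion fun c _ => Finite.biUnion (List.finite_toSet _) fun d _ =>
      hF.dart _

theorem cutVerts_nonempty (hG : G.Connected) {F : Set (Set V)} (hF : NFam G F) {A : Set V}
    (hA : A ∈ F) : ∃ d ∈ bd G A, d.1 ∈ cutVerts G A ∧ d.2 ∈ cutVerts G A := by
  obtain ⟨d, hd⟩ := exists_bd_of_ne hG (hF.conn A hA).1 (hF.conn _ (hF.compl A hA)).1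
  exact ⟨d, hd, mem_cutVerts_iff.2 ⟨d, hd, Or.inl rfl⟩, mem_cutVerts_iff.2 ⟨d, hd, Or.inr rfl⟩⟩

/-- A vertex outside the block is cut off from the end by a cut all of whose vertices lie in the
block. -/
theorem exists_cut_of_not_blk {F o : Set (Set V)} (hF : NFam G F) (ho : Ori F o) {z : V}
    (hz : z ∉ blk G o) : ∃ A ∈ o, z ∉ hull G A ∧ cutVerts G A ⊆ blk G o := by
  have hfin : {A | A ∈ o ∧ z ∉ hull G A}.Finite :=
    (ho.fin z).subset fun A hA => ⟨hA.1, fun h => hA.2 (subset_hull A h)⟩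
  have hne : {A | A ∈ o ∧ z ∉ hull G A}.Nonempty := by
    by_contra h
    apply hz
    intro A hA
    by_contra h'
    exact h ⟨A, hA, h'⟩
  obtain ⟨A, hA⟩ := hfin.exists_minimal hne
  obtain ⟨hAo, hzA⟩ := hA.prop
  refine ⟨A, hAo, hzA, fun v hv B hB => ?_⟩
  have hn := hF.nested A (ho.sub hAo) B (ho.sub hB)
  rw [nested_iff] at hn
  rcases hn with hn | hn | hn | hn
  · exfalso
    obtain ⟨x, hxA, hxB⟩ := ho.cons A hAo B hB
    exact hn hxA hxB
  · exact hull_mono hn (cutVerts_subset_hull A hv)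
  · have h1 : B ⊆ A := compl_subset_compl.1 hn
    have h2 : A ⊆ B := hA.le_of_le ⟨hB, fun h => hzA (hull_mono h1 h)⟩ h1
    exact hull_mono h2 (cutVerts_subset_hull A hv)
  · rw [← cutVerts_compl] at hv
    exact hull_mono hn (cutVerts_subset_hull _ hv)

/-- The end is adherent to its block. -/
theorem blk_adherent (hG : G.Connected) {F : Set (Set V)} (hF : NFam G F) {ω : G.end}
    (ho : Ori F (ori F ω)) (L : Finset V) : (blk G (ori F ω) ∩ side ω L).Nonempty := by
  classical
  by_contra hno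
  rw [not_nonempty_iff_eq_empty] at hno
  set Q : Set (Set V) := ⋃ l ∈ (L : Set V), {A | A ∈ ori F ω ∧ l ∉ A} with hQ
  have hQf : Q.Finite := L.finite_toSet.biUnion fun l _ => ho.fin l
  have hcov : ∀ z ∈ side ω L, ∃ A ∈ Q, z ∉ A := by
    intro z hz
    have hzb : z ∉ blk G (ori F ω) := fun h => by
      have : z ∈ blk G (ori F ω) ∩ side ω L := ⟨h, hz⟩
      rw [hno] at this
      exact this
    obtain ⟨A, hA, hzA, hcut⟩ := exists_cut_of_not_blk hF ho hzb
    have hzA' : z ∉ A := fun h => hzA (subset_hull A h)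
    refine ⟨A, ?_, hzA'⟩
    rw [hQ]
    simp only [mem_iUnion]
    by_contra hnone
    have hdisj : ∀ x ∈ Aᶜ, x ∉ L := by
      intro x hx hxL
      exact hnone ⟨x, by exact_mod_cast hxL, hA, hx⟩
    have h1 := conn_subset_side ω (hF.conn _ (hF.compl A hA.1)) hdisj ⟨z, hzA', hz⟩
    obtain ⟨d, hd, -, hd2⟩ := cutVerts_nonempty hG hF hA.1
    have : d.2 ∈ blk G (ori F ω) ∩ side ω L := ⟨hcut hd2, h1 hd.2.2⟩
    rw [hno] at this
    exact this
  have hall : ∀ T : Set (Set V), T.Finite → T ⊆ Q → endPt ω {x | ∀ A ∈ T, x ∈ A} := by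
    intro T hT
    induction T, hT using Set.Finite.induction_on with
    | empty =>
      intro _
      exact ⟨∅, fun x _ A hA => hA.elim⟩
    | @insert A T _ _ ih =>
      intro hsub
      have h1 := ih ((subset_insert A T).trans hsub)
      have hAQ : A ∈ Q := hsub (mem_insert A T)
      have h2 : endPt ω A := by
        rw [hQ] at hAQ
        simp only [mem_iUnion] at hAQ
        obtain ⟨l, -, hA, -⟩ := hAQ
        exact hA.2
      obtain ⟨K, hK⟩ := endPt_inter ω h2 h1
      refine ⟨K, hK.trans ?_⟩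
      rintro x ⟨hxA, hxT⟩ B hB
      rcases mem_insert_iff.1 hB with rfl | hB
      · exact hxA
      · exact hxT B hB
  obtain ⟨x, hx, hxL⟩ := endPt_meets ω (hall Q hQf subset_rfl) L
  obtain ⟨A, hA, hxA⟩ := hcov x hxL
  exact hxA (hx A hA)

/-! ### Ends of the block graph -/

theorem exists_end_down {F o : Set (Set V)} (hF : NFam G F) (ho : Ori F o) {r : ℕ}
    (hr : Scale G F r) (ω : G.end) (hω : ∀ L : Finset V, (blk G o ∩ side ω L).Nonempty) :
    ∃ η : (bg G r o).end, ∀ K : Finset (blk G o), ∀ L : Finset V,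
      (∀ x, x ∈ L ↔ ∃ h : x ∈ blk G o, (⟨x, h⟩ : blk G o) ∈ K) →
      ∀ x : blk G o, x.1 ∈ side ω L → x ∈ side η K := by
  classical
  let N : Finset (blk G o) → Set (blk G o) := fun K => {x | x.1 ∈ side ω (K.image Subtype.val)}
  have h1 : ∀ K, (N K).Nonempty := by
    intro K
    obtain ⟨x, hx, hx'⟩ := hω (K.image Subtype.val)
    exact ⟨⟨x, hx⟩, hx'⟩
  have h2 : ∀ K L, K ⊆ L → N L ⊆ N K := by
    intro K L hKL x hx
    exact side_anti ω (Finset.image_subset_image hKL) hx
  have h3 : ∀ K, ∀ x ∈ N K, ∀ y ∈ N K, ∃ p : (bg G r o).Walk x y, ∀ z ∈ p.support, z ∉ K := by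
    intro K x hx y hy
    obtain ⟨p, hp⟩ := side_walk ω _ hx hy
    obtain ⟨p', -, hp'⟩ := blk_short hF ho hr p x.2 y.2
    refine ⟨p', fun z hz hzK => hp z.1 (hp' z hz) ?_⟩
    exact Finset.mem_image.2 ⟨z, hzK, rfl⟩
  obtain ⟨η, hη⟩ := exists_end (G := bg G r o) N h1 h2 h3
  refine ⟨η, fun K L hL x hx => hη K ?_⟩
  have : L = K.image Subtype.val := by
    ext y
    rw [hL, Finset.mem_image]
    constructor
    · rintro ⟨h, hK⟩
      exact ⟨⟨y, h⟩, hK, rfl⟩
    · rintro ⟨z, hz, rfl⟩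
      exact ⟨z.2, hz⟩
  show x.1 ∈ side ω (K.image Subtype.val)
  rwa [← this]

/-- A walk in the block graph avoiding the vertices near `L` gives a walk avoiding `L`. -/
theorem lift_walk (hG : G.Connected) {r : ℕ} {s : Set V} (L : Finset V) {x y : s}
    (p : ((rg G r).induce s).Walk x y) (hp : ∀ z ∈ p.support, ∀ l ∈ L, r < G.dist z.1 l) :
    ∃ p' : G.Walk x.1 y.1, ∀ z ∈ p'.support, z ∉ L := by
  classical
  induction p with
  | @nil x =>
    refine ⟨SimpleGraph.Walk.nil, fun z hz hzL => ?_⟩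
    rw [SimpleGraph.Walk.support_nil, List.mem_singleton] at hz
    subst hz
    have h1 := hp x (by simp) x.1 hzL
    simp at h1
  | @cons x z y h p ih =>
    obtain ⟨q, hq⟩ := ih fun w hw => hp w (by
      rw [SimpleGraph.Walk.support_cons, List.mem_cons]; exact Or.inr hw)
    obtain ⟨e, he⟩ := hG.exists_walk_length_eq_dist x.1 z.1
    refine ⟨e.append q, fun w hw hwL => ?_⟩
    rw [SimpleGraph.Walk.mem_support_append_iff] at hw
    rcases hw with hw | hw
    · have h1 := hp x (by simp) w hwL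
      have h2 : G.dist x.1 w ≤ r := by
        refine (SimpleGraph.dist_le (e.takeUntil w hw)).trans ?_
        refine (e.length_takeUntil_le_length hw).trans ?_
        rw [he]
        exact h.2
      omega
    · exact hq w hw hwL

theorem exists_end_up (hG : G.Connected) (hf : ∀ v, (G.neighborSet v).Finite)
    {o : Set (Set V)} {r : ℕ} (η : (bg G r o).end) :
    ∃ ω : G.end, ∀ L : Finset V, ∀ K : Finset (blk G o),
      (∀ x : blk G o, x ∈ K ↔ ∃ l ∈ L, G.dist x.1 l ≤ r) →
      ∀ x ∈ side η K, x.1 ∈ side ω L := by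
  classical
  have hfin : ∀ L : Finset V, {x : blk G o | ∃ l ∈ L, G.dist x.1 l ≤ r}.Finite := by
    intro L
    have h1 : Subtype.val '' {x : blk G o | ∃ l ∈ L, G.dist x.1 l ≤ r} ⊆
        ⋃ l ∈ (L : Set V), {y | G.dist l y ≤ r} := by
      rintro _ ⟨x, ⟨l, hl, h⟩, rfl⟩
      simp only [mem_iUnion]
      exact ⟨l, by exact_mod_cast hl, by rwa [mem_ofPred_eq, SimpleGraph.dist_comm]⟩
    exact Finite.of_finite_image ((L.finite_toSet.biUnion fun l _ =>
      ball_finite hG hf r l).subset h1) Subtype.val_injective.injOn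
  let near : Finset V → Finset (blk G o) := fun L => (hfin L).toFinset
  have hnear : ∀ L x, x ∈ near L ↔ ∃ l ∈ L, G.dist x.1 l ≤ r := by
    intro L x
    simp [near]
  let N : Finset V → Set V := fun L => Subtype.val '' side η (near L)
  have h1 : ∀ L, (N L).Nonempty := by
    intro L
    obtain ⟨x, hx⟩ := side_nonempty η (near L)
    exact ⟨x.1, x, hx, rfl⟩
  have h2 : ∀ K L, K ⊆ L → N L ⊆ N K := by
    rintro K L hKL _ ⟨x, hx, rfl⟩
    refine ⟨x, side_anti η ?_ hx, rfl⟩
    intro y hy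
    rw [hnear] at hy ⊢
    obtain ⟨l, hl, h⟩ := hy
    exact ⟨l, hKL hl, h⟩
  have h3 : ∀ L, ∀ x ∈ N L, ∀ y ∈ N L, ∃ p : G.Walk x y, ∀ z ∈ p.support, z ∉ L := by
    rintro L _ ⟨x, hx, rfl⟩ _ ⟨y, hy, rfl⟩
    obtain ⟨p, hp⟩ := side_walk η (near L) hx hy
    refine lift_walk hG L p fun z hz l hl => ?_
    by_contra h
    push Not at h
    exact hp z hz ((hnear L z).2 ⟨l, hl, h⟩)
  obtain ⟨ω, hω⟩ := exists_end (G := G) N h1 h2 h3
  refine ⟨ω, fun L K hK x hx => hω L ⟨x, ?_, rfl⟩⟩
  have : K = near L := by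
    ext y
    rw [hK, hnear]
  rwa [← this]

end Run7.h926
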