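import Pool.Agent.Run7.h926.Cluster

set_option autoImplicit false

/-!
# Ends as points, and the main theorem on accessibility at every scale
-/

namespace Run7.h926

open Set Opposite

variable {V : Type*} {G : SimpleGraph V}

/-- The component of the complement of `K` in which the end `ω` lives. -/
def side (ω : G.end) (K : Finset V) : Set V :=
  SimpleGraph.ComponentCompl.supp (G := G) (K := (K : Set V)) (ω.val (op K))

theorem side_nonempty (ω : G.end) (K : Finset V) : (side ω K).Nonempty :=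
  SimpleGraph.ComponentCompl.nonempty (G := G) (K := (K : Set V)) (ω.val (op K))

theorem side_anti (ω : G.end) {K L : Finset V} (h : K ⊆ L) : side ω L ⊆ side ω K := by
  have h2 := ω.2 (CategoryTheory.opHomOfLE (show K ≤ L from h))
  have h3 : (ω.val (op K) : G.ComponentCompl (K : Set V)) =
      SimpleGraph.ComponentCompl.hom (show (K : Set V) ⊆ (L : Set V) from h)
        (ω.val (op L) : G.ComponentCompl (L : Set V)) := h2.symm
  unfold side
  rw [h3]
  exact SimpleGraph.ComponentCompl.subset_hom _ _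

theorem side_notMem (ω : G.end) (K : Finset V) {v : V} (hv : v ∈ side ω K) : v ∉ K := by
  obtain ⟨h, -⟩ := hv
  exact fun h' => h (by exact_mod_cast h')

/-- A side of `K` avoids crossing any cut whose boundary is covered by `K`. -/
theorem side_dichotomy (ω : G.end) (K : Finset V) {A : Set V}
    (hK : ∀ d ∈ bd G A, d.1 ∈ K ∨ d.2 ∈ K) : side ω K ⊆ A ∨ side ω K ⊆ Aᶜ := by
  obtain ⟨v, hv⟩ := side_nonempty ω K
  have key : ∀ (B : Set V), (∀ d ∈ bd G B, d.1 ∈ K ∨ d.2 ∈ K) → v ∈ B → side ω K ⊆ B := by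
    intro B hB hvB w hw
    obtain ⟨hvK, hv'⟩ := hv
    obtain ⟨hwK, hw'⟩ := hw
    have hr : (G.induce (K : Set V)ᶜ).Reachable ⟨v, hvK⟩ ⟨w, hwK⟩ := by
      rw [← SimpleGraph.ConnectedComponent.eq]
      exact hv'.trans hw'.symm
    obtain ⟨p⟩ := hr
    by_contra hwB
    obtain ⟨d, -, hd1, hd2⟩ := p.exists_boundary_dart {x | (x : V) ∈ B} hvB hwB
    rcases hB (d.fst.1, d.snd.1) ⟨d.adj, hd1, hd2⟩ with h | h
    · exact d.fst.2 (by exact_mod_cast h)
    · exact d.snd.2 (by exact_mod_cast h)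
  by_cases hvA : v ∈ A
  · exact Or.inl (key A hK hvA)
  · refine Or.inr (key Aᶜ ?_ hvA)
    rw [bd_compl]
    rintro _ ⟨d, hd, rfl⟩
    exact (hK d hd).symm

/-- The point of an end. -/
def endPt (ω : G.end) (A : Set V) : Prop := ∃ K : Finset V, side ω K ⊆ A

theorem endPt_not_both (ω : G.end) {A : Set V} (h : endPt ω A) (h' : endPt ω Aᶜ) : False := by
  classical
  obtain ⟨K, hK⟩ := h
  obtain ⟨L, hL⟩ := h'
  obtain ⟨v, hv⟩ := side_nonempty ω (K ∪ L)
  exact hL (side_anti ω Finset.subset_union_right hv) (hK (side_anti ω Finset.subset_union_left hv))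

theorem exists_cover {A : Set V} (hA : (bd G A).Finite) :
    ∃ K : Finset V, ∀ d ∈ bd G A, d.1 ∈ K ∨ d.2 ∈ K := by
  classical
  refine ⟨hA.toFinset.image Prod.fst, fun d hd => Or.inl ?_⟩
  rw [Finset.mem_image]
  exact ⟨d, by simpa using hd, rfl⟩

theorem endPt_isPt (ω : G.end) : IsPt G (endPt ω) := by
  classical
  refine ⟨fun A B _ _ => ⟨?_, ?_⟩, fun A hA => ⟨fun h h' => endPt_not_both ω h' h, fun h => ?_⟩⟩
  · rintro ⟨K, hK⟩
    exact ⟨⟨K, hK.trans inter_subset_left⟩, ⟨K, hK.trans inter_subset_right⟩⟩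
  · rintro ⟨⟨K, hK⟩, ⟨L, hL⟩⟩
    exact ⟨K ∪ L, subset_inter ((side_anti ω Finset.subset_union_left).trans hK)
      ((side_anti ω Finset.subset_union_right).trans hL)⟩
  · obtain ⟨K, hK⟩ := exists_cover hA
    rcases side_dichotomy ω K hK with h1 | h1
    · exact absurd ⟨K, h1⟩ h
    · exact ⟨K, h1⟩

/-- Distinct ends are distinguished by a finite cut. -/
theorem exists_sep_end (hf : ∀ v, (G.neighborSet v).Finite) {ω₁ ω₂ : G.end} (h : ω₁ ≠ ω₂) :
    ∃ A, (bd G A).Finite ∧ ¬ (endPt ω₁ A ↔ endPt ω₂ A) := by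
  classical
  obtain ⟨K, hK⟩ : ∃ K : Finset V, ω₁.val (op K) ≠ ω₂.val (op K) := by
    by_contra hno
    push Not at hno
    exact h (Subtype.ext (funext fun K => hno K.unop))
  refine ⟨side ω₁ K, ?_, ?_⟩
  · have : bd G (side ω₁ K) ⊆ ⋃ y ∈ (K : Set V), (G.neighborSet y) ×ˢ {y} := by
      rintro ⟨u, v⟩ ⟨ha, hu, hv⟩
      have hvK : v ∈ (K : Set V) := by
        by_contra hvK
        exact hv (SimpleGraph.ComponentCompl.mem_of_adj (G := G) (K := (K : Set V)) u v hu hvK ha)
      simp only [mem_iUnion]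
      exact ⟨v, hvK, ha.symm, rfl⟩
    refine Finite.subset ?_ this
    exact K.finite_toSet.biUnion fun y _ => (hf y).prod (finite_singleton y)
  · intro hiff
    obtain ⟨L, hL⟩ := hiff.1 ⟨K, subset_rfl⟩
    obtain ⟨v, hv⟩ := side_nonempty ω₂ (K ∪ L)
    have h1 : v ∈ side ω₁ K := hL (side_anti ω₂ Finset.subset_union_right hv)
    have h2 : v ∈ side ω₂ K := side_anti ω₂ Finset.subset_union_left hv
    have := SimpleGraph.ComponentCompl.pairwise_disjoint (G := G) (K := (K : Set V)) hK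
    exact Set.disjoint_left.1 this h1 h2

/-- The vertices incident with the boundary of `A`. -/
def cutVerts (G : SimpleGraph V) (A : Set V) : Set V := {v | ∃ w, G.Adj v w ∧ (v ∈ A ↔ w ∉ A)}

theorem mem_cutVerts_iff {A : Set V} {v : V} :
    v ∈ cutVerts G A ↔ ∃ d ∈ bd G A, v = d.1 ∨ v = d.2 := by
  constructor
  · rintro ⟨w, ha, hw⟩
    by_cases hv : v ∈ A
    · exact ⟨(v, w), ⟨ha, hv, hw.1 hv⟩, Or.inl rfl⟩
    · refine ⟨(w, v), ⟨ha.symm, ?_, hv⟩, Or.inr rfl⟩
      by_contra hwA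
      exact hv (hw.2 hwA)
  · rintro ⟨d, ⟨ha, h1, h2⟩, rfl | rfl⟩
    · exact ⟨d.2, ha, iff_of_true h1 h2⟩
    · exact ⟨d.1, ha.symm, iff_of_false h2 (fun h => h h1)⟩

theorem cutVerts_finite {A : Set V} (hA : (bd G A).Finite) : (cutVerts G A).Finite := by
  refine ((hA.image Prod.fst).union (hA.image Prod.snd)).subset ?_
  intro v hv
  obtain ⟨d, hd, h | h⟩ := mem_cutVerts_iff.1 hv
  · exact Or.inl ⟨d, hd, h.symm⟩
  · exact Or.inr ⟨d, hd, h.symm⟩

/-- Steps of length at most `m` inside `T`. -/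
def Step (G : SimpleGraph V) (m : ℕ) (T : Set V) (a b : V) : Prop :=
  a ∈ T ∧ b ∈ T ∧ G.dist a b ≤ m

/-- `T` is connected by steps of length at most `m`. -/
def MConn (G : SimpleGraph V) (m : ℕ) (T : Set V) : Prop :=
  ∀ a ∈ T, ∀ b ∈ T, Relation.ReflTransGen (Step G m T) a b

theorem conn_induce_of_conn {A : Set V} (h : Conn G A) : (G.induce A).Connected := by
  obtain ⟨⟨a, ha⟩, hcl⟩ := h
  rw [SimpleGraph.connected_iff]
  refine ⟨?_, ⟨⟨a, ha⟩⟩⟩
  have key : ∀ x : A, (G.induce A).Reachable ⟨a, ha⟩ x := by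
    intro x
    set B : Set V := {y | ∃ hy : y ∈ A, (G.induce A).Reachable ⟨a, ha⟩ ⟨y, hy⟩} with hB
    have h1 : A ⊆ B := by
      refine hcl B (fun y hy => hy.1) ⟨a, ha, SimpleGraph.Reachable.refl _⟩ ?_
      rintro u ⟨hu, hur⟩ v hv huv
      refine ⟨hv, hur.trans (SimpleGraph.Adj.reachable ?_)⟩
      exact huv
    obtain ⟨hx, hxr⟩ := h1 x.2
    exact hxr
  exact fun x y => (key x).symm.trans (key y)

theorem dist_map_le (g : G ≃g G) (hG : G.Connected) (x y : V) : G.dist (g x) (g y) ≤ G.dist x y := by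
  obtain ⟨p, hp⟩ := hG.exists_walk_length_eq_dist x y
  have := SimpleGraph.dist_le (p.map g.toHom)
  rw [SimpleGraph.Walk.length_map, hp] at this
  exact this

theorem dist_map (g : G ≃g G) (hG : G.Connected) (x y : V) : G.dist (g x) (g y) = G.dist x y := by
  refine le_antisymm (dist_map_le g hG x y) ?_
  have := dist_map_le g.symm hG (g x) (g y)
  simpa using this

theorem ball_finite (hG : G.Connected) (hf : ∀ v, (G.neighborSet v).Finite) (m : ℕ) (x : V) :
    {y | G.dist x y ≤ m}.Finite := by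
  induction m with
  | zero =>
    refine (finite_singleton x).subset fun y hy => ?_
    have h0 : G.dist x y = 0 := Nat.le_zero.1 hy
    exact ((hG.dist_eq_zero_iff).1 h0).symm
  | succ m ih =>
    have : {y | G.dist x y ≤ m + 1} ⊆ {y | G.dist x y ≤ m} ∪
        ⋃ z ∈ {y | G.dist x y ≤ m}, G.neighborSet z := by
      intro y hy
      by_cases h : G.dist x y ≤ m
      · exact Or.inl h
      · right
        have hd : G.dist x y = m + 1 := le_antisymm hy (by omega)
        obtain ⟨p, hp⟩ := hG.exists_walk_length_eq_dist x y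
        rw [hd] at hp
        obtain ⟨z, q, hzy, hqp⟩ : ∃ z, ∃ q : G.Walk x z, G.Adj z y ∧ q.length = m := by
          have hnn : ¬ p.Nil := by
            intro hn
            have := SimpleGraph.Walk.length_eq_zero_iff.2 hn
            omega
          refine ⟨p.penultimate, p.dropLast, p.adj_penultimate hnn, ?_⟩
          have := SimpleGraph.Walk.length_dropLast_add_one hnn
          omega
        simp only [mem_iUnion]
        exact ⟨z, (SimpleGraph.dist_le q).trans hqp.le, hzy⟩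
    exact (ih.union (ih.biUnion fun z _ => hf z)).subset this

/-- The canonical family. -/
def FamAll (G : SimpleGraph V) : Set (Set V) := ⋃ k, Fam G k

theorem famAll_bounded (hG : G.Connected) (hf : ∀ v, (G.neighborSet v).Finite)
    (hS : ∃ S : Finset V, ∀ v : V, ∃ s ∈ S, ∃ φ : G ≃g G, φ s = v) (m : ℕ) :
    ∃ b : ℕ, ∀ A ∈ FamAll G, ∀ T : Finset V, (T : Set V) ⊆ cutVerts G A →
      MConn G m (T : Set V) → T.card ≤ b := by
  classical
  obtain ⟨S, hS⟩ := hS
  set N : V → Set V := fun x => {y | G.dist x y ≤ m + 1} with hN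
  have hN1 : ∀ u v, G.Adj u v → ∃ x, InN N x (u, v) := by
    intro u v huv
    refine ⟨u, ?_, ?_⟩
    · simp [hN]
    · have : G.dist u v = 1 := SimpleGraph.dist_eq_one_iff_adj.2 huv
      simp only [hN, mem_ofPred_eq, this]
      omega
  have hNi : ∀ (g : G ≃g G) (x y : V), g y ∈ N (g x) ↔ y ∈ N x := by
    intro g x y
    simp only [hN, mem_ofPred_eq, dist_map g hG]
  obtain ⟨b, hb⟩ := sizes_bounded hG hN1 hNi (fun x => ball_finite hG hf (m + 1) x) S hS
  refine ⟨2 * b, fun A hA T hTA hT => ?_⟩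
  obtain ⟨k, hAk⟩ := mem_iUnion.1 hA
  rcases T.eq_empty_or_nonempty with rfl | ⟨t₀, ht₀⟩
  · simp
  have hAfin : (bd G A).Finite := by
    obtain ⟨j, -, -, p, q, h⟩ := (fam_good hG k).opt A hAk
    exact h.fin
  -- choose a dart at each vertex of T
  have hch : ∀ t ∈ T, ∃ d ∈ bd G A, t = d.1 ∨ t = d.2 := fun t ht =>
    mem_cutVerts_iff.1 (hTA ht)
  choose! δ hδ hδ' using hch
  -- all chosen darts in one cluster
  have hdist1 : ∀ t ∈ T, ∀ x, G.dist x t ≤ m → InN N x (δ t) := by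
    intro t ht x hx
    have hadj := (hδ t ht).1
    have h1 : G.dist (δ t).1 (δ t).2 = 1 := SimpleGraph.dist_eq_one_iff_adj.2 hadj
    have h2 := hG.dist_triangle (u := x) (v := (δ t).1) (w := (δ t).2)
    have h3 := hG.dist_triangle (u := x) (v := (δ t).2) (w := (δ t).1)
    rw [SimpleGraph.dist_comm (u := (δ t).2)] at h3
    simp only [InN, hN, mem_ofPred_eq]
    rcases hδ' t ht with h | h
    · rw [← h] at h2 ⊢
      rw [← h] at h1
      omega
    · rw [← h] at h3 ⊢
      rw [← h] at h1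
      omega
  have hcl : ∀ t ∈ T, δ t ∈ cl G N A (δ t₀) := by
    intro t ht
    have hr := hT t₀ ht₀ t ht
    clear ht
    induction hr with
    | refl => exact Relation.ReflTransGen.refl
    | @tail s t _ hst ih =>
      obtain ⟨hs, ht, hd⟩ := hst
      have hs' : s ∈ T := by exact_mod_cast hs
      have ht' : t ∈ T := by exact_mod_cast ht
      refine Relation.ReflTransGen.tail ih ⟨hδ s hs', hδ t ht', s, ?_, ?_⟩
      · exact hdist1 s hs' s (by simp)
      · exact hdist1 t ht' s hd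
  have hclfin : (cl G N A (δ t₀)).Finite := hAfin.subset fun d hd => cl_sub (hδ t₀ ht₀) hd
  have hcard : (cl G N A (δ t₀)).ncard ≤ b := hb k _ ⟨A, hAk, δ t₀, hδ t₀ ht₀, rfl⟩
  have hTsub : (T : Set V) ⊆ Prod.fst '' cl G N A (δ t₀) ∪ Prod.snd '' cl G N A (δ t₀) := by
    intro t ht
    have ht' : t ∈ T := by exact_mod_cast ht
    rcases hδ' t ht' with h | h
    · exact Or.inl ⟨δ t, hcl t ht', h.symm⟩
    · exact Or.inr ⟨δ t, hcl t ht', h.symm⟩
  have h1 : (T : Set V).ncard ≤ _ := ncard_le_ncard hTsub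
    ((hclfin.image _).union (hclfin.image _))
  rw [ncard_coe_finset] at h1
  have h2 := ncard_union_le (Prod.fst '' cl G N A (δ t₀)) (Prod.snd '' cl G N A (δ t₀))
  have h3 := ncard_image_le (f := Prod.fst) hclfin
  have h4 := ncard_image_le (f := Prod.snd) hclfin
  omega

end Run7.h926
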