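import Pool.Agent.Run7.h926.Family

set_option autoImplicit false

/-!
# The canonical nested family: invariants
-/

namespace Run7.h926

open Set

variable {V : Type*} {G : SimpleGraph V}

theorem cand_compl {F : Set (Set V)} {k : ℕ} {A : Set V} (h : A ∈ Cand G F k) :
    Aᶜ ∈ Cand G F k :=
  ⟨optK_compl h.1, fun D hD hc => h.2 D hD (cross_compl_right.1 hc)⟩

theorem mu_compl (𝒞 : Set (Set V)) (A : Set V) : mu 𝒞 Aᶜ = mu 𝒞 A := by
  unfold mu
  congr 1
  ext B
  simp only [mem_ofPred_eq, cross_compl_right]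

theorem new_compl {F : Set (Set V)} {k : ℕ} {A : Set V} (h : A ∈ New G F k) :
    Aᶜ ∈ New G F k := by
  obtain ⟨hC, p, q, ho, hm⟩ := h
  refine ⟨cand_compl hC, p, q, ho.compl, fun B hB hBo => ?_⟩
  rw [mu_compl]
  exact hm B hB hBo

theorem fam_good (hG : G.Connected) : ∀ k, Good G (Fam G k) k := by
  intro k
  induction k with
  | zero =>
    exact ⟨fun D hD => hD.elim, fun D hD => hD.elim, fun D hD => hD.elim⟩
  | succ k ih =>
    refine ⟨?_, ?_, ?_⟩
    · rintro D (hD | hD)
      · obtain ⟨j, hj, h⟩ := ih.opt D hD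
        exact ⟨j, by omega, h⟩
      · exact ⟨k, by omega, hD.1.1⟩
    · rintro D (hD | hD) D' (hD' | hD')
      · exact ih.nested D hD D' hD'
      · exact hD'.1.2 D hD
      · exact fun h => hD.1.2 D' hD' h.symm
      · exact new_nested hG hD hD'
    · rintro D (hD | hD)
      · exact Or.inl (ih.compl D hD)
      · exact Or.inr (new_compl hD)

theorem fam_mono {j k : ℕ} (h : j ≤ k) : Fam G j ⊆ Fam G k := by
  induction h with
  | refl => exact subset_rfl
  | step _ ih => exact ih.trans subset_union_left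

/-- Members of the family separating everything, optimally. -/
theorem fam_opt (hG : G.Connected) {p q : Set V → Prop} (hp : IsPt G p) (hq : IsPt G q)
    {A : Set V} (hA : (bd G A).Finite) (hs : ¬ (p A ↔ q A)) :
    ∃ k, ∃ B ∈ Fam G k, Opt G p q B := by
  classical
  obtain ⟨A', hA'⟩ := exists_opt hp hq hA hs
  obtain ⟨B₀, hB₀, hB₀'⟩ := exists_cand hG (fam_good hG (bd G A').ncard) _ hA' rfl rfl
  set k := (bd G A').ncard
  have hex : ∃ n, ∃ B ∈ Cand G (Fam G k) k, Opt G p q B ∧ mu (Cand G (Fam G k) k) B = n :=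
    ⟨_, B₀, hB₀, hB₀', rfl⟩
  obtain ⟨B, hB, hBo, hn⟩ := Nat.find_spec hex
  refine ⟨k + 1, B, Or.inr ⟨hB, p, q, hBo, fun C hC hCo => ?_⟩, hBo⟩
  rw [hn]
  exact Nat.find_min' hex ⟨C, hC, hCo, rfl⟩

/-- A member of the family appears at the level given by the size of its boundary. -/
theorem mem_fam_succ {k : ℕ} {A : Set V} (hA : A ∈ Fam G k) :
    A ∈ Fam G ((bd G A).ncard + 1) := by
  induction k with
  | zero => exact hA.elim
  | succ k ih =>
    rcases hA with hA | hA
    · exact ih hA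
    · have hk : (bd G A).ncard = k := hA.1.1.1
      rw [hk]
      exact Or.inr hA

/-- Each dart lies in the boundary of finitely many members of a level. -/
theorem fam_dart_finite (hG : G.Connected) (k : ℕ) (d : V × V) :
    {A | A ∈ Fam G k ∧ d ∈ bd G A}.Finite := by
  refine Finite.subset (Finite.biUnion (finite_lt_nat k)
    fun j _ => optK_dart_finite hG j d) ?_
  rintro D ⟨hD, hc⟩
  obtain ⟨j, hj, hDj⟩ := (fam_good hG k).opt D hD
  simp only [mem_iUnion]
  exact ⟨j, hj, hDj, hc⟩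

/-- The members containing a given dart form a chain. -/
theorem fam_chain (hG : G.Connected) {k : ℕ} {d : V × V} {A B : Set V} (hA : A ∈ Fam G k)
    (hB : B ∈ Fam G k) (hdA : d ∈ bd G A) (hdB : d ∈ bd G B) : A ⊆ B ∨ B ⊆ A := by
  have h := (fam_good hG k).nested A hA B hB
  rw [nested_iff] at h
  rcases h with h | h | h | h
  · exact absurd hdB.2.1 (h hdA.2.1)
  · exact Or.inl h
  · exact Or.inr (compl_subset_compl.1 h)
  · exact absurd (h hdA.2.2) hdB.2.2

/-! ### Equivariance -/

section Equiv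

variable (g : G ≃g G)

theorem bd_preimage (A : Set V) : bd G (g ⁻¹' A) = Prod.map g g ⁻¹' bd G A := by
  ext ⟨u, v⟩
  simp only [mem_bd, mem_preimage, Prod.map_apply]
  rw [g.map_adj_iff]

theorem bd_preimage_image (A : Set V) : bd G A = Prod.map g g '' bd G (g ⁻¹' A) := by
  rw [bd_preimage, image_preimage_eq]
  exact (g.surjective).prodMap g.surjective

theorem bd_preimage_finite {A : Set V} (h : (bd G A).Finite) : (bd G (g ⁻¹' A)).Finite := by
  rw [bd_preimage]
  exact h.preimage ((g.injective.prodMap g.injective).injOn)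

theorem bd_preimage_ncard (A : Set V) : (bd G (g ⁻¹' A)).ncard = (bd G A).ncard := by
  rw [bd_preimage_image g A, ncard_image_of_injective _ (g.injective.prodMap g.injective)]

theorem preimage_symm_preimage (A : Set V) : g.symm ⁻¹' (g ⁻¹' A) = A := by
  ext x
  simp

theorem preimage_preimage_symm (A : Set V) : g ⁻¹' (g.symm ⁻¹' A) = A := by
  ext x
  simp

/-- Transport of points. -/
theorem IsPt.map {p : Set V → Prop} (hp : IsPt G p) : IsPt G fun A => p (g.symm ⁻¹' A) := by
  refine ⟨fun A B hA hB => ?_, fun A hA => ?_⟩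
  · exact hp.inter _ _ (bd_preimage_finite g.symm hA) (bd_preimage_finite g.symm hB)
  · exact hp.compl _ (bd_preimage_finite g.symm hA)

theorem Opt.map {p q : Set V → Prop} {A : Set V} (h : Opt G p q A) :
    Opt G (fun A => p (g.symm ⁻¹' A)) (fun A => q (g.symm ⁻¹' A)) (g ⁻¹' A) := by
  refine ⟨h.pt1.map g, h.pt2.map g, bd_preimage_finite g h.fin, ?_, ?_⟩
  · rw [preimage_symm_preimage]; exact h.sep
  · intro B hB hs
    rw [bd_preimage_ncard, ← bd_preimage_ncard g.symm B]
    exact h.le _ (bd_preimage_finite g.symm hB) hs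

theorem cross_preimage {A B : Set V} : Cross (g ⁻¹' A) (g ⁻¹' B) ↔ Cross A B := by
  unfold Cross
  rw [← preimage_compl, ← preimage_compl, ← preimage_inter, ← preimage_inter, ← preimage_inter,
    ← preimage_inter]
  have : ∀ S : Set V, (g ⁻¹' S).Nonempty ↔ S.Nonempty := fun S =>
    ⟨fun ⟨x, hx⟩ => ⟨g x, hx⟩, fun ⟨x, hx⟩ => ⟨g.symm x, by simpa using hx⟩⟩
  simp only [this]

theorem optK_map {k : ℕ} {A : Set V} (h : A ∈ OptK G k) : g ⁻¹' A ∈ OptK G k := by
  obtain ⟨h1, p, q, h2⟩ := h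
  exact ⟨by rw [bd_preimage_ncard]; exact h1, _, _, h2.map g⟩

/-- Invariance of a family under preimages. -/
def Inv (F : Set (Set V)) (G : SimpleGraph V) : Prop := ∀ g : G ≃g G, ∀ A ∈ F, g ⁻¹' A ∈ F

theorem Inv.iff {F : Set (Set V)} (hF : Inv F G) {A : Set V} : g ⁻¹' A ∈ F ↔ A ∈ F := by
  refine ⟨fun h => ?_, hF g A⟩
  have := hF g.symm _ h
  rwa [preimage_symm_preimage] at this

theorem cand_inv {F : Set (Set V)} (hF : Inv F G) (k : ℕ) : Inv (Cand G F k) G := by
  intro g A hA
  refine ⟨optK_map g hA.1, fun D hD hc => ?_⟩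
  have h1 := hF g.symm D hD
  refine hA.2 _ h1 ?_
  rw [← cross_preimage g, preimage_preimage_symm]
  exact hc

theorem mu_inv {𝒞 : Set (Set V)} (h : Inv 𝒞 G) (A : Set V) : mu 𝒞 (g ⁻¹' A) = mu 𝒞 A := by
  unfold mu
  have : {B | B ∈ 𝒞 ∧ Cross B (g ⁻¹' A)} = (fun B => g ⁻¹' B) '' {B | B ∈ 𝒞 ∧ Cross B A} := by
    ext B
    simp only [mem_ofPred_eq, mem_image]
    constructor
    · rintro ⟨hB, hc⟩
      refine ⟨g.symm ⁻¹' B, ⟨h g.symm B hB, ?_⟩, preimage_preimage_symm g B⟩
      rw [← cross_preimage g, preimage_preimage_symm]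
      exact hc
    · rintro ⟨B', ⟨hB', hc⟩, rfl⟩
      exact ⟨h g B' hB', (cross_preimage g).2 hc⟩
  rw [this, ncard_image_of_injective]
  intro A B hAB
  have := congrArg (fun S : Set V => g.symm ⁻¹' S) hAB
  simpa only [preimage_symm_preimage] using this

theorem new_inv {F : Set (Set V)} (hF : Inv F G) (k : ℕ) : Inv (New G F k) G := by
  intro g A hA
  obtain ⟨hC, p, q, ho, hm⟩ := hA
  have hCi := cand_inv hF k
  refine ⟨hCi g A hC, _, _, ho.map g, fun B hB hBo => ?_⟩
  rw [mu_inv g hCi, ← mu_inv g.symm hCi B]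
  refine hm _ (hCi g.symm B hB) ?_
  have h1 := hBo.map g.symm
  have e1 : (fun A => (fun A => p (g.symm ⁻¹' A)) (g.symm.symm ⁻¹' A)) = p := by
    funext A; exact congrArg p (preimage_symm_preimage g A)
  have e2 : (fun A => (fun A => q (g.symm ⁻¹' A)) (g.symm.symm ⁻¹' A)) = q := by
    funext A; exact congrArg q (preimage_symm_preimage g A)
  rw [e1, e2] at h1
  exact h1

theorem fam_inv : ∀ k, Inv (Fam G k) G := by
  intro k
  induction k with
  | zero => exact fun g A hA => hA.elim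
  | succ k ih =>
    rintro g A (hA | hA)
    · exact Or.inl (ih g A hA)
    · exact Or.inr (new_inv ih k g A hA)

end Equiv

end Run7.h926
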