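import Pool.Agent.Run7.h926.Fin

set_option autoImplicit false
set_option linter.unusedSimpArgs false

/-!
# The canonical nested family of optimal separators
-/

namespace Run7.h926

open Set

variable {V : Type*}

/-- Optimal separators of size `k` nested with the family `F`. -/
def Cand (G : SimpleGraph V) (F : Set (Set V)) (k : ℕ) : Set (Set V) :=
  {A | A ∈ OptK G k ∧ ∀ D ∈ F, ¬ Cross D A}

/-- The number of members of `𝒞` crossing `A`. -/
noncomputable def mu (𝒞 : Set (Set V)) (A : Set V) : ℕ := {B | B ∈ 𝒞 ∧ Cross B A}.ncard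

/-- The candidates of least crossing number among the candidates separating some pair. -/
def New (G : SimpleGraph V) (F : Set (Set V)) (k : ℕ) : Set (Set V) :=
  {A | A ∈ Cand G F k ∧ ∃ p q, Opt G p q A ∧
    ∀ B ∈ Cand G F k, Opt G p q B → mu (Cand G F k) A ≤ mu (Cand G F k) B}

/-- The family built so far from the separators of size `< k`. -/
def Fam (G : SimpleGraph V) : ℕ → Set (Set V)
  | 0 => ∅
  | k + 1 => Fam G k ∪ New G (Fam G k) k

/-- The invariants of the construction. -/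
structure Good (G : SimpleGraph V) (F : Set (Set V)) (k : ℕ) : Prop where
  opt : ∀ D ∈ F, ∃ j < k, D ∈ OptK G j
  nested : ∀ D ∈ F, ∀ D' ∈ F, ¬ Cross D D'
  compl : ∀ D ∈ F, Dᶜ ∈ F

variable {G : SimpleGraph V}

/-- Values of points on the four corners. -/
theorem IsPt.corners {p : Set V → Prop} (hp : IsPt G p) {A B : Set V} (hA : (bd G A).Finite)
    (hB : (bd G B).Finite) : (p (A ∩ B) ↔ p A ∧ p B) ∧ (p (A ∩ Bᶜ) ↔ p A ∧ ¬ p B) ∧
      (p (Aᶜ ∩ B) ↔ ¬ p A ∧ p B) ∧ (p (Aᶜ ∩ Bᶜ) ↔ ¬ p A ∧ ¬ p B) := by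
  have hA' := bd_compl_finite G hA
  have hB' := bd_compl_finite G hB
  refine ⟨hp.inter _ _ hA hB, ?_, ?_, ?_⟩
  · rw [hp.inter _ _ hA hB', hp.compl _ hB]
  · rw [hp.inter _ _ hA' hB, hp.compl _ hA]
  · rw [hp.inter _ _ hA' hB', hp.compl _ hA, hp.compl _ hB]

/-- Corners are nested with whatever is nested with both sets. -/
theorem corners_nested {A B : Set V} (hc : Cross A B) {C : Set V} (hA : ¬ Cross C A)
    (hB : ¬ Cross C B) : ¬ Cross C (A ∩ B) ∧ ¬ Cross C (A ∩ Bᶜ) ∧ ¬ Cross C (Aᶜ ∩ B) ∧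
      ¬ Cross C (Aᶜ ∩ Bᶜ) := by
  obtain ⟨h1, h2, h3, h4⟩ := hc
  have hA' : ¬ Cross C Aᶜ := fun h => hA (cross_compl_right.1 h)
  have hB' : ¬ Cross C Bᶜ := fun h => hB (cross_compl_right.1 h)
  exact ⟨not_cross_corner h4 hA hB, not_cross_corner (by rwa [compl_compl]) hA hB',
    not_cross_corner (by rwa [compl_compl]) hA' hB,
    not_cross_corner (by rwa [compl_compl, compl_compl]) hA' hB'⟩

theorem corners_finite {A B : Set V} (hA : (bd G A).Finite) (hB : (bd G B).Finite) :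
    (bd G (A ∩ B)).Finite ∧ (bd G (A ∩ Bᶜ)).Finite ∧ (bd G (Aᶜ ∩ B)).Finite ∧
      (bd G (Aᶜ ∩ Bᶜ)).Finite :=
  ⟨bd_inter_finite G hA hB, bd_inter_finite G hA (bd_compl_finite G hB),
    bd_inter_finite G (bd_compl_finite G hA) hB,
    bd_inter_finite G (bd_compl_finite G hA) (bd_compl_finite G hB)⟩

theorem corners_sizes {A B : Set V} (hA : (bd G A).Finite) (hB : (bd G B).Finite) :
    (bd G (A ∩ B)).ncard + (bd G (Aᶜ ∩ Bᶜ)).ncard ≤ (bd G A).ncard + (bd G B).ncard ∧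
    (bd G (A ∩ Bᶜ)).ncard + (bd G (Aᶜ ∩ B)).ncard ≤ (bd G A).ncard + (bd G B).ncard := by
  refine ⟨bd_corner G hA hB, ?_⟩
  have := bd_corner G hA (bd_compl_finite G hB)
  rwa [compl_compl, bd_compl_ncard] at this

/-- Uncrossing an optimal separator with a smaller one. -/
theorem uncross_small {p q r s : Set V → Prop} {A D : Set V} (hA : Opt G p q A)
    (hD : Opt G r s D) (hlt : (bd G D).ncard < (bd G A).ncard) (hc : Cross A D) :
    ∃ X, Opt G p q X ∧ ¬ Cross D X ∧ ∀ C, ¬ Cross C A → ¬ Cross C D → ¬ Cross C X := by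
  obtain ⟨f1, f2, f3, f4⟩ := corners_finite hA.fin hD.fin
  obtain ⟨s1, s2⟩ := corners_sizes hA.fin hD.fin
  obtain ⟨p1, p2, p3, p4⟩ := hA.pt1.corners hA.fin hD.fin
  obtain ⟨q1, q2, q3, q4⟩ := hA.pt2.corners hA.fin hD.fin
  obtain ⟨r1, r2, r3, r4⟩ := hD.pt1.corners hA.fin hD.fin
  obtain ⟨t1, t2, t3, t4⟩ := hD.pt2.corners hA.fin hD.fin
  have key : ∃ X, (bd G X).Finite ∧ ¬ (p X ↔ q X) ∧ (bd G X).ncard ≤ (bd G A).ncard ∧
      (X = A ∩ D ∨ X = A ∩ Dᶜ ∨ X = Aᶜ ∩ D ∨ X = Aᶜ ∩ Dᶜ) := by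
    have hpq := hA.sep
    have hrs := hD.sep
    have hDpq : p D ↔ q D := by
      by_contra h
      have := hA.le _ hD.fin h
      omega
    have a1 := hA.le _ f1
    have a2 := hA.le _ f2
    have a3 := hA.le _ f3
    have a4 := hA.le _ f4
    have d1 := hD.le _ f1
    have d2 := hD.le _ f2
    have d3 := hD.le _ f3
    have d4 := hD.le _ f4
    by_contra hno
    have n1 : ¬ (p (A ∩ D) ↔ q (A ∩ D)) → (bd G A).ncard < (bd G (A ∩ D)).ncard := by
      intro h; by_contra h'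
      exact hno ⟨_, f1, h, by omega, Or.inl rfl⟩
    have n2 : ¬ (p (A ∩ Dᶜ) ↔ q (A ∩ Dᶜ)) → (bd G A).ncard < (bd G (A ∩ Dᶜ)).ncard := by
      intro h; by_contra h'
      exact hno ⟨_, f2, h, by omega, Or.inr (Or.inl rfl)⟩
    have n3 : ¬ (p (Aᶜ ∩ D) ↔ q (Aᶜ ∩ D)) → (bd G A).ncard < (bd G (Aᶜ ∩ D)).ncard := by
      intro h; by_contra h'
      exact hno ⟨_, f3, h, by omega, Or.inr (Or.inr (Or.inl rfl))⟩
    have n4 : ¬ (p (Aᶜ ∩ Dᶜ) ↔ q (Aᶜ ∩ Dᶜ)) → (bd G A).ncard < (bd G (Aᶜ ∩ Dᶜ)).ncard := by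
      intro h; by_contra h'
      exact hno ⟨_, f4, h, by omega, Or.inr (Or.inr (Or.inr rfl))⟩
    clear hno a1 a2 a3 a4 hA hD hc f1 f2 f3 f4
    rw [p1, q1] at n1
    rw [p2, q2] at n2
    rw [p3, q3] at n3
    rw [p4, q4] at n4
    rw [r1, t1] at d1
    rw [r2, t2] at d2
    rw [r3, t3] at d3
    rw [r4, t4] at d4
    clear p1 p2 p3 p4 q1 q2 q3 q4 r1 r2 r3 r4 t1 t2 t3 t4
    by_cases u1 : p A <;> by_cases u2 : q A <;> by_cases u3 : q D <;>
      by_cases u4 : r D <;> by_cases u5 : s D <;>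
      simp only [u1, u2, u3, u4, u5, hDpq, not_true_eq_false, not_false_eq_true, and_true,
        and_false, true_and, false_and, iff_true, iff_false, true_iff, false_iff,
        forall_true_left, IsEmpty.forall_iff, iff_self] at * <;>
      by_cases u6 : r A <;> by_cases u7 : s A <;>
      simp only [u6, u7, not_true_eq_false, not_false_eq_true, and_true,
        and_false, true_and, false_and, iff_true, iff_false, true_iff, false_iff,
        forall_true_left, IsEmpty.forall_iff, iff_self] at * <;> omega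
  obtain ⟨X, hXf, hXs, hXle, hX⟩ := key
  refine ⟨X, hA.of_le hXf hXs hXle, ?_, ?_⟩
  · rcases hX with rfl | rfl | rfl | rfl
    · exact fun h => not_cross_of_subset inter_subset_right h.symm
    · exact fun h => not_cross_of_subset inter_subset_right (cross_compl_left.2 h).symm
    · exact fun h => not_cross_of_subset inter_subset_right h.symm
    · exact fun h => not_cross_of_subset inter_subset_right (cross_compl_left.2 h).symm
  · intro C hCA hCD
    obtain ⟨c1, c2, c3, c4⟩ := corners_nested hc hCA hCD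
    rcases hX with rfl | rfl | rfl | rfl <;> assumption

theorem Good.cross_finite (hG : G.Connected) {F : Set (Set V)} {k : ℕ} (hF : Good G F k)
    {A : Set V} (hA : (bd G A).Finite) : {D | D ∈ F ∧ Cross D A}.Finite := by
  refine Finite.subset (Finite.biUnion (finite_lt_nat k)
    fun j _ => optK_cross_finite hG j hA) ?_
  rintro D ⟨hD, hc⟩
  obtain ⟨j, hj, hDj⟩ := hF.opt D hD
  simp only [mem_iUnion]
  exact ⟨j, hj, hDj, hc⟩

/-- Candidates separate everything that sets of size `k` separate. -/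
theorem exists_cand (hG : G.Connected) {F : Set (Set V)} {k : ℕ} (hF : Good G F k)
    {p q : Set V → Prop} : ∀ (n : ℕ) {A : Set V}, Opt G p q A → (bd G A).ncard = k →
      {D | D ∈ F ∧ Cross D A}.ncard = n → ∃ B ∈ Cand G F k, Opt G p q B := by
  intro n
  induction n using Nat.strong_induction_on with
  | _ n ih =>
    intro A hA hk hn
    by_cases hnone : ∀ D ∈ F, ¬ Cross D A
    · exact ⟨A, ⟨⟨hk, p, q, hA⟩, hnone⟩, hA⟩
    push Not at hnone
    obtain ⟨D, hDF, hDA⟩ := hnone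
    obtain ⟨j, hj, hDj, r, s, hD⟩ := hF.opt D hDF
    obtain ⟨X, hX, hDX, hXn⟩ := uncross_small hA hD (by omega) hDA.symm
    have hss : {D | D ∈ F ∧ Cross D X} ⊂ {D | D ∈ F ∧ Cross D A} := by
      refine ⟨?_, ?_⟩
      · rintro C ⟨hCF, hC⟩
        refine ⟨hCF, ?_⟩
        by_contra h
        exact hXn C h (hF.nested C hCF D hDF) hC
      · intro h
        exact hDX (h ⟨hDF, hDA⟩).2
    have hlt := ncard_lt_ncard hss (hF.cross_finite hG hA.fin)
    exact ih _ (hn ▸ hlt) hX (by rw [← hk]; exact hX.ncard_eq hA) rfl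

theorem mu_finite (hG : G.Connected) (F : Set (Set V)) (k : ℕ) {A : Set V}
    (hA : (bd G A).Finite) : {B | B ∈ Cand G F k ∧ Cross B A}.Finite :=
  (optK_cross_finite hG k hA).subset fun _ hB => ⟨hB.1.1, hB.2⟩

/-- The counting inequality for opposite corners. -/
theorem mu_corners (hG : G.Connected) (F : Set (Set V)) (k : ℕ) {A B X Y : Set V}
    (hA : (bd G A).Finite) (hB : (bd G B).Finite) (hAC : A ∈ Cand G F k) (hc : Cross A B)
    (hX : ∀ C, ¬ Cross C A → ¬ Cross C B → ¬ Cross C X)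
    (hY : ∀ C, ¬ Cross C A → ¬ Cross C B → ¬ Cross C Y)
    (hXY : ∀ C, Cross C X → Cross C Y → Cross C A ∧ Cross C B)
    (hAX : ¬ Cross A X) (hAY : ¬ Cross A Y) :
    mu (Cand G F k) X + mu (Cand G F k) Y < mu (Cand G F k) A + mu (Cand G F k) B := by
  unfold mu
  have fA := mu_finite hG F k hA
  have fB := mu_finite hG F k hB
  have hsubU : {C | C ∈ Cand G F k ∧ Cross C X} ∪ {C | C ∈ Cand G F k ∧ Cross C Y} ⊂
      {C | C ∈ Cand G F k ∧ Cross C A} ∪ {C | C ∈ Cand G F k ∧ Cross C B} := by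
    refine ⟨?_, ?_⟩
    · rintro C (⟨hC, hCX⟩ | ⟨hC, hCY⟩)
      · by_cases h : Cross C A
        · exact Or.inl ⟨hC, h⟩
        · refine Or.inr ⟨hC, ?_⟩
          by_contra h'
          exact hX C h h' hCX
      · by_cases h : Cross C A
        · exact Or.inl ⟨hC, h⟩
        · refine Or.inr ⟨hC, ?_⟩
          by_contra h'
          exact hY C h h' hCY
    · intro h
      rcases h (Or.inr ⟨hAC, hc⟩) with h | h
      · exact hAX h.2
      · exact hAY h.2
  have hsubI : {C | C ∈ Cand G F k ∧ Cross C X} ∩ {C | C ∈ Cand G F k ∧ Cross C Y} ⊆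
      {C | C ∈ Cand G F k ∧ Cross C A} ∩ {C | C ∈ Cand G F k ∧ Cross C B} := by
    rintro C ⟨⟨hC, hCX⟩, ⟨-, hCY⟩⟩
    obtain ⟨h1, h2⟩ := hXY C hCX hCY
    exact ⟨⟨hC, h1⟩, ⟨hC, h2⟩⟩
  have hfU := fA.union fB
  rw [← ncard_union_add_ncard_inter {C | C ∈ Cand G F k ∧ Cross C X}
    {C | C ∈ Cand G F k ∧ Cross C Y} (hfU.subset (subset_union_left.trans hsubU.1))
    (hfU.subset (subset_union_right.trans hsubU.1)),
    ← ncard_union_add_ncard_inter {C | C ∈ Cand G F k ∧ Cross C A} _ fA fB]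
  exact add_lt_add_of_lt_of_le (ncard_lt_ncard hsubU hfU)
    (ncard_le_ncard hsubI (fA.inter_of_left _))

/-- The new members are pairwise nested. -/
theorem new_nested (hG : G.Connected) {F : Set (Set V)} {k : ℕ}
    {A B : Set V} (hA : A ∈ New G F k) (hB : B ∈ New G F k) : ¬ Cross A B := by
  intro hc
  obtain ⟨hAC, p, q, hAo, hAm⟩ := hA
  obtain ⟨hBC, r, s, hBo, hBm⟩ := hB
  obtain ⟨f1, f2, f3, f4⟩ := corners_finite hAo.fin hBo.fin
  obtain ⟨s1, s2⟩ := corners_sizes hAo.fin hBo.fin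
  have hkA : (bd G A).ncard = k := hAC.1.1
  have hkB : (bd G B).ncard = k := hBC.1.1
  rw [hkA, hkB] at s1 s2
  obtain ⟨p1, p2, p3, p4⟩ := hAo.pt1.corners hAo.fin hBo.fin
  obtain ⟨q1, q2, q3, q4⟩ := hAo.pt2.corners hAo.fin hBo.fin
  obtain ⟨r1, r2, r3, r4⟩ := hBo.pt1.corners hAo.fin hBo.fin
  obtain ⟨t1, t2, t3, t4⟩ := hBo.pt2.corners hAo.fin hBo.fin
  -- corners nested with `F`
  have hcor : ∀ C, ¬ Cross C A → ¬ Cross C B → ¬ Cross C (A ∩ B) ∧ ¬ Cross C (A ∩ Bᶜ) ∧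
      ¬ Cross C (Aᶜ ∩ B) ∧ ¬ Cross C (Aᶜ ∩ Bᶜ) := fun C h1 h2 => corners_nested hc h1 h2
  have hF : ∀ D ∈ F, ¬ Cross D (A ∩ B) ∧ ¬ Cross D (A ∩ Bᶜ) ∧
      ¬ Cross D (Aᶜ ∩ B) ∧ ¬ Cross D (Aᶜ ∩ Bᶜ) := fun D hD =>
    hcor D (hAC.2 D hD) (hBC.2 D hD)
  -- optimal corners
  have oA : ∀ X, (bd G X).Finite → (∀ D ∈ F, ¬ Cross D X) → ¬ (p X ↔ q X) →
      k ≤ (bd G X).ncard ∧ ((bd G X).ncard ≤ k → mu (Cand G F k) A ≤ mu (Cand G F k) X) := by
    intro X hX hXF hs
    have h1 := hAo.le X hX hs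
    rw [hkA] at h1
    refine ⟨h1, fun h2 => ?_⟩
    have h3 : Opt G p q X := hAo.of_le hX hs (by omega)
    exact hAm X ⟨⟨by omega, p, q, h3⟩, hXF⟩ h3
  have oB : ∀ X, (bd G X).Finite → (∀ D ∈ F, ¬ Cross D X) → ¬ (r X ↔ s X) →
      k ≤ (bd G X).ncard ∧ ((bd G X).ncard ≤ k → mu (Cand G F k) B ≤ mu (Cand G F k) X) := by
    intro X hX hXF hs
    have h1 := hBo.le X hX hs
    rw [hkB] at h1
    refine ⟨h1, fun h2 => ?_⟩
    have h3 : Opt G r s X := hBo.of_le hX hs (by omega)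
    exact hBm X ⟨⟨by omega, r, s, h3⟩, hXF⟩ h3
  have oA1 := oA _ f1 fun D hD => (hF D hD).1
  have oA2 := oA _ f2 fun D hD => (hF D hD).2.1
  have oA3 := oA _ f3 fun D hD => (hF D hD).2.2.1
  have oA4 := oA _ f4 fun D hD => (hF D hD).2.2.2
  have oB1 := oB _ f1 fun D hD => (hF D hD).1
  have oB2 := oB _ f2 fun D hD => (hF D hD).2.1
  have oB3 := oB _ f3 fun D hD => (hF D hD).2.2.1
  have oB4 := oB _ f4 fun D hD => (hF D hD).2.2.2
  have oAB := oA _ hBo.fin hBC.2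
  have oBA := oB _ hAo.fin hAC.2
  -- counting
  have m1 := mu_corners hG F k (X := A ∩ B) (Y := Aᶜ ∩ Bᶜ) hAo.fin hBo.fin hAC hc
    (fun C h1 h2 => (hcor C h1 h2).1) (fun C h1 h2 => (hcor C h1 h2).2.2.2)
    (fun C h1 h2 => ⟨cross_of_cross_corners inter_subset_left inter_subset_left h1 h2,
      cross_of_cross_corners inter_subset_right inter_subset_right h1 h2⟩)
    (fun h => not_cross_of_subset inter_subset_left h.symm)
    (fun h => not_cross_of_subset inter_subset_left (cross_compl_left.2 h).symm)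
  have m2 := mu_corners hG F k (X := A ∩ Bᶜ) (Y := Aᶜ ∩ B) hAo.fin hBo.fin hAC hc
    (fun C h1 h2 => (hcor C h1 h2).2.1) (fun C h1 h2 => (hcor C h1 h2).2.2.1)
    (fun C h1 h2 => ⟨cross_of_cross_corners inter_subset_left inter_subset_left h1 h2,
      cross_of_cross_corners inter_subset_right inter_subset_right h2 h1⟩)
    (fun h => not_cross_of_subset inter_subset_left h.symm)
    (fun h => not_cross_of_subset inter_subset_left (cross_compl_left.2 h).symm)
  have hpq := hAo.sep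
  have hrs := hBo.sep
  rw [p1, q1] at oA1
  rw [p2, q2] at oA2
  rw [p3, q3] at oA3
  rw [p4, q4] at oA4
  rw [r1, t1] at oB1
  rw [r2, t2] at oB2
  rw [r3, t3] at oB3
  rw [r4, t4] at oB4
  rw [hkB] at oAB
  rw [hkA] at oBA
  generalize (bd G (A ∩ B)).ncard = n1 at *
  generalize (bd G (A ∩ Bᶜ)).ncard = n2 at *
  generalize (bd G (Aᶜ ∩ B)).ncard = n3 at *
  generalize (bd G (Aᶜ ∩ Bᶜ)).ncard = n4 at *
  generalize mu (Cand G F k) (A ∩ B) = μ1 at *
  generalize mu (Cand G F k) (A ∩ Bᶜ) = μ2 at *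
  generalize mu (Cand G F k) (Aᶜ ∩ B) = μ3 at *
  generalize mu (Cand G F k) (Aᶜ ∩ Bᶜ) = μ4 at *
  generalize mu (Cand G F k) A = μA at *
  generalize mu (Cand G F k) B = μB at *
  clear oA oB hcor hF hAC hBC hAo hBo hAm hBm f1 f2 f3 f4 hc hkA hkB
  clear p1 p2 p3 p4 q1 q2 q3 q4 r1 r2 r3 r4 t1 t2 t3 t4
  by_cases u1 : p A <;> by_cases u2 : q A <;>
    simp only [u1, u2, iff_true, iff_false, iff_self, not_true_eq_false, not_false_eq_true] at hpq <;>
  by_cases u3 : r B <;> by_cases u4 : s B <;>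
    simp only [u3, u4, iff_true, iff_false, iff_self, not_true_eq_false, not_false_eq_true] at hrs <;>
  by_cases u5 : p B <;> by_cases u6 : q B <;> by_cases u7 : r A <;> by_cases u8 : s A <;>
    simp only [u1, u2, u3, u4, u5, u6, u7, u8, not_true_eq_false, not_false_eq_true, and_true,
        and_false, true_and, false_and, iff_true, iff_false, true_iff, false_iff,
        forall_true_left, IsEmpty.forall_iff, iff_self] at oA1 oA2 oA3 oA4 oB1 oB2 oB3 oB4 oAB oBA <;>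
    omega

end Run7.h926
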