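import Pool.Agent.Run7.h926.Cuts

set_option autoImplicit false

/-!
# Finiteness: few bonds of given size through an edge, few bonds of given size crossing a cut
-/

namespace Run7.h926

open Set

variable {V : Type*}

/-- The bonds of `G` with `k` edges whose boundary contains the dart `d`. -/
def bondsAt (G : SimpleGraph V) (k : ℕ) (d : V × V) : Set (Set V) :=
  {A | Conn G A ∧ Conn G Aᶜ ∧ (bd G A).Finite ∧ (bd G A).ncard = k ∧ d ∈ bd G A}

theorem bondsAt_finite (k : ℕ) : ∀ (G : SimpleGraph V) (d : V × V), (bondsAt G k d).Finite := by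
  induction k with
  | zero =>
    intro G d
    convert finite_empty
    rw [eq_empty_iff_forall_notMem]
    rintro A ⟨-, -, hf, h0, hd⟩
    rw [ncard_eq_zero hf] at h0
    rw [h0] at hd
    exact hd
  | succ k ih =>
    intro G d
    obtain ⟨x, y⟩ := d
    by_cases hxy : G.Adj x y
    swap
    · convert finite_empty
      rw [eq_empty_iff_forall_notMem]
      rintro A ⟨-, -, -, -, hd⟩
      exact hxy hd.1
    -- the graph with the edge removed
    set H : SimpleGraph V := G.deleteEdges {s(x, y)} with hH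
    have hadj : ∀ u v, H.Adj u v ↔ G.Adj u v ∧ ¬ ((u = x ∧ v = y) ∨ (u = y ∧ v = x)) := by
      intro u v
      rw [hH, SimpleGraph.deleteEdges_adj]
      simp only [mem_singleton_iff, Sym2.eq, Sym2.rel_iff', Prod.mk.injEq, Prod.swap_prod_mk]
    -- sets separating x and y
    have hbd : ∀ A : Set V, x ∈ A → y ∉ A → bd H A = bd G A \ {(x, y)} := by
      intro A hx hy
      ext ⟨u, v⟩
      simp only [mem_bd, hadj, mem_sdiff, mem_singleton_iff, Prod.mk.injEq]
      constructor
      · rintro ⟨⟨h1, h2⟩, h3, h4⟩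
        exact ⟨⟨h1, h3, h4⟩, fun h => h2 (Or.inl h)⟩
      · rintro ⟨⟨h1, h3, h4⟩, h⟩
        refine ⟨⟨h1, ?_⟩, h3, h4⟩
        rintro (h' | ⟨rfl, rfl⟩)
        · exact h h'
        · exact hy h3
    have hconn : ∀ A : Set V, (¬ (x ∈ A ∧ y ∈ A)) → Conn G A → Conn H A := by
      rintro A hxyA ⟨hne, hc⟩
      refine ⟨hne, fun B hBA hB hcl => hc B hBA hB fun u hu v hv huv => ?_⟩
      refine hcl u hu v hv ((hadj u v).2 ⟨huv, ?_⟩)
      rintro (⟨rfl, rfl⟩ | ⟨rfl, rfl⟩)
      · exact hxyA ⟨hBA hu, hv⟩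
      · exact hxyA ⟨hv, hBA hu⟩
    -- component of x in H
    set C : Set V := {z | H.Reachable x z} with hC
    have hCcl : ∀ u ∈ C, ∀ v, H.Adj u v → v ∈ C := fun u hu v huv =>
      SimpleGraph.Reachable.trans hu huv.reachable
    by_cases hyC : y ∈ C
    · -- x and y are connected in H by a walk
      obtain ⟨w⟩ : H.Reachable x y := hyC
      have hsub : bondsAt G (k + 1) (x, y) ⊆
          ⋃ d ∈ {d | d ∈ w.darts}, bondsAt H k (d.fst, d.snd) := by
        rintro A ⟨hA1, hA2, hf, hk, hd⟩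
        obtain ⟨d, hd1, hd2, hd3⟩ := w.exists_boundary_dart A hd.2.1 hd.2.2
        simp only [mem_iUnion]
        refine ⟨d, hd1, hconn A (fun h => hd.2.2 h.2) hA1, hconn Aᶜ (fun h => h.1 hd.2.1) hA2,
          ?_, ?_, ⟨d.adj, hd2, hd3⟩⟩
        · rw [hbd A hd.2.1 hd.2.2]; exact hf.subset sdiff_subset
        · rw [hbd A hd.2.1 hd.2.2, ncard_sdiff_singleton_of_mem hd, hk]; rfl
      refine Finite.subset ?_ hsub
      exact Finite.biUnion (List.finite_toSet w.darts) fun d _ => ih H _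
    · -- the only candidate is the component
      refine (finite_singleton C).subset ?_
      rintro A ⟨hA1, hA2, hf, hk, hd⟩
      rw [mem_singleton_iff]
      have h1 := hconn A (fun h => hd.2.2 h.2) hA1
      have h2 := hconn Aᶜ (fun h => h.1 hd.2.1) hA2
      have h3 : A ⊆ C := by
        refine (h1.2 (A ∩ C) inter_subset_left ⟨x, hd.2.1, SimpleGraph.Reachable.refl x⟩ ?_).trans
          inter_subset_right
        rintro u ⟨hu, huC⟩ v hv huv
        exact ⟨hv, hCcl u huC v huv⟩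
      refine h3.antisymm ?_
      by_contra h4
      rw [not_subset] at h4
      obtain ⟨z, hz, hzA⟩ := h4
      have h5 : Aᶜ ⊆ C := by
        refine (h2.2 (Aᶜ ∩ C) inter_subset_left ⟨z, hzA, hz⟩ ?_).trans inter_subset_right
        rintro u ⟨hu, huC⟩ v hv huv
        exact ⟨hv, hCcl u huC v huv⟩
      exact hyC (h5 hd.2.2)

variable {G : SimpleGraph V}

/-- The optimal separators with `k` edges. -/
def OptK (G : SimpleGraph V) (k : ℕ) : Set (Set V) :=
  {A | (bd G A).ncard = k ∧ ∃ p q, Opt G p q A}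

theorem optK_compl {k : ℕ} {A : Set V} (h : A ∈ OptK G k) : Aᶜ ∈ OptK G k := by
  obtain ⟨h1, p, q, h2⟩ := h
  exact ⟨by rw [bd_compl_ncard]; exact h1, p, q, h2.compl⟩

theorem optK_dart_finite (hG : G.Connected) (k : ℕ) (d : V × V) :
    {A | A ∈ OptK G k ∧ d ∈ bd G A}.Finite := by
  refine (bondsAt_finite k G d).subset ?_
  rintro A ⟨⟨hk, p, q, h⟩, hd⟩
  exact ⟨h.conn hG, h.compl.conn hG, h.fin, hk, hd⟩

/-- Only finitely many optimal separators of given size cross a given finite cut. -/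
theorem optK_cross_finite (hG : G.Connected) (k : ℕ) {A : Set V} (hA : (bd G A).Finite) :
    {B | B ∈ OptK G k ∧ Cross B A}.Finite := by
  classical
  -- endpoints of the boundary
  set F : Set V := Prod.fst '' bd G A with hF
  have hFf : F.Finite := hA.image _
  obtain ⟨w⟩ : Nonempty (∀ a b, G.Walk a b) := ⟨fun a b => (hG.preconnected a b).some⟩
  have hsub : {B | B ∈ OptK G k ∧ Cross B A} ⊆
      ⋃ a ∈ F, ⋃ b ∈ F, ⋃ d ∈ {d | d ∈ (w a b).darts},
        {B | B ∈ OptK G k ∧ (d.fst, d.snd) ∈ bd G B} := by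
    rintro B ⟨hB, hc⟩
    have key : ∀ B : Set V, B ∈ OptK G k → Cross B A → ∃ a ∈ F, a ∈ B := by
      intro B hB hc
      obtain ⟨-, p, q, hopt⟩ := hB
      obtain ⟨-, hcl⟩ := hopt.conn hG
      by_contra hno
      push Not at hno
      have h1 := hcl (B ∩ A) inter_subset_left hc.1 (by
        rintro u ⟨hu, huA⟩ v hv huv
        refine ⟨hv, ?_⟩
        by_contra hvA
        exact hno u ⟨(u, v), ⟨huv, huA, hvA⟩, rfl⟩ hu)
      obtain ⟨z, hzB, hzA⟩ := hc.2.1
      exact hzA (h1 hzB).2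
    obtain ⟨a, haF, haB⟩ := key B hB hc
    obtain ⟨b, hbF, hbB⟩ := key Bᶜ (optK_compl hB) (cross_compl_left.2 hc)
    obtain ⟨d, hd1, hd2, hd3⟩ := (w a b).exists_boundary_dart B haB hbB
    simp only [mem_iUnion]
    exact ⟨a, haF, b, hbF, d, hd1, hB, d.adj, hd2, hd3⟩
  refine Finite.subset ?_ hsub
  exact hFf.biUnion fun a _ => hFf.biUnion fun b _ =>
    Finite.biUnion (List.finite_toSet _) fun d _ => optK_dart_finite hG k _

end Run7.h926
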