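import Pool.Agent.Run7.h926.Minor
import Pool.Agent.Run7.h926.Ends

set_option autoImplicit false

/-!
# Pointed limits of a graph along an ultrafilter
-/

namespace Run7.h926

open Set Filter

variable {V' : Type*}

/-- The ultrapower of the graph `G'`. -/
def ultra (U : Ultrafilter ℕ) (G' : SimpleGraph V') : SimpleGraph ((U : Filter ℕ).Germ V') where
  Adj := Germ.LiftRel G'.Adj
  symm := ⟨by
    intro a b
    induction a, b using Germ.inductionOn₂ with
    | _ a b =>
      simp only [Germ.liftRel_coe]
      exact fun h => h.mono fun n hn => hn.symm⟩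
  loopless := ⟨by
    intro a
    induction a using Germ.inductionOn with
    | _ a =>
      simp only [Germ.liftRel_coe]
      intro h
      obtain ⟨n, hn⟩ := h.exists
      exact hn.ne rfl⟩

variable {U : Ultrafilter ℕ} {G' : SimpleGraph V'}

theorem ultra_adj {a b : ℕ → V'} :
    (ultra U G').Adj (a : (U : Filter ℕ).Germ V') b ↔ ∀ᶠ n in (U : Filter ℕ), G'.Adj (a n) (b n) :=
  Iff.rfl

theorem exists_step {a b : V'} (p : G'.Walk a b) (L : ℕ) :
    ∃ c, (a = c ∨ G'.Adj a c) ∧ (p.length ≤ L + 1 → G'.dist c b ≤ L) := by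
  cases p with
  | nil => exact ⟨a, Or.inl rfl, fun _ => by simp⟩
  | @cons _ c _ hac q =>
    refine ⟨c, Or.inr hac, fun hle => (SimpleGraph.dist_le q).trans ?_⟩
    rw [SimpleGraph.Walk.length_cons] at hle
    omega

theorem exists_walk_ultra (hG' : G'.Connected) (L : ℕ) : ∀ (a b : ℕ → V'),
    (∀ᶠ n in (U : Filter ℕ), G'.dist (a n) (b n) ≤ L) →
    ∃ p : (ultra U G').Walk (a : (U : Filter ℕ).Germ V') (b : (U : Filter ℕ).Germ V'),
      p.length ≤ L := by
  induction L with
  | zero =>
    intro a b h
    have hab : (a : (U : Filter ℕ).Germ V') = b := by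
      rw [Germ.coe_eq]
      refine h.mono fun n hn => ?_
      exact (hG'.dist_eq_zero_iff).1 (Nat.le_zero.1 hn)
    exact ⟨SimpleGraph.Walk.nil.copy rfl hab, by simp⟩
  | succ L ih =>
    intro a b h
    have hstep : ∀ n, ∃ c, (a n = c ∨ G'.Adj (a n) c) ∧
        (G'.dist (a n) (b n) ≤ L + 1 → G'.dist c (b n) ≤ L) := by
      intro n
      obtain ⟨p, hp⟩ := hG'.exists_walk_length_eq_dist (a n) (b n)
      rw [← hp]
      exact exists_step p L
    choose c hc1 hc2 using hstep
    obtain ⟨p, hp⟩ := ih c b (h.mono fun n hn => hc2 n hn)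
    have hor : (∀ᶠ n in (U : Filter ℕ), a n = c n) ∨
        ∀ᶠ n in (U : Filter ℕ), G'.Adj (a n) (c n) := by
      rw [← Ultrafilter.eventually_or]
      exact Eventually.of_forall hc1
    rcases hor with h1 | h1
    · have hac : (a : (U : Filter ℕ).Germ V') = c := by
        rw [Germ.coe_eq]; exact h1
      exact ⟨p.copy hac.symm rfl, by rw [SimpleGraph.Walk.length_copy]; omega⟩
    · have hac : (ultra U G').Adj (a : (U : Filter ℕ).Germ V') c := ultra_adj.2 h1
      exact ⟨SimpleGraph.Walk.cons hac p, by rw [SimpleGraph.Walk.length_cons]; omega⟩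

theorem dist_le_of_walk_ultra (hG' : G'.Connected) {x y : (U : Filter ℕ).Germ V'}
    (p : (ultra U G').Walk x y) : ∀ (a b : ℕ → V'), (a : (U : Filter ℕ).Germ V') = x →
    (b : (U : Filter ℕ).Germ V') = y → ∀ᶠ n in (U : Filter ℕ), G'.dist (a n) (b n) ≤ p.length := by
  induction p with
  | nil =>
    intro a b ha hb
    have hab : (a : (U : Filter ℕ).Germ V') = b := ha.trans hb.symm
    rw [Germ.coe_eq] at hab
    refine hab.mono fun n hn => ?_
    rw [show a n = b n from hn]
    simp
  | @cons x z y h p ih =>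
    intro a b ha hb
    induction z using Germ.inductionOn with
    | _ c =>
      subst ha
      have h1 := ultra_adj.1 h
      filter_upwards [h1, ih c b rfl hb] with n hn hn'
      rw [SimpleGraph.Walk.length_cons]
      have h2 := hG'.dist_triangle (u := a n) (v := c n) (w := b n)
      have h3 : G'.dist (a n) (c n) = 1 := SimpleGraph.dist_eq_one_iff_adj.2 hn
      omega

/-- The component of `z₀` in a graph. -/
def compOf {X : Type*} (G : SimpleGraph X) (z₀ : X) : Set X := {z | G.Reachable z₀ z}

theorem support_sub_compOf {X : Type*} {G : SimpleGraph X} {z₀ u v : X} (hu : u ∈ compOf G z₀)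
    (p : G.Walk u v) : ∀ w ∈ p.support, w ∈ compOf G z₀ := by
  classical
  intro w hw
  exact SimpleGraph.Reachable.trans hu (p.takeUntil w hw).reachable

theorem compOf_connected {X : Type*} (G : SimpleGraph X) (z₀ : X) :
    (G.induce (compOf G z₀)).Connected := by
  rw [SimpleGraph.connected_iff_exists_forall_reachable]
  refine ⟨⟨z₀, SimpleGraph.Reachable.refl z₀⟩, ?_⟩
  rintro ⟨z, hz⟩
  obtain ⟨p⟩ := id hz
  exact ⟨p.induce (compOf G z₀) (support_sub_compOf (SimpleGraph.Reachable.refl z₀) p)⟩

theorem compOf_dist_le {X : Type*} {G : SimpleGraph X} {z₀ : X} {u v : compOf G z₀}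
    (p : G.Walk u.1 v.1) : (G.induce (compOf G z₀)).dist u v ≤ p.length := by
  have hsup := support_sub_compOf u.2 p
  have h := SimpleGraph.dist_le (p.induce (compOf G z₀) hsup)
  have hl : (p.induce (compOf G z₀) hsup).length = p.length := by
    have h1 := SimpleGraph.Walk.length_map (SimpleGraph.Embedding.induce (compOf G z₀)).toHom
      (p.induce (compOf G z₀) hsup)
    rw [SimpleGraph.Walk.map_induce] at h1
    exact h1.symm
  rw [hl] at h
  exact h

theorem compOf_exists_walk {X : Type*} {G : SimpleGraph X} {z₀ : X} (u v : compOf G z₀) :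
    ∃ p : G.Walk u.1 v.1, p.length = (G.induce (compOf G z₀)).dist u v := by
  obtain ⟨p, hp⟩ := (compOf_connected G z₀).exists_walk_length_eq_dist u v
  exact ⟨p.map (SimpleGraph.Embedding.induce (compOf G z₀)).toHom,
    (SimpleGraph.Walk.length_map _ _).trans hp⟩

end Run7.h926
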