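import Pool.Agent.Run7.h926.Limit

set_option autoImplicit false

/-!
# Limits of translates of a quasi-isometry
-/

namespace Run7.h926

open Set Filter

/-- Pointed limit of a graph quasi-isometric to a quasi-transitive graph. -/
theorem limit_qi {V V' : Type} {G : SimpleGraph V} {G' : SimpleGraph V'} (hG : G.Connected)
    (hf : ∀ v, (G.neighborSet v).Finite)
    (hS : ∃ S : Finset V, ∀ v : V, ∃ s ∈ S, ∃ φ : G ≃g G, φ s = v) (hG' : G'.Connected)
    {q : V → V'} {C : ℕ} (hq : QI G G' q C) (y : ℕ → V') :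
    ∃ (V'' : Type) (G'' : SimpleGraph V''), G''.Connected ∧ (∃ q'' : V → V'', QI G G'' q'' C) ∧
      ∀ (W : Type) [Finite W] (H : SimpleGraph W), MinorIn G'' univ H →
        ∃ n, MinorIn G' {z | G'.dist (y n) z ≤ n} H := by
  classical
  obtain ⟨S, hS⟩ := hS
  obtain ⟨s₀⟩ := hG.nonempty
  have hex : ∀ n, ∃ (s : V) (φ : G ≃g G), s ∈ S ∧ G'.dist (y n) (q (φ s)) ≤ C := by
    intro n
    obtain ⟨x, hx⟩ := hq.2 (y n)
    obtain ⟨s, hs, φ, rfl⟩ := hS x
    exact ⟨s, φ, hs, hx⟩
  choose s φ hs hφ using hex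
  set D₀ : ℕ := S.sup fun s => G.dist s s₀ with hD₀
  set D₁ : ℕ := C + (C * D₀ + C) with hD₁
  have hbase : ∀ n, G'.dist (y n) (q (φ n s₀)) ≤ D₁ := by
    intro n
    have h1 : G.dist (s n) s₀ ≤ D₀ := Finset.le_sup (f := fun s => G.dist s s₀) (hs n)
    have h2 := (hq.1 (φ n (s n)) (φ n s₀)).1
    rw [dist_map (φ n) hG] at h2
    have h3 := hG'.dist_triangle (u := y n) (v := q (φ n (s n))) (w := q (φ n s₀))
    have h4 := hφ n
    have h5 : C * G.dist (s n) s₀ ≤ C * D₀ := Nat.mul_le_mul_left _ h1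
    omega
  let U : Ultrafilter ℕ := Filter.hyperfilter ℕ
  set Q : V → (U : Filter ℕ).Germ V' := fun x => ((fun n => q (φ n x) : ℕ → V') : (U : Filter ℕ).Germ V')
    with hQ
  have hQd : ∀ x z, ∀ n, G'.dist (q (φ n x)) (q (φ n z)) ≤ C * G.dist x z + C := by
    intro x z n
    have := (hq.1 (φ n x) (φ n z)).1
    rwa [dist_map (φ n) hG] at this
  have hQw : ∀ x z, ∃ p : (ultra U G').Walk (Q x) (Q z), p.length ≤ C * G.dist x z + C :=
    fun x z => exists_walk_ultra hG' _ _ _ (Eventually.of_forall (hQd x z))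
  have hQc : ∀ x, Q x ∈ compOf (ultra U G') (Q s₀) := fun x => by
    obtain ⟨p, -⟩ := hQw s₀ x
    exact p.reachable
  refine ⟨compOf (ultra U G') (Q s₀), (ultra U G').induce _, compOf_connected _ _,
    ⟨fun x => ⟨Q x, hQc x⟩, ⟨fun x z => ⟨?_, ?_⟩, ?_⟩⟩, ?_⟩
  · obtain ⟨p, hp⟩ := hQw x z
    exact (compOf_dist_le (u := ⟨Q x, hQc x⟩) (v := ⟨Q z, hQc z⟩) p).trans hp
  · obtain ⟨p, hp⟩ := compOf_exists_walk (G := ultra U G') (z₀ := Q s₀) ⟨Q x, hQc x⟩ ⟨Q z, hQc z⟩
    obtain ⟨n, hn⟩ := (dist_le_of_walk_ultra hG' p (fun n => q (φ n x)) (fun n => q (φ n z))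
      rfl rfl).exists
    have h1 := (hq.1 (φ n x) (φ n z)).2
    rw [dist_map (φ n) hG] at h1
    rw [← hp]
    exact h1.trans (Nat.add_le_add_right (Nat.mul_le_mul_left _ hn) _)
  · rintro ⟨z, hz⟩
    obtain ⟨p⟩ := id hz
    induction z using Germ.inductionOn with
    | _ z =>
    have h1 := dist_le_of_walk_ultra hG' p (fun n => q (φ n s₀)) z rfl rfl
    -- approximate z n by the image of a vertex in a fixed ball
    have hw : ∀ n, ∃ w, G'.dist (z n) (q (φ n w)) ≤ C := by
      intro n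
      obtain ⟨x, hx⟩ := hq.2 (z n)
      exact ⟨(φ n).symm x, by simpa using hx⟩
    choose w hw using hw
    set B : Set V := {x | G.dist s₀ x ≤ C * (p.length + C) + C} with hB
    have hBf : B.Finite := ball_finite hG hf _ s₀
    have hwB : ∀ᶠ n in (U : Filter ℕ), w n ∈ B := by
      refine h1.mono fun n hn => ?_
      have h2 := (hq.1 (φ n s₀) (φ n (w n))).2
      rw [dist_map (φ n) hG] at h2
      have h3 := hG'.dist_triangle (u := q (φ n s₀)) (v := z n) (w := q (φ n (w n)))
      have h4 : G'.dist (q (φ n s₀)) (q (φ n (w n))) ≤ p.length + C := by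
        have := hw n
        have hn' : G'.dist (q (φ n s₀)) (z n) ≤ p.length := hn
        omega
      exact h2.trans (Nat.add_le_add_right (Nat.mul_le_mul_left _ h4) _)
    have hconst : ∃ x ∈ B, ∀ᶠ n in (U : Filter ℕ), w n = x := by
      have : ∀ᶠ n in (U : Filter ℕ), ∃ x ∈ B, w n = x := hwB.mono fun n hn => ⟨w n, hn, rfl⟩
      exact (Ultrafilter.eventually_exists_mem_iff hBf).1 this
    obtain ⟨x, -, hx⟩ := hconst
    refine ⟨x, ?_⟩
    obtain ⟨p', hp'⟩ := exists_walk_ultra (U := U) hG' C z (fun n => q (φ n x))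
      (hx.mono fun n hn => by rw [← hn]; exact hw n)
    exact (compOf_dist_le (u := ⟨_, hz⟩) (v := ⟨Q x, hQc x⟩) p').trans hp'
  · intro W _ H hH
    obtain ⟨Y, -, hY⟩ := hH.finite
    have hrep : ∀ z : (U : Filter ℕ).Germ V', ∃ a : ℕ → V', (a : (U : Filter ℕ).Germ V') = z := by
      intro z
      induction z using Germ.inductionOn with
      | _ a => exact ⟨a, rfl⟩
    choose rep hrep using hrep
    have e1 : ∀ᶠ n in (U : Filter ℕ), ∀ z ∈ Y, ∀ z' ∈ Y, rep z.1 n = rep z'.1 n → z = z' := by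
      rw [Filter.eventually_all_finset]
      intro z _
      rw [Filter.eventually_all_finset]
      intro z' _
      by_cases hzz : z = z'
      · exact Eventually.of_forall fun n _ => hzz
      · have : ¬ ∀ᶠ n in (U : Filter ℕ), rep z.1 n = rep z'.1 n := by
          intro h
          apply hzz
          apply Subtype.ext
          rw [← hrep z.1, ← hrep z'.1, Germ.coe_eq]
          exact h
        exact (Ultrafilter.eventually_not.2 this).mono fun n hn h => absurd h hn
    have e2 : ∀ᶠ n in (U : Filter ℕ), ∀ z ∈ Y, ∀ z' ∈ Y,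
        (ultra U G').Adj z.1 z'.1 → G'.Adj (rep z.1 n) (rep z'.1 n) := by
      rw [Filter.eventually_all_finset]
      intro z _
      rw [Filter.eventually_all_finset]
      intro z' _
      by_cases hzz : (ultra U G').Adj z.1 z'.1
      · have h2 := hzz
        rw [← hrep z.1, ← hrep z'.1] at h2
        exact (ultra_adj.1 h2).mono fun n hn _ => hn
      · exact Eventually.of_forall fun n h => absurd h hzz
    have e3 : ∀ᶠ n in (U : Filter ℕ), ∀ z ∈ Y, G'.dist (y n) (rep z.1 n) ≤ n := by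
      rw [Filter.eventually_all_finset]
      intro z _
      obtain ⟨p⟩ := id z.2
      have h1 := dist_le_of_walk_ultra hG' p (fun n => q (φ n s₀)) (rep z.1) rfl (hrep z.1)
      have h2 : ∀ᶠ n in (U : Filter ℕ), D₁ + p.length ≤ n := by
        have h3 : (U : Filter ℕ) ≤ atTop := Nat.hyperfilter_le_atTop
        exact h3 (eventually_ge_atTop _)
      filter_upwards [h1, h2] with n hn hn'
      have h3 := hG'.dist_triangle (u := y n) (v := q (φ n s₀)) (w := rep z.1 n)
      have h4 := hbase n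
      omega
    obtain ⟨n, h1, h2, h3⟩ := (e1.and (e2.and e3)).exists
    refine ⟨n, hY.map (fun z => rep z.1 n) ?_ ?_ ?_⟩
    · intro z hz z' hz' h
      exact h1 z (by exact_mod_cast hz) z' (by exact_mod_cast hz') h
    · intro z hz z' hz' h
      exact h2 z (by exact_mod_cast hz) z' (by exact_mod_cast hz') h
    · intro z hz
      exact h3 z (by exact_mod_cast hz)

end Run7.h926
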