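import Pool.Agent.Run7.h926.Ends

set_option autoImplicit false

/-!
# Accessibility at every scale: the assembled statement
-/

namespace Run7.h926

open Set Opposite

variable {V : Type*} {G : SimpleGraph V}

theorem famAll_good (hG : G.Connected) {A : Set V} (hA : A ∈ FamAll G) :
    Aᶜ ∈ FamAll G ∧ (bd G A).Finite ∧ (G.induce A).Connected ∧ (G.induce Aᶜ).Connected := by
  obtain ⟨k, hk⟩ := mem_iUnion.1 hA
  obtain ⟨j, -, -, p, q, h⟩ := (fam_good hG k).opt A hk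
  exact ⟨mem_iUnion.2 ⟨k, (fam_good hG k).compl A hk⟩, h.fin, conn_induce_of_conn (h.conn hG),
    conn_induce_of_conn (h.compl.conn hG)⟩

theorem famAll_image {A : Set V} (hA : A ∈ FamAll G) (φ : G ≃g G) : φ '' A ∈ FamAll G := by
  obtain ⟨k, hk⟩ := mem_iUnion.1 hA
  have h := fam_inv k φ.symm A hk
  have e : φ.symm ⁻¹' A = φ '' A := by
    ext x
    constructor
    · intro hx
      exact ⟨φ.symm x, hx, by simp⟩
    · rintro ⟨y, hy, rfl⟩
      simpa using hy
  rw [e] at h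
  exact mem_iUnion.2 ⟨k, h⟩

theorem famAll_nested (hG : G.Connected) {A B : Set V} (hA : A ∈ FamAll G) (hB : B ∈ FamAll G) :
    A ⊆ B ∨ A ⊆ Bᶜ ∨ Aᶜ ⊆ B ∨ Aᶜ ⊆ Bᶜ := by
  obtain ⟨k, hk⟩ := mem_iUnion.1 hA
  obtain ⟨l, hl⟩ := mem_iUnion.1 hB
  have h := (fam_good hG (max k l)).nested A (fam_mono (le_max_left k l) hk) B
    (fam_mono (le_max_right k l) hl)
  rw [nested_iff] at h
  tauto

theorem famAll_locally_finite (hG : G.Connected) (d : V × V) (n : ℕ) :
    {A | A ∈ FamAll G ∧ d ∈ bd G A ∧ (bd G A).ncard ≤ n}.Finite := by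
  refine (fam_dart_finite hG (n + 1) d).subset ?_
  rintro A ⟨hA, hd, hn⟩
  obtain ⟨k, hk⟩ := mem_iUnion.1 hA
  exact ⟨fam_mono (by omega) (mem_fam_succ hk), hd⟩

theorem endPt_compl_iff (ω : G.end) {A : Set V} (hA : (bd G A).Finite) :
    endPt ω Aᶜ ↔ ¬ endPt ω A := (endPt_isPt ω).compl A hA

theorem famAll_sep (hG : G.Connected) (hf : ∀ v, (G.neighborSet v).Finite) {ω₁ ω₂ : G.end}
    (h : ω₁ ≠ ω₂) : ∃ A ∈ FamAll G, endPt ω₁ A ∧ endPt ω₂ Aᶜ ∧
      ∀ B, (bd G B).Finite → endPt ω₁ B → endPt ω₂ Bᶜ → (bd G A).ncard ≤ (bd G B).ncard := by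
  obtain ⟨A₀, hA₀, hs₀⟩ := exists_sep_end hf h
  obtain ⟨k, B, hB, ho⟩ := fam_opt hG (endPt_isPt ω₁) (endPt_isPt ω₂) hA₀ hs₀
  have hmin : ∀ C, (bd G C).Finite → endPt ω₁ C → endPt ω₂ Cᶜ →
      (bd G B).ncard ≤ (bd G C).ncard := by
    intro C hC h1 h2
    refine ho.le C hC ?_
    rw [endPt_compl_iff ω₂ hC] at h2
    tauto
  have hBf : B ∈ FamAll G := mem_iUnion.2 ⟨k, hB⟩
  by_cases h1 : endPt ω₁ B
  · refine ⟨B, hBf, h1, ?_, hmin⟩
    rw [endPt_compl_iff ω₂ ho.fin]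
    have := ho.sep
    tauto
  · refine ⟨Bᶜ, (famAll_good hG hBf).1, ?_, ?_, ?_⟩
    · rw [endPt_compl_iff ω₁ ho.fin]; exact h1
    · rw [compl_compl]
      have := ho.sep
      tauto
    · rw [bd_compl_ncard]; exact hmin

/-- Ends on different sides of a cut are separated by the vertices of the cut. -/
theorem ne_of_cut {ω₁ ω₂ : G.end} {A : Set V} (h1 : endPt ω₁ A) (h2 : endPt ω₂ Aᶜ)
    {K : Finset V} (hK : (K : Set V) = cutVerts G A) : ω₁.val (op K) ≠ ω₂.val (op K) := by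
  intro he
  have hcov : ∀ d ∈ bd G A, d.1 ∈ K ∨ d.2 ∈ K := by
    intro d hd
    left
    have : d.1 ∈ (K : Set V) := by
      rw [hK]
      exact mem_cutVerts_iff.2 ⟨d, hd, Or.inl rfl⟩
    exact_mod_cast this
  have hside : side ω₁ K = side ω₂ K := by
    unfold side
    rw [he]
  rcases side_dichotomy ω₁ K hcov with h | h
  · rw [hside] at h
    exact endPt_not_both ω₂ ⟨K, h⟩ h2
  · exact endPt_not_both ω₁ h1 ⟨K, h⟩

theorem cutVerts_ncard_le {A : Set V} (hA : (bd G A).Finite) :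
    (cutVerts G A).ncard ≤ 2 * (bd G A).ncard := by
  have hsub : cutVerts G A ⊆ Prod.fst '' bd G A ∪ Prod.snd '' bd G A := by
    intro v hv
    obtain ⟨d, hd, h | h⟩ := mem_cutVerts_iff.1 hv
    · exact Or.inl ⟨d, hd, h.symm⟩
    · exact Or.inr ⟨d, hd, h.symm⟩
  have h1 := ncard_le_ncard hsub ((hA.image _).union (hA.image _))
  have h2 := ncard_union_le (Prod.fst '' bd G A) (Prod.snd '' bd G A)
  have h3 := ncard_image_le (f := Prod.fst) hA
  have h4 := ncard_image_le (f := Prod.snd) hA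
  omega

/-- Few separating vertices give a cut with few edges. -/
theorem exists_small_cut {Δ : ℕ} (hf : ∀ v, (G.neighborSet v).Finite)
    (hΔ : ∀ v, (G.neighborSet v).ncard ≤ Δ) {ω₁ ω₂ : G.end} {K : Finset V}
    (hK : ω₁.val (op K) ≠ ω₂.val (op K)) :
    ∃ B, (bd G B).Finite ∧ endPt ω₁ B ∧ endPt ω₂ Bᶜ ∧ (bd G B).ncard ≤ K.card * Δ := by
  classical
  have hsub : bd G (side ω₁ K) ⊆ ⋃ y ∈ K, (G.neighborSet y) ×ˢ ({y} : Set V) := by
    rintro ⟨u, v⟩ ⟨ha, hu, hv⟩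
    have hvK : v ∈ (K : Set V) := by
      by_contra hvK
      exact hv (SimpleGraph.ComponentCompl.mem_of_adj (G := G) (K := (K : Set V)) u v hu hvK ha)
    simp only [mem_iUnion]
    exact ⟨v, by exact_mod_cast hvK, ha.symm, rfl⟩
  have hfin : (⋃ y ∈ K, (G.neighborSet y) ×ˢ ({y} : Set V)).Finite :=
    K.finite_toSet.biUnion fun y _ => (hf y).prod (finite_singleton y)
  have hbfin : (bd G (side ω₁ K)).Finite := hfin.subset hsub
  have hp2 : ¬ endPt ω₂ (side ω₁ K) := by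
    rintro ⟨L, hL⟩
    obtain ⟨v, hv⟩ := side_nonempty ω₂ (K ∪ L)
    have h1 : v ∈ side ω₁ K := hL (side_anti ω₂ Finset.subset_union_right hv)
    have h2 : v ∈ side ω₂ K := side_anti ω₂ Finset.subset_union_left hv
    have := SimpleGraph.ComponentCompl.pairwise_disjoint (G := G) (K := (K : Set V)) hK
    exact Set.disjoint_left.1 this h1 h2
  refine ⟨side ω₁ K, hbfin, ⟨K, subset_rfl⟩, (endPt_compl_iff ω₂ hbfin).2 hp2, ?_⟩
  refine (ncard_le_ncard hsub hfin).trans ?_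
  have hun : ∀ L : Finset V, (⋃ y ∈ L, (G.neighborSet y) ×ˢ ({y} : Set V)).ncard ≤ L.card * Δ := by
    intro L
    induction L using Finset.induction_on with
    | empty => simp
    | insert a L ha ih =>
      rw [Finset.set_biUnion_insert, Finset.card_insert_of_notMem ha]
      refine (ncard_union_le _ _).trans ?_
      have h1 : ((G.neighborSet a) ×ˢ ({a} : Set V)).ncard ≤ Δ := by
        rw [ncard_prod, ncard_singleton, mul_one]
        exact hΔ a
      nlinarith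
  exact hun K

theorem degree_bound (hS : ∃ S : Finset V, ∀ v : V, ∃ s ∈ S, ∃ φ : G ≃g G, φ s = v) :
    ∃ Δ : ℕ, ∀ v, (G.neighborSet v).ncard ≤ Δ := by
  classical
  obtain ⟨S, hS⟩ := hS
  refine ⟨S.sup fun s => (G.neighborSet s).ncard, fun v => ?_⟩
  obtain ⟨s, hs, φ, rfl⟩ := hS v
  have : G.neighborSet (φ s) = φ '' G.neighborSet s := by
    ext x
    simp only [SimpleGraph.mem_neighborSet, mem_image]
    constructor
    · intro h
      refine ⟨φ.symm x, ?_, by simp⟩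
      rw [← φ.map_adj_iff]
      simpa using h
    · rintro ⟨y, hy, rfl⟩
      exact φ.map_adj_iff.2 hy
  rw [this, ncard_image_of_injective _ φ.injective]
  exact Finset.le_sup (f := fun s => (G.neighborSet s).ncard) hs

theorem mconn_singleton (v : V) : MConn G 0 (({v} : Finset V) : Set V) := by
  intro a ha b hb
  have ha' : a = v := by simpa using ha
  have hb' : b = v := by simpa using hb
  rw [ha', hb']

/-- The criterion: accessibility is equivalent to bounding the number of clusters at some scale. -/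
theorem criterion (hG : G.Connected) (hf : ∀ v, (G.neighborSet v).Finite)
    (hS : ∃ S : Finset V, ∀ v : V, ∃ s ∈ S, ∃ φ : G ≃g G, φ s = v) :
    (∃ k : ℕ, ∀ ω₁ ω₂ : G.end, ω₁ ≠ ω₂ →
        ∃ K : Finset V, K.card ≤ k ∧ ω₁.val (op K) ≠ ω₂.val (op K)) ↔
      ∃ m r : ℕ, ∀ ω₁ ω₂ : G.end, ω₁ ≠ ω₂ → ∃ A ∈ FamAll G, endPt ω₁ A ∧ endPt ω₂ Aᶜ ∧
        ∃ F : Finset (Finset V), F.card ≤ r ∧ (∀ T ∈ F, MConn G m (T : Set V)) ∧
          ∀ v, v ∈ cutVerts G A ↔ ∃ T ∈ F, v ∈ T := by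
  classical
  constructor
  · rintro ⟨k, hk⟩
    obtain ⟨Δ, hΔ⟩ := degree_bound hS
    refine ⟨0, 2 * (k * Δ), fun ω₁ ω₂ h => ?_⟩
    obtain ⟨A, hA, h1, h2, hmin⟩ := famAll_sep hG hf h
    obtain ⟨K, hKc, hK⟩ := hk ω₁ ω₂ h
    obtain ⟨B, hB, hB1, hB2, hBc⟩ := exists_small_cut hf hΔ hK
    have hAf := (famAll_good hG hA).2.1
    have hle : (bd G A).ncard ≤ k * Δ :=
      (hmin B hB hB1 hB2).trans (hBc.trans (Nat.mul_le_mul_right _ hKc))
    have hcf := cutVerts_finite hAf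
    refine ⟨A, hA, h1, h2, hcf.toFinset.image fun v => {v}, ?_, ?_, ?_⟩
    · refine Finset.card_image_le.trans ?_
      rw [← ncard_eq_toFinset_card _ hcf]
      exact (cutVerts_ncard_le hAf).trans (by omega)
    · intro T hT
      obtain ⟨v, -, rfl⟩ := Finset.mem_image.1 hT
      exact mconn_singleton v
    · intro v
      constructor
      · intro hv
        exact ⟨{v}, Finset.mem_image.2 ⟨v, by simpa using hv, rfl⟩, by simp⟩
      · rintro ⟨T, hT, hvT⟩
        obtain ⟨w, hw, rfl⟩ := Finset.mem_image.1 hT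
        have : v = w := by simpa using hvT
        rw [this]
        simpa using hw
  · rintro ⟨m, r, h⟩
    obtain ⟨b, hb⟩ := famAll_bounded hG hf hS m
    refine ⟨r * b, fun ω₁ ω₂ hne => ?_⟩
    obtain ⟨A, hA, h1, h2, F, hFc, hFm, hFv⟩ := h ω₁ ω₂ hne
    refine ⟨F.biUnion id, ?_, ?_⟩
    · refine (Finset.card_biUnion_le_card_mul F id b ?_).trans (Nat.mul_le_mul_right _ hFc)
      intro T hT
      exact hb A hA T (fun v hv => (hFv v).2 ⟨T, hT, by simpa using hv⟩) (hFm T hT)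
    · apply ne_of_cut h1 h2
      ext v
      simp only [Finset.coe_biUnion, id_eq, mem_iUnion, Finset.mem_coe, exists_prop]
      exact (hFv v).symm

end Run7.h926
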