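import Mathlib

set_option autoImplicit false

/-!
# Minors inside vertex sets, and quasi-isometries
-/

namespace Run7.h926

open Set

variable {V V' W : Type*}

/-- `H` is a minor of the subgraph of `G` induced by `X`. -/
def MinorIn (G : SimpleGraph V) (X : Set V) (H : SimpleGraph W) : Prop :=
  ∃ f : W → Set V, (∀ w, f w ⊆ X) ∧ (∀ w, (G.induce (f w)).Connected) ∧
    Pairwise (fun a b => Disjoint (f a) (f b)) ∧
    ∀ a b, H.Adj a b → ∃ x ∈ f a, ∃ y ∈ f b, G.Adj x y

theorem MinorIn.mono {G : SimpleGraph V} {X Y : Set V} {H : SimpleGraph W} (h : MinorIn G X H)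
    (hXY : X ⊆ Y) : MinorIn G Y H := by
  obtain ⟨f, h1, h2, h3, h4⟩ := h
  exact ⟨f, fun w => (h1 w).trans hXY, h2, h3, h4⟩

/-- A finite part of a connected set lies in a finite connected part. -/
theorem exists_finite_conn {G : SimpleGraph V} {S : Set V} (hS : (G.induce S).Connected)
    (t : Finset V) (ht : (t : Set V) ⊆ S) : ∃ t' : Finset V, t ⊆ t' ∧ (t' : Set V) ⊆ S ∧
      (G.induce (t' : Set V)).Connected := by
  classical
  obtain ⟨r⟩ := hS.nonempty
  set t₀ : Finset S := insert r (t.subtype (· ∈ S)) with ht₀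
  obtain ⟨t₁, h1, h2⟩ := SimpleGraph.extend_finset_to_connected hS.preconnected
    (t := t₀) ⟨r, by rw [ht₀]; exact Finset.mem_insert_self _ _⟩
  refine ⟨t₁.map (Function.Embedding.subtype _), ?_, ?_, ?_⟩
  · intro v hv
    have hvS : v ∈ S := ht (by exact_mod_cast hv)
    rw [Finset.mem_map]
    refine ⟨⟨v, hvS⟩, h1 ?_, rfl⟩
    rw [ht₀]
    exact Finset.mem_insert_of_mem (Finset.mem_subtype.2 hv)
  · intro v hv
    have hv' : v ∈ t₁.map (Function.Embedding.subtype _) := by exact_mod_cast hv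
    obtain ⟨w, -, rfl⟩ := Finset.mem_map.1 hv'
    exact w.2
  · have hmem : ∀ x : ((t₁ : Set S) : Type _),
        (x.1.1 : V) ∈ ((t₁.map (Function.Embedding.subtype _) : Finset V) : Set V) := by
      intro x
      have : (x.1.1 : V) ∈ t₁.map (Function.Embedding.subtype _) :=
        Finset.mem_map.2 ⟨x.1, by exact_mod_cast x.2, rfl⟩
      exact_mod_cast this
    let φ : ((G.induce S).induce (t₁ : Set S)) →g
        G.induce ((t₁.map (Function.Embedding.subtype _) : Finset V) : Set V) :=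
      { toFun := fun x => ⟨x.1.1, hmem x⟩
        map_rel' := fun {a b} h => h }
    refine h2.map φ ?_
    rintro ⟨v, hv⟩
    have hv' : v ∈ t₁.map (Function.Embedding.subtype _) := by exact_mod_cast hv
    obtain ⟨w, hw, rfl⟩ := Finset.mem_map.1 hv'
    exact ⟨⟨w, by exact_mod_cast hw⟩, rfl⟩

/-- Minors transfer along maps injective and edge preserving on the relevant set. -/
theorem MinorIn.map {G : SimpleGraph V} {G' : SimpleGraph V'} {X : Set V} {X' : Set V'}
    {H : SimpleGraph W} (h : MinorIn G X H) (φ : V → V') (hinj : InjOn φ X)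
    (hadj : ∀ x ∈ X, ∀ y ∈ X, G.Adj x y → G'.Adj (φ x) (φ y)) (hX : ∀ x ∈ X, φ x ∈ X') :
    MinorIn G' X' H := by
  obtain ⟨f, h1, h2, h3, h4⟩ := h
  refine ⟨fun w => φ '' f w, ?_, ?_, ?_, ?_⟩
  · rintro w _ ⟨x, hx, rfl⟩
    exact hX x (h1 w hx)
  · intro w
    let ψ : G.induce (f w) →g G'.induce (φ '' f w) :=
      { toFun := fun x => ⟨φ x.1, x.1, x.2, rfl⟩
        map_rel' := fun {a b} hab => hadj a.1 (h1 w a.2) b.1 (h1 w b.2) hab }
    refine (h2 w).map ψ ?_
    rintro ⟨_, x, hx, rfl⟩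
    exact ⟨⟨x, hx⟩, rfl⟩
  · intro a b hab
    rw [Set.disjoint_left]
    rintro _ ⟨x, hx, rfl⟩ ⟨y, hy, hxy⟩
    have : y = x := hinj (h1 b hy) (h1 a hx) hxy
    subst this
    exact Set.disjoint_left.1 (h3 hab) hx hy
  · intro a b hab
    obtain ⟨x, hx, y, hy, hxy⟩ := h4 a b hab
    exact ⟨φ x, ⟨x, hx, rfl⟩, φ y, ⟨y, hy, rfl⟩, hadj x (h1 a hx) y (h1 b hy) hxy⟩

/-- A minor of finite order lives in a finite set. -/
theorem MinorIn.finite [Finite W] {G : SimpleGraph V} {X : Set V} {H : SimpleGraph W}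
    (h : MinorIn G X H) : ∃ Y : Finset V, (Y : Set V) ⊆ X ∧ MinorIn G (Y : Set V) H := by
  classical
  obtain ⟨f, h1, h2, h3, h4⟩ := h
  have hne : ∀ w, (f w).Nonempty := fun w => by
    obtain ⟨r⟩ := (h2 w).nonempty
    exact ⟨r.1, r.2⟩
  choose r hr using hne
  have hx : ∀ a b, ∃ x y, x ∈ f a ∧ y ∈ f b ∧ (H.Adj a b → G.Adj x y) := by
    intro a b
    by_cases hab : H.Adj a b
    · obtain ⟨x, hx, y, hy, hxy⟩ := h4 a b hab
      exact ⟨x, y, hx, hy, fun _ => hxy⟩
    · exact ⟨r a, r b, hr a, hr b, fun h => absurd h hab⟩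
  choose x y hx hy hxy using hx
  have := Fintype.ofFinite W
  set t : W → Finset V := fun a =>
    (Finset.univ.image fun b => x a b) ∪ (Finset.univ.image fun b => y b a) with ht
  have htf : ∀ a, ((t a : Finset V) : Set V) ⊆ f a := by
    intro a v hv
    have hv' : v ∈ t a := by exact_mod_cast hv
    rw [ht] at hv'
    simp only [Finset.mem_union, Finset.mem_image, Finset.mem_univ, true_and] at hv'
    rcases hv' with ⟨b, rfl⟩ | ⟨b, rfl⟩
    · exact hx a b
    · exact hy b a
  have hex := fun a => exists_finite_conn (h2 a) (t a) (htf a)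
  choose F hF1 hF2 hF3 using hex
  refine ⟨Finset.univ.biUnion F, ?_, fun a => (F a : Set V), ?_, hF3, ?_, ?_⟩
  · intro v hv
    have hv' : v ∈ Finset.univ.biUnion F := by exact_mod_cast hv
    obtain ⟨a, -, ha⟩ := Finset.mem_biUnion.1 hv'
    exact h1 a (hF2 a (by exact_mod_cast ha))
  · intro a v hv
    have : v ∈ Finset.univ.biUnion F :=
      Finset.mem_biUnion.2 ⟨a, Finset.mem_univ a, by exact_mod_cast hv⟩
    exact_mod_cast this
  · intro a b hab
    exact (h3 hab).mono (hF2 a) (hF2 b)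
  · intro a b hab
    refine ⟨x a b, ?_, y a b, ?_, hxy a b hab⟩
    · have : x a b ∈ F a := hF1 a (by
        rw [ht]
        simp only [Finset.mem_union, Finset.mem_image, Finset.mem_univ, true_and]
        exact Or.inl ⟨b, rfl⟩)
      exact_mod_cast this
    · have : y a b ∈ F b := hF1 b (by
        rw [ht]
        simp only [Finset.mem_union, Finset.mem_image, Finset.mem_univ, true_and]
        exact Or.inr ⟨a, rfl⟩)
      exact_mod_cast this

/-- Quasi-isometry with constant `C`. -/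
def QI (G : SimpleGraph V) (G' : SimpleGraph V') (q : V → V') (C : ℕ) : Prop :=
  (∀ x y, G'.dist (q x) (q y) ≤ C * G.dist x y + C ∧
          G.dist x y ≤ C * G'.dist (q x) (q y) + C) ∧
    ∀ z, ∃ x, G'.dist z (q x) ≤ C

end Run7.h926
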