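import Pool.Agent.Run7.h926.EndTools

set_option autoImplicit false

/-!
# Inaccessible pieces
-/

namespace Run7.h926

open Set Opposite Filter

variable {V : Type*} {G : SimpleGraph V}

/-- `G` is not accessible. -/
def Inacc (G : SimpleGraph V) : Prop :=
  ∀ n : ℕ, ∃ ω₁ ω₂ : G.end, ω₁ ≠ ω₂ ∧
    ∀ K : Finset V, K.card ≤ n → ω₁.val (op K) = ω₂.val (op K)

theorem fam_sep_lt (hG : G.Connected) {lev : ℕ} {p q : Set V → Prop} (hp : IsPt G p)
    (hq : IsPt G q) {A : Set V} (hA : (bd G A).Finite) (hs : ¬ (p A ↔ q A))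
    (hlt : (bd G A).ncard < lev) : ∃ B ∈ Fam G lev, ¬ (p B ↔ q B) := by
  obtain ⟨k, B, hB, ho⟩ := fam_opt hG hp hq hA hs
  have h1 := ho.le A hA hs
  exact ⟨B, fam_mono (by omega) (mem_fam_succ hB), ho.sep⟩

/-- Ends which are not separated by few vertices have the same orientation. -/
theorem ori_eq_of_close (hG : G.Connected) {lev : ℕ} {ω₁ ω₂ : G.end}
    (h : ∀ K : Finset V, K.card ≤ 2 * lev → ω₁.val (op K) = ω₂.val (op K)) :
    ori (Fam G lev) ω₁ = ori (Fam G lev) ω₂ := by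
  have key : ∀ ω₁ ω₂ : G.end, (∀ K : Finset V, K.card ≤ 2 * lev → ω₁.val (op K) = ω₂.val (op K)) →
      ∀ A ∈ Fam G lev, endPt ω₁ A → endPt ω₂ A := by
    intro ω₁ ω₂ h A hA h1
    by_contra h2
    obtain ⟨j, hj, hAj⟩ := (fam_good hG lev).opt A hA
    have hfin : (bd G A).Finite := (fam_nfam hG lev).fin A hA
    have h2' := (endPt_compl_iff ω₂ hfin).2 h2
    have hcf := cutVerts_finite hfin
    refine ne_of_cut h1 h2' (K := hcf.toFinset) (by simp) (h _ ?_)
    rw [← ncard_eq_toFinset_card _ hcf]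
    have := cutVerts_ncard_le hfin
    have h3 : (bd G A).ncard = j := hAj.1
    omega
  ext A
  constructor
  · rintro ⟨hA, h1⟩
    exact ⟨hA, key _ _ h A hA h1⟩
  · rintro ⟨hA, h1⟩
    exact ⟨hA, key _ _ (fun K hK => (h K hK).symm) A hA h1⟩

/-- Translating ends: behaviour on cuts and on separation. -/
theorem map_end_facts {ω ω' : G.end} {g : G ≃g G}
    (hω : ∀ K : Finset V, ∀ L : Finset V, (∀ x, x ∈ L ↔ g x ∈ K) → ∀ x ∈ side ω L, g x ∈ side ω' K)
    {A : Set V} (hA : (bd G A).Finite) : endPt ω' A ↔ endPt ω (g ⁻¹' A) := by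
  classical
  have key : ∀ A : Set V, (bd G A).Finite → endPt ω (g ⁻¹' A) → endPt ω' A := by
    intro A hA h
    by_contra hno
    obtain ⟨K₁, hK₁⟩ := (endPt_compl_iff ω' hA).2 hno
    obtain ⟨K', hK'⟩ := h
    set K := K₁ ∪ K'.image g with hK
    set L := K.image g.symm with hL
    have hLK : ∀ x, x ∈ L ↔ g x ∈ K := by
      intro x
      rw [hL, Finset.mem_image]
      constructor
      · rintro ⟨y, hy, rfl⟩
        simpa using hy
      · intro h
        exact ⟨g x, h, by simp⟩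
    obtain ⟨y, hy⟩ := side_nonempty ω L
    have h1 := hω K L hLK y hy
    have h2 : g y ∈ Aᶜ := hK₁ (side_anti ω' (by rw [hK]; exact Finset.subset_union_left) h1)
    have h3 : K' ⊆ L := by
      intro x hx
      rw [hLK, hK]
      exact Finset.mem_union_right _ (Finset.mem_image_of_mem g hx)
    exact h2 (hK' (side_anti ω h3 hy))
  refine ⟨fun h => ?_, key A hA⟩
  by_contra hno
  have hfin := bd_preimage_finite g hA
  have h1 := (endPt_compl_iff ω hfin).2 hno
  have h2 := key Aᶜ (bd_compl_finite G hA) h1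
  exact endPt_not_both ω' h h2

theorem map_end_sep {ω₁ ω₂ ω₁' ω₂' : G.end} {g : G ≃g G}
    (h1 : ∀ K : Finset V, ∀ L : Finset V, (∀ x, x ∈ L ↔ g x ∈ K) →
      ∀ x ∈ side ω₁ L, g x ∈ side ω₁' K)
    (h2 : ∀ K : Finset V, ∀ L : Finset V, (∀ x, x ∈ L ↔ g x ∈ K) →
      ∀ x ∈ side ω₂ L, g x ∈ side ω₂' K) {K L : Finset V} (hKL : ∀ x, x ∈ L ↔ g x ∈ K) :
    ω₁.val (op L) = ω₂.val (op L) ↔ ω₁'.val (op K) = ω₂'.val (op K) := by
  constructor
  · intro h
    obtain ⟨y, hy⟩ := side_nonempty ω₁ L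
    have hy' := hy
    rw [side_eq_of_val h] at hy'
    exact val_eq_of_common (h1 K L hKL y hy) (h2 K L hKL y hy')
  · intro h
    obtain ⟨x, hx⟩ := side_nonempty ω₁ L
    obtain ⟨y, hy⟩ := side_nonempty ω₂ L
    have hx' := h1 K L hKL x hx
    have hy' := h2 K L hKL y hy
    rw [← side_eq_of_val h] at hy'
    obtain ⟨p, hp⟩ := side_walk ω₁' K hx' hy'
    have hq : ∀ z ∈ (p.map g.symm.toHom).support, z ∉ L := by
      intro z hz hzL
      rw [SimpleGraph.Walk.support_map] at hz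
      obtain ⟨w, hw, rfl⟩ := List.mem_map.1 hz
      rw [hKL] at hzL
      have e : g (g.symm.toHom w) = w := g.apply_symm_apply w
      rw [e] at hzL
      exact hp w hw hzL
    have e1 : g.symm.toHom (g x) = x := g.symm_apply_apply x
    have e2 : g.symm.toHom (g y) = y := g.symm_apply_apply y
    have h3 := side_of_walk ω₁ L (x := g.symm.toHom (g x)) (by rw [e1]; exact hx)
      (p.map g.symm.toHom) hq
    rw [e2] at h3
    exact val_eq_of_common h3 hy

/-- A single orientation carrying pairs of ends of unbounded connectivity. -/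
theorem exists_block (hG : G.Connected) (hf : ∀ v, (G.neighborSet v).Finite)
    (hS : ∃ S : Finset V, ∀ v : V, ∃ s ∈ S, ∃ φ : G ≃g G, φ s = v) (hI : Inacc G) (lev : ℕ) :
    ∃ o : Set (Set V), Ori (Fam G lev) o ∧ ∀ n : ℕ, ∃ ω₁ ω₂ : G.end, ω₁ ≠ ω₂ ∧
      ori (Fam G lev) ω₁ = o ∧ ori (Fam G lev) ω₂ = o ∧
      ∀ K : Finset V, K.card ≤ n → ω₁.val (op K) = ω₂.val (op K) := by
  classical
  have hF := fam_nfam hG lev
  have hI' : ∀ n : ℕ, ∃ ω₁ ω₂ : G.end, ω₁ ≠ ω₂ ∧
      ∀ K : Finset V, K.card ≤ max n (2 * lev) → ω₁.val (op K) = ω₂.val (op K) := fun n => hI _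
  choose ω₁ ω₂ hne hω using hI'
  have hori : ∀ n, ori (Fam G lev) (ω₁ n) = ori (Fam G lev) (ω₂ n) := fun n =>
    ori_eq_of_close hG fun K hK => hω n K (hK.trans (le_max_right _ _))
  have hOri : ∀ n, Ori (Fam G lev) (ori (Fam G lev) (ω₁ n)) := fun n =>
    ori_of_end hG hF (hne n) (hori n)
  have hx : ∀ n, ∃ x, x ∈ blk G (ori (Fam G lev) (ω₁ n)) := fun n => by
    obtain ⟨x, hx, -⟩ := blk_adherent hG hF (hOri n) ∅
    exact ⟨x, hx⟩
  choose x hx using hx
  obtain ⟨S, hS⟩ := hS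
  have hS' : ∀ n, ∃ (s : V) (φ : G ≃g G), s ∈ S ∧ φ s = x n := fun n => by
    obtain ⟨s, hs, φ, h⟩ := hS (x n)
    exact ⟨s, φ, hs, h⟩
  choose s φ hs hφ using hS'
  have hfin := sigs_finite hf hF S.finite_toSet
  have : Finite (sigs G (Fam G lev) (S : Set V)) := hfin.to_subtype
  let σ : ℕ → sigs G (Fam G lev) (S : Set V) := fun n =>
    ⟨sig G (Fam G lev) (ori (Fam G lev) (ω₁ n)) (s n) (φ n), sig_mem (by exact_mod_cast hs n) _⟩
  obtain ⟨τ, hτ⟩ := Finite.exists_infinite_fiber σ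
  have hinf : (σ ⁻¹' {τ}).Infinite := Set.infinite_coe_iff.1 hτ
  obtain ⟨m, hm⟩ := hinf.nonempty
  refine ⟨ori (Fam G lev) (ω₁ m), hOri m, fun n => ?_⟩
  obtain ⟨n', hn', hnn'⟩ := hinf.exists_gt n
  have hsig : sig G (Fam G lev) (ori (Fam G lev) (ω₁ n')) (s n') (φ n') =
      sig G (Fam G lev) (ori (Fam G lev) (ω₁ m)) (s m) (φ m) :=
    congrArg Subtype.val ((show σ n' = τ from hn').trans (show σ m = τ from hm).symm)
  obtain ⟨hmatch, -⟩ := sig_match hF (hOri n') (hOri m) (by rw [hφ]; exact hx n')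
    (by rw [hφ]; exact hx m) hsig
  set g := (φ n').symm.trans (φ m) with hg
  obtain ⟨α, hα⟩ := exists_map_end (ω₁ n') g
  obtain ⟨β, hβ⟩ := exists_map_end (ω₂ n') g
  have hpre : ∀ K : Finset V, ∃ L : Finset V, L.card ≤ K.card ∧ ∀ x, x ∈ L ↔ g x ∈ K := by
    intro K
    refine ⟨K.image g.symm, Finset.card_image_le, fun x => ?_⟩
    rw [Finset.mem_image]
    constructor
    · rintro ⟨y, hy, rfl⟩
      simpa using hy
    · intro h
      exact ⟨g x, h, by simp⟩
  refine ⟨α, β, ?_, ?_, ?_, ?_⟩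
  · intro hαβ
    obtain ⟨L, hL⟩ : ∃ L : Finset V, (ω₁ n').val (op L) ≠ (ω₂ n').val (op L) := by
      by_contra hno
      push Not at hno
      exact hne n' (Subtype.ext (funext fun K => hno K.unop))
    apply hL
    have hKL : ∀ x, x ∈ L ↔ g x ∈ L.image g := by
      intro x
      rw [Finset.mem_image]
      constructor
      · intro h; exact ⟨x, h, rfl⟩
      · rintro ⟨y, hy, hxy⟩
        rwa [← g.injective hxy]
    rw [map_end_sep hα hβ hKL, hαβ]
  · ext A
    constructor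
    · rintro ⟨hA, h⟩
      exact (hmatch A hA).2 ⟨hF.inv g A hA, (map_end_facts hα (hF.fin A hA)).1 h⟩
    · intro h
      have hA : A ∈ Fam G lev := h.1
      exact ⟨hA, (map_end_facts hα (hF.fin A hA)).2 ((hmatch A hA).1 h).2⟩
  · ext A
    constructor
    · rintro ⟨hA, h⟩
      refine (hmatch A hA).2 ?_
      rw [hori n']
      exact ⟨hF.inv g A hA, (map_end_facts hβ (hF.fin A hA)).1 h⟩
    · intro h
      have hA : A ∈ Fam G lev := h.1
      have h1 := (hmatch A hA).1 h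
      rw [hori n'] at h1
      exact ⟨hA, (map_end_facts hβ (hF.fin A hA)).2 h1.2⟩
  · intro K hK
    obtain ⟨L, hLc, hL⟩ := hpre K
    rw [← map_end_sep hα hβ hL]
    refine hω n' L ?_
    have := le_max_left n' (2 * lev)
    omega

/-- The near set of `L` in a block. -/
theorem exists_near (hG : G.Connected) (hf : ∀ v, (G.neighborSet v).Finite) (r : ℕ)
    (s : Set V) (L : Finset V) :
    ∃ K : Finset s, ∀ x : s, x ∈ K ↔ ∃ l ∈ L, G.dist x.1 l ≤ r := by
  classical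
  have hfin : {x : s | ∃ l ∈ L, G.dist x.1 l ≤ r}.Finite := by
    have h1 : Subtype.val '' {x : s | ∃ l ∈ L, G.dist x.1 l ≤ r} ⊆
        ⋃ l ∈ (L : Set V), {y | G.dist l y ≤ r} := by
      rintro _ ⟨x, ⟨l, hl, h⟩, rfl⟩
      simp only [mem_iUnion]
      exact ⟨l, by exact_mod_cast hl, by rwa [mem_ofPred_eq, SimpleGraph.dist_comm]⟩
    exact Finite.of_finite_image ((L.finite_toSet.biUnion fun l _ =>
      ball_finite hG hf r l).subset h1) Subtype.val_injective.injOn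
  exact ⟨hfin.toFinset, fun x => by simp⟩

/-- The block graph is inaccessible. -/
theorem bg_inacc (hG : G.Connected) (hf : ∀ v, (G.neighborSet v).Finite) {F o : Set (Set V)}
    (hF : NFam G F) (ho : Ori F o) {r : ℕ} (hr : Scale G F r)
    (hpairs : ∀ n : ℕ, ∃ ω₁ ω₂ : G.end, ω₁ ≠ ω₂ ∧ ori F ω₁ = o ∧ ori F ω₂ = o ∧
      ∀ K : Finset V, K.card ≤ n → ω₁.val (op K) = ω₂.val (op K)) : Inacc (bg G r o) := by
  classical
  intro n
  obtain ⟨ω₁, ω₂, hne, h1, h2, hK⟩ := hpairs n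
  have hadh1 : ∀ L : Finset V, (blk G o ∩ side ω₁ L).Nonempty := fun L => by
    have := blk_adherent hG hF (ω := ω₁) (by rw [h1]; exact ho) L
    rwa [h1] at this
  have hadh2 : ∀ L : Finset V, (blk G o ∩ side ω₂ L).Nonempty := fun L => by
    have := blk_adherent hG hF (ω := ω₂) (by rw [h2]; exact ho) L
    rwa [h2] at this
  obtain ⟨η₁, hη₁⟩ := exists_end_down hF ho hr ω₁ hadh1
  obtain ⟨η₂, hη₂⟩ := exists_end_down hF ho hr ω₂ hadh2
  have himg : ∀ (K : Finset (blk G o)) x, x ∈ K.image Subtype.val ↔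
      ∃ h : x ∈ blk G o, (⟨x, h⟩ : blk G o) ∈ K := by
    intro K x
    rw [Finset.mem_image]
    constructor
    · rintro ⟨z, hz, rfl⟩
      exact ⟨z.2, hz⟩
    · rintro ⟨h, hK⟩
      exact ⟨⟨x, h⟩, hK, rfl⟩
  refine ⟨η₁, η₂, ?_, ?_⟩
  · intro heq
    obtain ⟨L, hL⟩ : ∃ L : Finset V, ω₁.val (op L) ≠ ω₂.val (op L) := by
      by_contra hno
      push Not at hno
      exact hne (Subtype.ext (funext fun K => hno K.unop))
    obtain ⟨K, hKn⟩ := exists_near hG hf r (blk G o) L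
    obtain ⟨x, hx, hx'⟩ := hadh1 (K.image Subtype.val ∪ L)
    obtain ⟨y, hy, hy'⟩ := hadh2 (K.image Subtype.val ∪ L)
    have hxη : (⟨x, hx⟩ : blk G o) ∈ side η₁ K :=
      hη₁ K _ (himg K) _ (side_anti ω₁ Finset.subset_union_left hx')
    have hyη : (⟨y, hy⟩ : blk G o) ∈ side η₁ K := by
      rw [heq]
      exact hη₂ K _ (himg K) _ (side_anti ω₂ Finset.subset_union_left hy')
    obtain ⟨p, hp⟩ := side_walk η₁ K hxη hyη
    obtain ⟨p', hp'⟩ := lift_walk hG (r := r) L p fun z hz l hl => by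
      by_contra h
      push Not at h
      exact hp z hz ((hKn z).2 ⟨l, hl, h⟩)
    have h3 := side_of_walk ω₁ L (side_anti ω₁ Finset.subset_union_right hx') p' hp'
    exact hL (val_eq_of_common h3 (side_anti ω₂ Finset.subset_union_right hy'))
  · intro K hKc
    have hc : (K.image Subtype.val).card ≤ n := Finset.card_image_le.trans hKc
    have h3 := hK _ hc
    obtain ⟨x, hx, hx'⟩ := hadh1 (K.image Subtype.val)
    have hx'' := hx'
    rw [side_eq_of_val h3] at hx''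
    exact val_eq_of_common (hη₁ K _ (himg K) ⟨x, hx⟩ hx') (hη₂ K _ (himg K) ⟨x, hx⟩ hx'')

/-- No two ends of the block graph are separated by few vertices. -/
theorem bg_insep (hG : G.Connected) (hf : ∀ v, (G.neighborSet v).Finite) {lev : ℕ}
    {o : Set (Set V)} (ho : Ori (Fam G lev) o) {r : ℕ} (hr : Scale G (Fam G lev) r) {k Δ : ℕ}
    (hΔ : ∀ v, (G.neighborSet v).ncard ≤ Δ) (hlev : k * Δ < lev) (η₁ η₂ : (bg G r o).end)
    (K : Finset (blk G o)) (hK : K.card ≤ k) : η₁.val (op K) = η₂.val (op K) := by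
  classical
  have hF := fam_nfam hG lev
  by_contra hne
  obtain ⟨ω₁, hω₁⟩ := exists_end_up hG hf η₁
  obtain ⟨ω₂, hω₂⟩ := exists_end_up hG hf η₂
  -- ends coming from the block live in every member of the orientation
  have hlive : ∀ (η : (bg G r o).end) (ω : G.end), (∀ L : Finset V, ∀ K : Finset (blk G o),
      (∀ x : blk G o, x ∈ K ↔ ∃ l ∈ L, G.dist x.1 l ≤ r) →
      ∀ x ∈ side η K, x.1 ∈ side ω L) → ∀ A ∈ o, endPt ω A := by
    intro η ω hω A hA
    have hAfin := hF.fin A (ho.sub hA)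
    by_contra hno
    obtain ⟨L₁, hL₁⟩ := (endPt_compl_iff ω hAfin).2 hno
    set L := L₁ ∪ (cutVerts_finite hAfin).toFinset with hL
    obtain ⟨K', hK'⟩ := exists_near hG hf r (blk G o) L
    obtain ⟨x, hx⟩ := side_nonempty η K'
    have h1 := hω L K' hK' x hx
    have h2 : x.1 ∉ A := hL₁ (side_anti ω (by rw [hL]; exact Finset.subset_union_left) h1)
    have h3 : x.1 ∉ cutVerts G A := by
      intro h
      refine side_notMem ω L h1 ?_
      rw [hL]
      exact Finset.mem_union_right _ (by simpa using h)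
    rcases x.2 A hA with h4 | ⟨u, hu, hux⟩
    · exact h2 h4
    · exact h3 ⟨u, hux.symm, iff_of_false h2 (fun h => h hu)⟩
  set L := K.image Subtype.val with hL
  have hLc : L.card ≤ k := Finset.card_image_le.trans hK
  obtain ⟨K₁, hK₁⟩ := exists_near hG hf r (blk G o) L
  have hKK₁ : K ⊆ K₁ := by
    intro x hx
    rw [hK₁]
    exact ⟨x.1, by rw [hL]; exact Finset.mem_image_of_mem _ hx, by simp⟩
  have hsep : ω₁.val (op L) ≠ ω₂.val (op L) := by
    intro heq
    obtain ⟨x, hx⟩ := side_nonempty η₁ K₁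
    obtain ⟨y, hy⟩ := side_nonempty η₂ K₁
    have hx' := hω₁ L K₁ hK₁ x hx
    have hy' := hω₂ L K₁ hK₁ y hy
    rw [← side_eq_of_val heq] at hy'
    obtain ⟨p, hp⟩ := side_walk ω₁ L hx' hy'
    obtain ⟨p', -, hp'⟩ := blk_short hF ho hr p x.2 y.2
    have h1 := side_of_walk η₁ K (side_anti η₁ hKK₁ hx) p' fun z hz hzK => hp z.1 (hp' z hz) (by
      rw [hL]; exact Finset.mem_image_of_mem _ hzK)
    exact hne (val_eq_of_common h1 (side_anti η₂ hKK₁ hy))
  obtain ⟨B, hB, hB1, hB2, hBc⟩ := exists_small_cut hf hΔ hsep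
  have hs : ¬ (endPt ω₁ B ↔ endPt ω₂ B) := by
    rw [endPt_compl_iff ω₂ hB] at hB2
    tauto
  have hlt : (bd G B).ncard < lev :=
    lt_of_le_of_lt (hBc.trans (Nat.mul_le_mul_right _ hLc)) hlev
  obtain ⟨A, hA, hAs⟩ := fam_sep_lt hG (endPt_isPt ω₁) (endPt_isPt ω₂) hB hs hlt
  rcases ho.tot A hA with h | h
  · exact hAs (iff_of_true (hlive η₁ ω₁ hω₁ A h) (hlive η₂ ω₂ hω₂ A h))
  · have h1 := hlive η₁ ω₁ hω₁ _ h
    have h2 := hlive η₂ ω₂ hω₂ _ h
    rw [endPt_compl_iff _ (hF.fin A hA)] at h1 h2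
    exact hAs (iff_of_false h1 h2)

end Run7.h926
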