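import Pool.Agent.Run7.h926.Thin

set_option autoImplicit false

/-!
# Recurrence of minors in graphs quasi-isometric to quasi-transitive graphs
-/

namespace Run7.h926

open Set

theorem exists_far {V : Type} {G : SimpleGraph V} [Infinite V] (hG : G.Connected)
    (hf : ∀ v, (G.neighborSet v).Finite) (x : V) (r : ℕ) : ∃ z, r < G.dist x z := by
  by_contra h
  push Not at h
  exact Set.infinite_univ ((ball_finite hG hf r x).subset fun z _ => h z)

theorem exists_far' {V V' : Type} {G : SimpleGraph V} {G' : SimpleGraph V'} [Infinite V]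
    (hG : G.Connected) (hf : ∀ v, (G.neighborSet v).Finite) (hG' : G'.Connected) {q : V → V'}
    {C : ℕ} (hq : QI G G' q C) (y : V') (L : ℕ) : ∃ z, L ≤ G'.dist y z := by
  obtain ⟨x, hx⟩ := hq.2 y
  obtain ⟨z, hz⟩ := exists_far hG hf x (C * (L + C) + C)
  refine ⟨q z, ?_⟩
  have h1 := (hq.1 x z).2
  have h2 : C * (L + C) < C * G'.dist (q x) (q z) := by omega
  have h3 : L + C < G'.dist (q x) (q z) := lt_of_mul_lt_mul_left h2 (Nat.zero_le C)
  have h4 := hG'.dist_triangle (u := q x) (v := y) (w := q z)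
  rw [SimpleGraph.dist_comm (u := q x) (v := y)] at h4
  omega

theorem geodesic_dist {V' : Type} {G' : SimpleGraph V'} (hG' : G'.Connected) {a b : V'}
    (p : G'.Walk a b) (hp : p.length = G'.dist a b) {i j : ℕ} (hij : i ≤ j) (hj : j ≤ p.length) :
    j - i ≤ G'.dist (p.getVert i) (p.getVert j) ∧ G'.dist a (p.getVert i) ≤ i := by
  have h1 : ∀ i, G'.dist a (p.getVert i) ≤ i := by
    intro i
    refine (SimpleGraph.dist_le (p.take i)).trans ?_
    rw [SimpleGraph.Walk.take_length]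
    exact min_le_left _ _
  have h2 : G'.dist (p.getVert j) b ≤ p.length - j := by
    refine (SimpleGraph.dist_le (p.drop j)).trans ?_
    rw [SimpleGraph.Walk.drop_length]
  have h3 := hG'.dist_triangle (u := a) (v := p.getVert i) (w := b)
  have h4 := hG'.dist_triangle (u := p.getVert i) (v := p.getVert j) (w := b)
  have h5 := h1 i
  refine ⟨?_, h1 i⟩
  omega

/-- The recurrence theorem. -/
theorem recurrence {V : Type} {G : SimpleGraph V} [Infinite V] (hG : G.Connected)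
    (hf : ∀ v, (G.neighborSet v).Finite)
    (hS : ∃ S : Finset V, ∀ v : V, ∃ s ∈ S, ∃ φ : G ≃g G, φ s = v) {V' : Type}
    {G' : SimpleGraph V'} (hG' : G'.Connected) {q : V → V'} {C : ℕ} (hq : QI G G' q C)
    {J : Type} [Finite J] {ι : J → Type} {W : ∀ j, ι j → Type} [∀ j i, Finite (W j i)]
    (H : ∀ j i, SimpleGraph (W j i))
    (hno : ∀ R : ℕ, ∃ y : V', ¬ ∃ X : J → Set V', (∀ j, ∀ z ∈ X j, G'.dist y z ≤ R) ∧
      Pairwise (fun a b => Disjoint (X a) (X b)) ∧ ∀ j, ∃ i, MinorIn G' (X j) (H j i)) :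
    ∃ j : J, ∃ (V'' : Type) (G'' : SimpleGraph V''), G''.Connected ∧
      (∃ D : ℕ, ∀ v, (G''.neighborSet v).Finite ∧ (G''.neighborSet v).ncard ≤ D) ∧
      (∃ (q'' : V → V'') (C'' : ℕ), QI G G'' q'' C'') ∧ ∀ i, ¬ MinorIn G'' univ (H j i) := by
  classical
  by_contra hcon
  push Not at hcon
  -- every ball of some radius contains a minor of each family
  have hrec : ∀ j, ∃ R : ℕ, ∀ y : V', ∃ i, MinorIn G' {z | G'.dist y z ≤ R} (H j i) := by
    intro j
    by_contra hR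
    push Not at hR
    choose y hy using hR
    obtain ⟨V₂, G₂, hG₂, ⟨q₂, hq₂⟩, hmin₂⟩ := limit_qi hG hf hS hG' hq y
    obtain ⟨V₃, G₃, hG₃, hD, ⟨q₃, C₃, hq₃⟩, f, hfinj, hfadj⟩ := thin hG hf hS hG₂ hq₂
    obtain ⟨i, hi⟩ := hcon j V₃ G₃ hG₃ hD ⟨q₃, C₃, hq₃⟩
    have h1 : MinorIn G₂ univ (H j i) :=
      hi.map f hfinj.injOn (fun x _ y _ h => hfadj x y h) (fun x _ => mem_univ _)
    obtain ⟨n, hn⟩ := hmin₂ (W j i) (H j i) h1
    exact hy n i hn
  choose R hR using hrec
  have := Fintype.ofFinite J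
  set R₀ : ℕ := Finset.univ.sup R with hR₀
  have hRle : ∀ j, R j ≤ R₀ := fun j => Finset.le_sup (f := R) (Finset.mem_univ j)
  set e := Fintype.equivFin J with he
  set n := Fintype.card J with hn
  obtain ⟨y, hy⟩ := hno (n * (2 * R₀ + 1) + R₀)
  apply hy
  obtain ⟨y', hy'⟩ := exists_far' hG hf hG' hq y (n * (2 * R₀ + 1))
  obtain ⟨p, hp⟩ := hG'.exists_walk_length_eq_dist y y'
  have hidx : ∀ j, (e j : ℕ) * (2 * R₀ + 1) ≤ n * (2 * R₀ + 1) := fun j =>
    Nat.mul_le_mul_right _ (e j).2.le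
  set z : J → V' := fun j => p.getVert ((e j : ℕ) * (2 * R₀ + 1)) with hz
  have hzy : ∀ j, G'.dist y (z j) ≤ n * (2 * R₀ + 1) := by
    intro j
    have h1 := (geodesic_dist hG' p hp (le_refl ((e j : ℕ) * (2 * R₀ + 1)))
      (by rw [hp]; exact (hidx j).trans hy')).2
    exact h1.trans (hidx j)
  have hsep : ∀ a b, (e a : ℕ) < e b → 2 * R₀ + 1 ≤ G'.dist (z a) (z b) := by
    intro a b hab
    have h1 := (geodesic_dist hG' p hp (i := (e a : ℕ) * (2 * R₀ + 1))
      (j := (e b : ℕ) * (2 * R₀ + 1)) (Nat.mul_le_mul_right _ hab.le)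
      (by rw [hp]; exact (hidx b).trans hy')).1
    have h2 : ((e a : ℕ) + 1) * (2 * R₀ + 1) ≤ (e b : ℕ) * (2 * R₀ + 1) :=
      Nat.mul_le_mul_right _ hab
    have h3 : ((e a : ℕ) + 1) * (2 * R₀ + 1) = (e a : ℕ) * (2 * R₀ + 1) + (2 * R₀ + 1) := by ring
    have h4 : G'.dist (z a) (z b) = G'.dist (p.getVert ((e a : ℕ) * (2 * R₀ + 1)))
      (p.getVert ((e b : ℕ) * (2 * R₀ + 1))) := rfl
    omega
  refine ⟨fun j => {x | G'.dist (z j) x ≤ R₀}, ?_, ?_, ?_⟩
  · intro j x hx
    have h1 := hG'.dist_triangle (u := y) (v := z j) (w := x)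
    have h2 := hzy j
    have h3 : G'.dist (z j) x ≤ R₀ := hx
    omega
  · intro a b hab
    rw [Set.disjoint_left]
    intro x hxa hxb
    have h1 : G'.dist (z a) x ≤ R₀ := hxa
    have h2 : G'.dist (z b) x ≤ R₀ := hxb
    have h3 := hG'.dist_triangle (u := z a) (v := x) (w := z b)
    rw [SimpleGraph.dist_comm (u := x)] at h3
    rcases lt_trichotomy (e a : ℕ) (e b : ℕ) with h | h | h
    · have := hsep a b h
      omega
    · exact hab (e.injective (Fin.ext h))
    · have := hsep b a h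
      rw [SimpleGraph.dist_comm] at this
      omega
  · intro j
    obtain ⟨i, hi⟩ := hR j (z j)
    exact ⟨i, hi.mono fun x hx => le_trans hx (hRle j)⟩

end Run7.h926
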