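import Pool.Agent.Run7.h926.Piece

set_option autoImplicit false

/-!
# Small separators cut off only boundedly many vertices of a block
-/

namespace Run7.h926

open Set Opposite Filter

variable {V : Type*} {G : SimpleGraph V}

theorem ultra_isPt (U : Ultrafilter V) : IsPt G fun A => A ∈ U := by
  refine ⟨fun A B _ _ => ?_, fun A _ => ?_⟩
  · exact Filter.inter_mem_iff
  · exact Ultrafilter.compl_mem_iff_notMem

theorem hull_diff_finite {A : Set V} (hA : (bd G A).Finite) : (hull G A \ A).Finite := by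
  refine (cutVerts_finite hA).subset ?_
  rintro x ⟨hx | ⟨u, hu, hux⟩, hxA⟩
  · exact absurd hx hxA
  · exact ⟨u, hux.symm, iff_of_false hxA (fun h => h hu)⟩

/-- A small cut not containing the end contains finitely many vertices of the block. -/
theorem blk_inter_finite (hG : G.Connected) {lev : ℕ} {ω : G.end} {U : Set V}
    (hU : (bd G U).Finite) (hlt : (bd G U).ncard < lev) (hω : ¬ endPt ω U) :
    (blk G (ori (Fam G lev) ω) ∩ U).Finite := by
  have hF := fam_nfam hG lev
  by_contra hinf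
  have hinf' : (blk G (ori (Fam G lev) ω) ∩ U).Infinite := hinf
  have hne : (Filter.cofinite ⊓ 𝓟 (blk G (ori (Fam G lev) ω) ∩ U)).NeBot :=
    Filter.cofinite_inf_principal_neBot_iff.2 hinf'
  let W : Ultrafilter V := Ultrafilter.of (Filter.cofinite ⊓ 𝓟 (blk G (ori (Fam G lev) ω) ∩ U))
  have hW : (W : Filter V) ≤ Filter.cofinite ⊓ 𝓟 (blk G (ori (Fam G lev) ω) ∩ U) :=
    Ultrafilter.of_le _
  have hWb : blk G (ori (Fam G lev) ω) ∩ U ∈ W :=
    hW (Filter.mem_inf_of_right (Filter.mem_principal_self _))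
  have hWc : ∀ s : Set V, s.Finite → s ∉ W := by
    intro s hs h
    have h1 : sᶜ ∈ W := hW (Filter.mem_inf_of_left hs.compl_mem_cofinite)
    exact Ultrafilter.compl_mem_iff_notMem.1 h1 h
  have hUW : U ∈ W := Filter.mem_of_superset hWb inter_subset_right
  have hbW : blk G (ori (Fam G lev) ω) ∈ W := Filter.mem_of_superset hWb inter_subset_left
  have hs : ¬ ((fun A => A ∈ W) U ↔ endPt ω U) := by
    intro h
    exact hω (h.1 hUW)
  obtain ⟨A, hA, hAs⟩ := fam_sep_lt hG (ultra_isPt W) (endPt_isPt ω) hU hs hlt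
  have key : ∀ A ∈ Fam G lev, endPt ω A → A ∈ W := by
    intro A hA h
    have h1 : blk G (ori (Fam G lev) ω) ⊆ hull G A := fun x hx => hx A ⟨hA, h⟩
    have h2 : hull G A ∈ W := Filter.mem_of_superset hbW h1
    have h3 : hull G A = A ∪ (hull G A \ A) := by
      rw [union_sdiff_self]
      exact (union_eq_self_of_subset_left (subset_hull A)).symm
    rw [h3] at h2
    rcases Ultrafilter.union_mem_iff.1 h2 with h4 | h4
    · exact h4
    · exact absurd h4 (hWc _ (hull_diff_finite (hF.fin A hA)))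
  apply hAs
  constructor
  · intro h
    by_contra hno
    have h1 := key _ (hF.compl A hA) ((endPt_compl_iff ω (hF.fin A hA)).2 hno)
    exact Ultrafilter.compl_mem_iff_notMem.1 h1 h
  · exact key A hA

/-- Uniform version for bonds. -/
theorem blk_inter_bound (hG : G.Connected) (hf : ∀ v, (G.neighborSet v).Finite)
    (hS : ∃ S : Finset V, ∀ v : V, ∃ s ∈ S, ∃ φ : G ≃g G, φ s = v) {lev : ℕ} {ω : G.end}
    (ho : Ori (Fam G lev) (ori (Fam G lev) ω)) {r : ℕ} (hr : Scale G (Fam G lev) r) (M : ℕ) :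
    ∃ D : ℕ, ∀ U : Set V, Conn G U → Conn G Uᶜ → (bd G U).Finite → (bd G U).ncard ≤ M →
      ¬ endPt ω U → (blk G (ori (Fam G lev) ω) ∩ U).ncard ≤ D := by
  classical
  have hF := fam_nfam hG lev
  obtain ⟨R, hR1, hR2⟩ := bg_quasi_aux hf hS hF ho
  set B := blk G (ori (Fam G lev) ω) with hB
  set 𝒰 : Set (Set V) := ⋃ x ∈ (R : Set V), ⋃ a ∈ {a | G.dist x a ≤ r}, ⋃ b ∈ G.neighborSet a,
    ⋃ j ∈ {j | j < M + 1}, bondsAt G j (a, b) with h𝒰
  have h𝒰f : 𝒰.Finite := R.finite_toSet.biUnion fun x _ =>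
    (ball_finite hG hf r x).biUnion fun a _ => (hf a).biUnion fun b _ =>
      (finite_lt_nat (M + 1)).biUnion fun j _ => bondsAt_finite j G (a, b)
  obtain ⟨D, hD⟩ := (h𝒰f.image fun U => (B ∩ U).ncard).bddAbove
  refine ⟨D, fun U hU1 hU2 hU3 hU4 hω => ?_⟩
  by_cases hne : (B ∩ U).Nonempty
  swap
  · rw [not_nonempty_iff_eq_empty.1 hne]
    simp
  obtain ⟨x, hxB, hxU⟩ := hne
  obtain ⟨L, hL⟩ := (endPt_compl_iff ω hU3).2 hω
  obtain ⟨y, hyB, hyL⟩ := blk_adherent hG hF ho L
  have hyU : y ∉ U := hL hyL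
  obtain ⟨p⟩ := (bg_connected hG hF ho hr ⟨x, hxB⟩).preconnected ⟨x, hxB⟩ ⟨y, hyB⟩
  obtain ⟨d, -, hd1, hd2⟩ := p.exists_boundary_dart {z | z.1 ∈ U} hxU hyU
  have hadj : G.dist d.fst.1 d.snd.1 ≤ r := d.adj.2
  obtain ⟨e, he⟩ := hG.exists_walk_length_eq_dist d.fst.1 d.snd.1
  obtain ⟨c, hc, hc1, hc2⟩ := e.exists_boundary_dart U hd1 hd2
  have hcd : G.dist d.fst.1 c.fst ≤ r := by
    have hmem : c.fst ∈ e.support := e.dart_fst_mem_support_of_mem_darts hc
    refine (SimpleGraph.dist_le (e.takeUntil _ hmem)).trans ?_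
    refine (e.length_takeUntil_le_length hmem).trans ?_
    rw [he]
    exact hadj
  obtain ⟨z, hz, g, hg, hgz⟩ := hR2 d.fst.1 d.fst.2
  have hUg : g ⁻¹' U ∈ 𝒰 := by
    rw [h𝒰]
    simp only [mem_iUnion]
    refine ⟨z, by exact_mod_cast hz, g.symm c.fst, ?_, g.symm c.snd, ?_, (bd G U).ncard, ?_, ?_⟩
    · have h1 := dist_map g hG z (g.symm c.fst)
      rw [hgz, g.apply_symm_apply] at h1
      rw [mem_ofPred_eq, ← h1]
      exact hcd
    · show G.Adj (g.symm c.fst) (g.symm c.snd)
      rw [← g.map_adj_iff, g.apply_symm_apply, g.apply_symm_apply]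
      exact c.adj
    · show _ < M + 1
      omega
    · have hconn : ∀ U : Set V, Conn G U → Conn G (g ⁻¹' U) := by
        rintro U ⟨⟨u, hu⟩, hcl⟩
        refine ⟨⟨g.symm u, by simpa using hu⟩, fun T hT hTne hTcl => ?_⟩
        have h1 : U ⊆ g.symm ⁻¹' T := by
          refine hcl _ ?_ ?_ ?_
          · intro v hv
            have := hT hv
            simpa using this
          · obtain ⟨t, ht⟩ := hTne
            exact ⟨g t, by simpa using ht⟩
          · intro v hv w hw hvw
            refine hTcl _ hv _ ?_ ?_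
            · simpa using hw
            · rw [← g.map_adj_iff]; simpa using hvw
        intro v hv
        have := h1 hv
        simpa using this
      refine ⟨hconn U hU1, ?_, bd_preimage_finite g hU3, bd_preimage_ncard g U, ?_⟩
      · exact hconn _ hU2
      · rw [bd_preimage]
        show (g (g.symm c.fst), g (g.symm c.snd)) ∈ bd G U
        rw [g.apply_symm_apply, g.apply_symm_apply]
        exact ⟨c.adj, hc1, hc2⟩
  have hBg : B ∩ U = g '' (B ∩ g ⁻¹' U) := by
    ext v
    constructor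
    · rintro ⟨hvB, hvU⟩
      refine ⟨g.symm v, ⟨?_, by simpa using hvU⟩, by simp⟩
      rw [hB, blk_map hF ho ho g hg, g.apply_symm_apply]
      exact hvB
    · rintro ⟨w, ⟨hwB, hwU⟩, rfl⟩
      exact ⟨(blk_map hF ho ho g hg w).1 hwB, hwU⟩
  rw [hBg, ncard_image_of_injective _ g.injective]
  exact hD ⟨_, hUg, rfl⟩

/-- Reachability classes outside a side. -/
theorem class_facts (hG : G.Connected) (hf : ∀ v, (G.neighborSet v).Finite) {Δ : ℕ}
    (hΔ : ∀ v, (G.neighborSet v).ncard ≤ Δ) (ω : G.end) (K : Finset V) {x : V}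
    (hx : x ∉ side ω K) :
    ∃ U : Set V, x ∈ U ∧ Conn G U ∧ Conn G Uᶜ ∧ (bd G U).Finite ∧ (bd G U).ncard ≤ K.card * Δ ∧
      ¬ endPt ω U ∧ (∃ u ∈ K, u ∈ U) ∧
      U = {y | ∃ p : G.Walk x y, ∀ z ∈ p.support, z ∉ side ω K} := by
  classical
  set C := side ω K with hC
  set U : V → Set V := fun x => {y | ∃ p : G.Walk x y, ∀ z ∈ p.support, z ∉ C} with hU
  have hself : ∀ x, x ∉ C → x ∈ U x := fun x hx => ⟨SimpleGraph.Walk.nil, by
    intro z hz
    rw [SimpleGraph.Walk.support_nil, List.mem_singleton] at hz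
    rw [hz]; exact hx⟩
  have hout : ∀ x y, y ∈ U x → y ∉ C := by
    rintro x y ⟨p, hp⟩
    exact hp y p.end_mem_support
  have hstep : ∀ x y z, y ∈ U x → G.Adj y z → z ∉ C → z ∈ U x := by
    rintro x y z ⟨p, hp⟩ hyz hz
    refine ⟨p.concat hyz, fun w hw => ?_⟩
    rw [SimpleGraph.Walk.support_concat, List.mem_append,
      List.mem_singleton] at hw
    rcases hw with hw | rfl
    · exact hp w hw
    · exact hz
  have hbdsub : ∀ x, bd G (U x) ⊆ ⋃ u ∈ K, ({u} : Set V) ×ˢ (G.neighborSet u) := by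
    rintro x ⟨u, v⟩ ⟨huv, hu, hv⟩
    have hvC : v ∈ C := by
      by_contra h
      exact hv (hstep x u v hu huv h)
    have huK : u ∈ (K : Set V) := by
      by_contra h
      exact hout x u hu (SimpleGraph.ComponentCompl.mem_of_adj (G := G) (K := (K : Set V)) v u
        hvC h huv.symm)
    simp only [mem_iUnion]
    exact ⟨u, by exact_mod_cast huK, rfl, huv⟩
  have hbigfin : (⋃ u ∈ K, ({u} : Set V) ×ˢ (G.neighborSet u)).Finite :=
    K.finite_toSet.biUnion fun u _ => (finite_singleton u).prod (hf u)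
  have hconn : ∀ x, x ∉ C → Conn G (U x) := by
    intro x hx
    refine ⟨⟨x, hself x hx⟩, fun T hT hTne hTcl => ?_⟩
    have hwalk : ∀ {a b : V} (p : G.Walk a b), (∀ z ∈ p.support, z ∈ U x) → a ∈ T → b ∈ T := by
      intro a b p
      induction p with
      | nil => exact fun _ h => h
      | @cons a c b h p ih =>
        intro hp ha
        refine ih (fun z hz => hp z (by
          rw [SimpleGraph.Walk.support_cons, List.mem_cons]; exact Or.inr hz)) ?_
        exact hTcl a ha c (hp c (by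
          rw [SimpleGraph.Walk.support_cons, List.mem_cons]
          exact Or.inr p.start_mem_support)) h
    have hin : ∀ {a b : V} (p : G.Walk a b), (∀ z ∈ p.support, z ∉ C) → a ∈ U x →
        ∀ z ∈ p.support, z ∈ U x := by
      intro a b p
      induction p with
      | nil =>
        intro _ ha z hz
        rw [SimpleGraph.Walk.support_nil, List.mem_singleton] at hz
        rw [hz]; exact ha
      | @cons a c b h p ih =>
        intro hp ha z hz
        rw [SimpleGraph.Walk.support_cons, List.mem_cons] at hz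
        rcases hz with rfl | hz
        · exact ha
        · refine ih (fun w hw => hp w (by
            rw [SimpleGraph.Walk.support_cons, List.mem_cons]; exact Or.inr hw)) ?_ z hz
          exact hstep x a c ha h (hp c (by
            rw [SimpleGraph.Walk.support_cons, List.mem_cons]
            exact Or.inr p.start_mem_support))
    obtain ⟨t, ht⟩ := hTne
    obtain ⟨pt, hpt⟩ := hT ht
    intro y hy
    obtain ⟨py, hpy⟩ := hy
    have hq : ∀ z ∈ (pt.reverse.append py).support, z ∉ C := by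
      intro z hz
      rw [SimpleGraph.Walk.mem_support_append_iff] at hz
      rcases hz with hz | hz
      · rw [SimpleGraph.Walk.support_reverse, List.mem_reverse] at hz
        exact hpt z hz
      · exact hpy z hz
    exact hwalk _ (hin _ hq (hT ht)) ht
  have hCne : C.Nonempty := side_nonempty ω K
  have hdisj : ∀ x y, y ∉ U x → ∀ z ∈ U y, z ∉ U x := by
    rintro x y hy z ⟨p, hp⟩ ⟨q, hq⟩
    apply hy
    refine ⟨q.append p.reverse, fun w hw => ?_⟩
    rw [SimpleGraph.Walk.mem_support_append_iff] at hw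
    rcases hw with hw | hw
    · exact hq w hw
    · rw [SimpleGraph.Walk.support_reverse, List.mem_reverse] at hw
      exact hp w hw
  have hbdne : ∀ x, x ∉ C → ∃ d ∈ bd G (U x), d.2 ∈ C := by
    intro x hx
    obtain ⟨d, hd⟩ := exists_bd_of_ne hG ⟨x, hself x hx⟩
      (show (U x)ᶜ.Nonempty from hCne.mono fun c hc h => hout x c h hc)
    refine ⟨d, hd, ?_⟩
    by_contra h
    exact hd.2.2 (hstep x d.1 d.2 hd.2.1 hd.1 h)
  have hbdfin : ∀ x, (bd G (U x)).Finite := fun x => hbigfin.subset (hbdsub x)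
  refine ⟨U x, hself x hx, hconn x hx, ?_, hbdfin x, ?_, ?_, ?_, rfl⟩
  · -- the complement is connected
    refine ⟨hCne.mono fun c hc h => hout x c h hc, fun T hT hTne hTcl => ?_⟩
    have hCU : C ⊆ (U x)ᶜ := fun c hc h => hout x c h hc
    have hUU : ∀ y ∈ (U x)ᶜ, y ∉ C → U y ⊆ (U x)ᶜ := fun y hy _ z hz h => hdisj x y hy z hz h
    -- T contains a point of C
    have hTC : ∃ c ∈ C, c ∈ T := by
      obtain ⟨t, ht⟩ := hTne
      by_cases htC : t ∈ C
      · exact ⟨t, htC, ht⟩
      · have h1 : U t ⊆ T := by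
          refine ((hconn t htC).2 (U t ∩ T) inter_subset_left ⟨t, hself t htC, ht⟩ ?_).trans
            inter_subset_right
          rintro a ⟨ha, haT⟩ b hb hab
          exact ⟨hb, hTcl a haT b (hUU t (hT ht) htC hb) hab⟩
        obtain ⟨d, hd, hdC⟩ := hbdne t htC
        exact ⟨d.2, hdC, hTcl d.1 (h1 hd.2.1) d.2 (hCU hdC) hd.1⟩
    obtain ⟨c, hc, hcT⟩ := hTC
    have hCT : C ⊆ T := by
      intro c' hc'
      obtain ⟨p, hp⟩ := side_walk ω K hc hc'
      have hw : ∀ {a b : V} (p : G.Walk a b), (∀ z ∈ p.support, z ∉ K) → a ∈ C → a ∈ T →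
          b ∈ T := by
        intro a b p
        induction p with
        | nil => exact fun _ _ h => h
        | @cons a e b h p ih =>
          intro hp ha haT
          have heK : e ∉ K := hp e (by
            rw [SimpleGraph.Walk.support_cons, List.mem_cons]
            exact Or.inr p.start_mem_support)
          have heC : e ∈ C := SimpleGraph.ComponentCompl.mem_of_adj (G := G) (K := (K : Set V))
            a e ha (fun h => heK (by exact_mod_cast h)) h
          exact ih (fun z hz => hp z (by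
            rw [SimpleGraph.Walk.support_cons, List.mem_cons]; exact Or.inr hz)) heC
            (hTcl a haT e (hCU heC) h)
      exact hw p hp hc hcT
    intro y hy
    by_cases hyC : y ∈ C
    · exact hCT hyC
    · obtain ⟨d, hd, hdC⟩ := hbdne y hyC
      have h1 : d.1 ∈ T := hTcl d.2 (hCT hdC) d.1 (hUU y hy hyC hd.2.1) hd.1.symm
      have h2 : U y ⊆ T := by
        refine ((hconn y hyC).2 (U y ∩ T) inter_subset_left ⟨d.1, hd.2.1, h1⟩ ?_).trans
          inter_subset_right
        rintro a ⟨ha, haT⟩ b hb hab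
        exact ⟨hb, hTcl a haT b (hUU y hy hyC hb) hab⟩
      exact h2 (hself y hyC)
  · refine (ncard_le_ncard (hbdsub x) hbigfin).trans ?_
    have hun : ∀ L : Finset V,
        (⋃ u ∈ L, ({u} : Set V) ×ˢ (G.neighborSet u)).ncard ≤ L.card * Δ := by
      intro L
      induction L using Finset.induction_on with
      | empty => simp
      | insert a L ha ih =>
        rw [Finset.set_biUnion_insert, Finset.card_insert_of_notMem ha]
        refine (ncard_union_le _ _).trans ?_
        have h1 : (({a} : Set V) ×ˢ (G.neighborSet a)).ncard ≤ Δ := by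
          rw [ncard_prod, ncard_singleton, one_mul]
          exact hΔ a
        nlinarith
    exact hun K
  · intro h
    obtain ⟨z, hz, hz'⟩ := endPt_meets ω h K
    exact hout x z hz hz'
  · obtain ⟨d, hd, hdC⟩ := hbdne x hx
    refine ⟨d.1, ?_, hd.2.1⟩
    by_contra h
    exact hout x d.1 hd.2.1 (SimpleGraph.ComponentCompl.mem_of_adj (G := G) (K := (K : Set V))
      d.2 d.1 hdC (fun h' => h (by exact_mod_cast h')) hd.1.symm)

/-- Small separators cut off boundedly many vertices of the block. -/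
theorem blk_outside_bound (hG : G.Connected) (hf : ∀ v, (G.neighborSet v).Finite)
    (hS : ∃ S : Finset V, ∀ v : V, ∃ s ∈ S, ∃ φ : G ≃g G, φ s = v) {lev : ℕ} {ω : G.end}
    (ho : Ori (Fam G lev) (ori (Fam G lev) ω)) {r : ℕ} (hr : Scale G (Fam G lev) r) {M Δ : ℕ}
    (hΔ : ∀ v, (G.neighborSet v).ncard ≤ Δ) (hlev : M * Δ < lev) :
    ∃ D : ℕ, ∀ K : Finset V, K.card ≤ M → (blk G (ori (Fam G lev) ω) \ side ω K).Finite ∧
      (blk G (ori (Fam G lev) ω) \ side ω K).ncard ≤ D := by
  classical
  obtain ⟨D, hD⟩ := blk_inter_bound hG hf hS ho hr (M * Δ)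
  refine ⟨M * D, fun K hK => ?_⟩
  set B := blk G (ori (Fam G lev) ω) with hB
  set U : V → Set V := fun x => {y | ∃ p : G.Walk x y, ∀ z ∈ p.support, z ∉ side ω K} with hU
  have hKC : ∀ u ∈ K, u ∉ side ω K := fun u hu h => side_notMem ω K h hu
  have hcov : B \ side ω K ⊆ ⋃ u ∈ K, (B ∩ U u) := by
    rintro x ⟨hxB, hx⟩
    obtain ⟨W, hxW, -, -, -, -, -, ⟨u, huK, huW⟩, hW⟩ := class_facts hG hf hΔ ω K hx
    rw [hW] at huW
    obtain ⟨p, hp⟩ := huW
    simp only [mem_iUnion]
    refine ⟨u, huK, hxB, p.reverse, fun z hz => ?_⟩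
    rw [SimpleGraph.Walk.support_reverse, List.mem_reverse] at hz
    exact hp z hz
  have hpart : ∀ u ∈ K, (B ∩ U u).Finite ∧ (B ∩ U u).ncard ≤ D := by
    intro u hu
    obtain ⟨W, -, h1, h2, h3, h4, h5, -, hW⟩ := class_facts hG hf hΔ ω K (hKC u hu)
    have hle : (bd G W).ncard ≤ M * Δ := h4.trans (Nat.mul_le_mul_right _ hK)
    have e : U u = W := hW.symm
    rw [e]
    exact ⟨blk_inter_finite hG h3 (lt_of_le_of_lt hle hlev) h5, hD W h1 h2 h3 hle h5⟩
  have hfin : (⋃ u ∈ K, (B ∩ U u)).Finite := K.finite_toSet.biUnion fun u hu =>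
    (hpart u (by exact_mod_cast hu)).1
  refine ⟨hfin.subset hcov, (ncard_le_ncard hcov hfin).trans ?_⟩
  have hun : ∀ L : Finset V, L ⊆ K → (⋃ u ∈ L, (B ∩ U u)).ncard ≤ L.card * D := by
    intro L
    induction L using Finset.induction_on with
    | empty => intro _; simp
    | insert a L ha ih =>
      intro hL
      rw [Finset.set_biUnion_insert, Finset.card_insert_of_notMem ha]
      refine (ncard_union_le _ _).trans ?_
      have h1 := (hpart a (hL (Finset.mem_insert_self a L))).2
      have h2 := ih ((Finset.subset_insert a L).trans hL)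
      nlinarith
  exact (hun K (Finset.Subset.refl K)).trans (Nat.mul_le_mul_right _ hK)

end Run7.h926
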