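import Pool.Agent.Run7.h926.LimitQI
import Pool.Agent.Run7.h926.Main

set_option autoImplicit false

/-!
# Passing to a subgraph of bounded degree
-/

namespace Run7.h926

open Set

theorem ball_bound {V : Type} {G : SimpleGraph V} (hG : G.Connected)
    (hS : ∃ S : Finset V, ∀ v : V, ∃ s ∈ S, ∃ φ : G ≃g G, φ s = v) (r : ℕ) :
    ∃ b : ℕ, ∀ x, {y | G.dist x y ≤ r}.ncard ≤ b := by
  classical
  obtain ⟨S, hS⟩ := hS
  refine ⟨S.sup fun s => {y | G.dist s y ≤ r}.ncard, fun x => ?_⟩
  obtain ⟨s, hs, φ, rfl⟩ := hS x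
  have : {y | G.dist (φ s) y ≤ r} = φ '' {y | G.dist s y ≤ r} := by
    ext y
    simp only [mem_ofPred_eq, mem_image]
    constructor
    · intro h
      refine ⟨φ.symm y, ?_, by simp⟩
      rw [← dist_map φ hG]
      simpa using h
    · rintro ⟨z, hz, rfl⟩
      rw [dist_map φ hG]
      exact hz
  rw [this, ncard_image_of_injective _ φ.injective]
  exact Finset.le_sup (f := fun s => {y | G.dist s y ≤ r}.ncard) hs

/-- If a quasi-transitive graph embeds quasi-isometrically into a graph, then that graph has a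
connected subgraph of bounded degree quasi-isometric to the quasi-transitive graph. -/
theorem thin_emb {V V'' : Type} {G : SimpleGraph V} {G'' : SimpleGraph V''} (hG : G.Connected)
    (hf : ∀ v, (G.neighborSet v).Finite)
    (hS : ∃ S : Finset V, ∀ v : V, ∃ s ∈ S, ∃ φ : G ≃g G, φ s = v) (hG'' : G''.Connected)
    {q : V → V''} {C : ℕ} (hq : ∀ x y, G''.dist (q x) (q y) ≤ C * G.dist x y + C ∧
      G.dist x y ≤ C * G''.dist (q x) (q y) + C) :
    ∃ (V₃ : Type) (G₃ : SimpleGraph V₃), G₃.Connected ∧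
      (∃ D : ℕ, ∀ v, (G₃.neighborSet v).Finite ∧ (G₃.neighborSet v).ncard ≤ D) ∧
      (∃ (q₃ : V → V₃) (C₃ : ℕ), QI G G₃ q₃ C₃) ∧
      ∃ j : V₃ → V'', Function.Injective j ∧ ∀ x y, G₃.Adj x y → G''.Adj (j x) (j y) := by
  classical
  obtain ⟨s₀⟩ := hG.nonempty
  have hw : ∀ x y, ∃ p : G''.Walk (q x) (q y), p.length = G''.dist (q x) (q y) := fun x y =>
    hG''.exists_walk_length_eq_dist _ _
  choose w hw using hw
  have hwl : ∀ x y, G.Adj x y → (w x y).length ≤ 2 * C := by
    intro x y h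
    rw [hw]
    have h1 := (hq x y).1
    have h2 : G.dist x y = 1 := SimpleGraph.dist_eq_one_iff_adj.2 h
    rw [h2] at h1
    omega
  -- the subgraph
  let H : SimpleGraph V'' :=
    { Adj := fun u v => ∃ x y, G.Adj x y ∧ s(u, v) ∈ (w x y).edges
      symm := ⟨by
        rintro u v ⟨x, y, h, he⟩
        exact ⟨x, y, h, by rwa [Sym2.eq_swap]⟩⟩
      loopless := ⟨by
        rintro u ⟨x, y, h, he⟩
        exact ((w x y).adj_of_mem_edges he).ne rfl⟩ }
  have hHle : H ≤ G'' := by
    rintro u v ⟨x, y, -, he⟩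
    exact (w x y).adj_of_mem_edges he
  have hHw : ∀ x y, G.Adj x y → ∀ e ∈ (w x y).edges, e ∈ H.edgeSet := by
    intro x y h e he
    induction e with
    | _ u v => exact ⟨x, y, h, he⟩
  have hstep : ∀ {x z : V} (p : G.Walk x z), ∃ p' : H.Walk (q x) (q z),
      p'.length ≤ 2 * C * p.length := by
    intro x z p
    induction p with
    | nil => exact ⟨SimpleGraph.Walk.nil, by simp⟩
    | @cons x y z h p ih =>
      obtain ⟨p', hp'⟩ := ih
      refine ⟨((w x y).transfer H (hHw x y h)).append p', ?_⟩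
      rw [SimpleGraph.Walk.length_append, SimpleGraph.Walk.length_transfer,
        SimpleGraph.Walk.length_cons]
      have := hwl x y h
      nlinarith
  have hqc : ∀ x, q x ∈ compOf H (q s₀) := fun x => by
    obtain ⟨p⟩ := hG.preconnected s₀ x
    obtain ⟨p', -⟩ := hstep p
    exact p'.reachable
  have hsupp : ∀ x y, G.Adj x y → ∀ z ∈ (w x y).support, ∃ p : H.Walk (q x) z,
      p.length ≤ 2 * C := by
    intro x y h z hz
    refine ⟨((w x y).takeUntil z hz).transfer H fun e he =>
      hHw x y h e ((w x y).edges_takeUntil_subset_edges hz he), ?_⟩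
    rw [SimpleGraph.Walk.length_transfer]
    exact ((w x y).length_takeUntil_le_length hz).trans (hwl x y h)
  have hlow : ∀ u v : compOf H (q s₀), G''.dist u.1 v.1 ≤ (H.induce (compOf H (q s₀))).dist u v := by
    intro u v
    obtain ⟨p, hp⟩ := compOf_exists_walk u v
    rw [← hp]
    have := SimpleGraph.dist_le (p.mapLe hHle)
    rwa [SimpleGraph.Walk.length_map] at this
  obtain ⟨Δ, hΔ⟩ := degree_bound hS
  obtain ⟨b, hb⟩ := ball_bound hG hS (C * (4 * C) + C)
  refine ⟨compOf H (q s₀), H.induce _, compOf_connected _ _, ⟨b * (Δ * (2 * C + 1)), ?_⟩,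
    ⟨fun x => ⟨q x, hqc x⟩, 2 * C, ⟨fun x z => ⟨?_, ?_⟩, ?_⟩⟩, Subtype.val,
    Subtype.val_injective, fun x y h => hHle h⟩
  · rintro ⟨z, hz⟩
    by_cases hne : ∃ v, H.Adj z v
    swap
    · have : (H.induce (compOf H (q s₀))).neighborSet ⟨z, hz⟩ = ∅ := by
        rw [eq_empty_iff_forall_notMem]
        rintro ⟨v, hv⟩ h
        exact hne ⟨v, h⟩
      rw [this]
      simp
    obtain ⟨v₀, x₀, y₀, h₀, he₀⟩ := hne
    have hz₀ : z ∈ (w x₀ y₀).support := SimpleGraph.Walk.fst_mem_support_of_mem_edges _ he₀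
    set F : Finset V'' := (ball_finite hG hf (C * (4 * C) + C) x₀).toFinset.biUnion fun x =>
      (hf x).toFinset.biUnion fun y => (w x y).support.toFinset with hF
    have hsub : Subtype.val '' (H.induce (compOf H (q s₀))).neighborSet ⟨z, hz⟩ ⊆ (F : Set V'') := by
      rintro _ ⟨⟨v, hv⟩, hadj, rfl⟩
      obtain ⟨x, y, h, he⟩ : H.Adj z v := hadj
      have hzx : z ∈ (w x y).support := SimpleGraph.Walk.fst_mem_support_of_mem_edges _ he
      have hvx : v ∈ (w x y).support := SimpleGraph.Walk.snd_mem_support_of_mem_edges _ he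
      have d1 : G''.dist (q x) z ≤ 2 * C := by
        obtain ⟨p, hp⟩ := hsupp x y h z hzx
        have := SimpleGraph.dist_le (p.mapLe hHle)
        rw [SimpleGraph.Walk.length_map] at this
        omega
      have d2 : G''.dist (q x₀) z ≤ 2 * C := by
        obtain ⟨p, hp⟩ := hsupp x₀ y₀ h₀ z hz₀
        have := SimpleGraph.dist_le (p.mapLe hHle)
        rw [SimpleGraph.Walk.length_map] at this
        omega
      have d3 := hG''.dist_triangle (u := q x₀) (v := z) (w := q x)
      rw [SimpleGraph.dist_comm (u := z)] at d3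
      have d4 := (hq x₀ x).2
      have d5 : G.dist x₀ x ≤ C * (4 * C) + C :=
        d4.trans (Nat.add_le_add_right (Nat.mul_le_mul_left _ (by omega)) _)
      have : v ∈ F := by
        rw [hF]
        simp only [Finset.mem_biUnion, Set.Finite.mem_toFinset, List.mem_toFinset]
        exact ⟨x, d5, y, h, hvx⟩
      exact_mod_cast this
    have hcard : F.card ≤ b * (Δ * (2 * C + 1)) := by
      have h1 : (ball_finite hG hf (C * (4 * C) + C) x₀).toFinset.card ≤ b := by
        rw [← ncard_eq_toFinset_card _ (ball_finite hG hf (C * (4 * C) + C) x₀)]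
        exact hb x₀
      refine (Finset.card_biUnion_le_card_mul _ _ (Δ * (2 * C + 1)) ?_).trans
        (Nat.mul_le_mul_right _ h1)
      intro x _
      have h2 : (hf x).toFinset.card ≤ Δ := by
        rw [← ncard_eq_toFinset_card _ (hf x)]
        exact hΔ x
      refine (Finset.card_biUnion_le_card_mul _ _ (2 * C + 1) ?_).trans
        (Nat.mul_le_mul_right _ h2)
      intro y hy
      have hxy : G.Adj x y := by simpa using hy
      refine (List.toFinset_card_le _).trans ?_
      rw [SimpleGraph.Walk.length_support]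
      have := hwl x y hxy
      omega
    have himf : (Subtype.val '' (H.induce (compOf H (q s₀))).neighborSet ⟨z, hz⟩).Finite :=
      F.finite_toSet.subset hsub
    refine ⟨Finite.of_finite_image himf Subtype.val_injective.injOn, ?_⟩
    rw [← ncard_image_of_injective _ Subtype.val_injective]
    refine (ncard_le_ncard hsub F.finite_toSet).trans ?_
    rw [ncard_coe_finset]
    exact hcard
  · obtain ⟨p, hp⟩ := hG.exists_walk_length_eq_dist x z
    obtain ⟨p', hp'⟩ := hstep p
    rw [hp] at hp'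
    have := (compOf_dist_le (u := ⟨q x, hqc x⟩) (v := ⟨q z, hqc z⟩) p').trans hp'
    exact this.trans (Nat.le_add_right _ _)
  · have h1 := hlow ⟨q x, hqc x⟩ ⟨q z, hqc z⟩
    have h2 := (hq x z).2
    have h3 : C * G''.dist (q x) (q z) ≤
        C * (H.induce (compOf H (q s₀))).dist ⟨q x, hqc x⟩ ⟨q z, hqc z⟩ :=
      Nat.mul_le_mul_left _ h1
    nlinarith
  · rintro ⟨z, hz⟩
    obtain ⟨p⟩ := id hz
    by_cases hn : p.Nil
    · have hzq : q s₀ = z := hn.eq
      refine ⟨s₀, ?_⟩
      have : (⟨z, hz⟩ : compOf H (q s₀)) = ⟨q s₀, hqc s₀⟩ := Subtype.ext hzq.symm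
      rw [this]
      simp
    · have hadj := p.adj_penultimate hn
      obtain ⟨x, y, h, he⟩ : H.Adj p.penultimate z := hadj
      have hzx : z ∈ (w x y).support := SimpleGraph.Walk.snd_mem_support_of_mem_edges _ he
      obtain ⟨p', hp'⟩ := hsupp x y h z hzx
      refine ⟨x, ?_⟩
      rw [SimpleGraph.dist_comm]
      exact (compOf_dist_le (u := ⟨q x, hqc x⟩) (v := ⟨z, hz⟩) p').trans hp'

/-- A graph quasi-isometric to a quasi-transitive graph has a connected subgraph of bounded degree
quasi-isometric to it. -/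
theorem thin {V V'' : Type} {G : SimpleGraph V} {G'' : SimpleGraph V''} (hG : G.Connected)
    (hf : ∀ v, (G.neighborSet v).Finite)
    (hS : ∃ S : Finset V, ∀ v : V, ∃ s ∈ S, ∃ φ : G ≃g G, φ s = v) (hG'' : G''.Connected)
    {q : V → V''} {C : ℕ} (hq : QI G G'' q C) :
    ∃ (V₃ : Type) (G₃ : SimpleGraph V₃), G₃.Connected ∧
      (∃ D : ℕ, ∀ v, (G₃.neighborSet v).Finite ∧ (G₃.neighborSet v).ncard ≤ D) ∧
      (∃ (q₃ : V → V₃) (C₃ : ℕ), QI G G₃ q₃ C₃) ∧
      ∃ j : V₃ → V'', Function.Injective j ∧ ∀ x y, G₃.Adj x y → G''.Adj (j x) (j y) :=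
  thin_emb hG hf hS hG'' hq.1

end Run7.h926
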