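import Pool.Agent.Run7.h926.TorsoRed
import Pool.Agent.Run7.h926.Recur

set_option autoImplicit false

/-!
# Torso reduction combined with the recurrence theorem
-/

namespace Run7.h926

open Set Opposite

theorem infinite_of_inacc {V : Type} {G : SimpleGraph V} (h : Inacc G) : Infinite V := by
  classical
  by_contra hfin
  rw [not_infinite_iff_finite] at hfin
  have := Fintype.ofFinite V
  obtain ⟨ω, -, -, -⟩ := h 0
  obtain ⟨x, hx⟩ := side_nonempty ω Finset.univ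
  exact side_notMem ω _ hx (Finset.mem_univ x)

/-- Sparse minors of the ambient graph can be removed from a quasi-isometric subgraph. -/
theorem remove_sparse {V : Type} {G : SimpleGraph V} (hG : G.Connected)
    (hf : ∀ v, (G.neighborSet v).Finite)
    (hS : ∃ S : Finset V, ∀ v : V, ∃ s ∈ S, ∃ φ : G ≃g G, φ s = v) (hI : Inacc G)
    {Z X : Type} {GZ : SimpleGraph Z} {GX : SimpleGraph X} (hZ : GZ.Connected) {q : V → Z} {C : ℕ}
    (hq : QI G GZ q C) {j : Z → X} (hj : Function.Injective j)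
    (hj' : ∀ x y, GZ.Adj x y → GX.Adj (j x) (j y)) {ι : Type} {W : ι → Type}
    (hW : ∀ i, Finite (W i)) (H : ∀ i, SimpleGraph (W i)) (n : ℕ)
    (hno : ¬ ∃ Y : Fin n → Set X, Pairwise (fun a b => Disjoint (Y a) (Y b)) ∧
      ∀ a, ∃ i, MinorIn GX (Y a) (H i)) :
    ∃ (V₁ : Type) (G₁ : SimpleGraph V₁), G₁.Connected ∧
      (∃ D : ℕ, ∀ v, (G₁.neighborSet v).Finite ∧ (G₁.neighborSet v).ncard ≤ D) ∧
      (∃ (q₁ : V → V₁) (C₁ : ℕ), QI G G₁ q₁ C₁) ∧ ∀ i, ¬ MinorIn G₁ univ (H i) := by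
  have := infinite_of_inacc hI
  obtain ⟨y₀⟩ := hZ.nonempty
  have hno' : ∀ R : ℕ, ∃ y : Z, ¬ ∃ Y : Fin n → Set Z, (∀ a, ∀ z ∈ Y a, GZ.dist y z ≤ R) ∧
      Pairwise (fun a b => Disjoint (Y a) (Y b)) ∧ ∀ a, ∃ i, MinorIn GZ (Y a) (H i) := by
    intro R
    refine ⟨y₀, ?_⟩
    rintro ⟨Y, -, hY2, hY3⟩
    apply hno
    refine ⟨fun a => j '' Y a, fun a b hab => ?_, fun a => ?_⟩
    · exact (Set.disjoint_image_iff hj).2 (hY2 hab)
    · obtain ⟨i, hi⟩ := hY3 a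
      exact ⟨i, hi.map j hj.injOn (fun x _ y _ h => hj' x y h) fun x hx => ⟨x, hx, rfl⟩⟩
  obtain ⟨-, V₁, G₁, h1, h2, h3, h4⟩ := recurrence hG hf hS hZ hq (J := Fin n)
    (ι := fun _ => ι) (W := fun _ i => W i) (fun _ i => H i) hno'
  exact ⟨V₁, G₁, h1, h2, h3, h4⟩

end Run7.h926
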