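import Mathlib

set_option autoImplicit false

/-!
# Tree-decompositions, their separations and torsos
-/

namespace Run7.h926

open Set

variable {V' τ : Type*}

/-- The bags `β t`, indexed by the nodes of the tree `T`, form a tree-decomposition of `G'`. -/
structure IsTreeDec (G' : SimpleGraph V') (T : SimpleGraph τ) (β : τ → Set V') : Prop where
  tree : T.IsTree
  cover : ∀ v, ∃ t, v ∈ β t
  edge : ∀ u v, G'.Adj u v → ∃ t, u ∈ β t ∧ v ∈ β t
  conn : ∀ v, (T.induce {t | v ∈ β t}).Preconnected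

/-- The torso at the node `s`. -/
def Torso (G' : SimpleGraph V') (T : SimpleGraph τ) (β : τ → Set V') (s : τ) :
    SimpleGraph (β s) where
  Adj u v := u ≠ v ∧ (G'.Adj u v ∨ ∃ t, T.Adj s t ∧ u.1 ∈ β t ∧ v.1 ∈ β t)
  symm := ⟨by
    rintro u v ⟨hne, h | ⟨t, ht, hu, hv⟩⟩
    · exact ⟨hne.symm, Or.inl h.symm⟩
    · exact ⟨hne.symm, Or.inr ⟨t, ht, hv, hu⟩⟩⟩
  loopless := ⟨fun u h => h.1 rfl⟩

/-- The nodes on the side of `t` of the edge `s t`. -/
def tside (T : SimpleGraph τ) (s t : τ) : Set τ := {t' | (T.deleteEdges {s(s, t)}).Reachable t t'}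

variable {G' : SimpleGraph V'} {T : SimpleGraph τ} {β : τ → Set V'}

theorem mem_tside_self (T : SimpleGraph τ) (s t : τ) : t ∈ tside T s t :=
  SimpleGraph.Reachable.refl t

/-- Crossing a side uses the edge. -/
theorem tside_cross {s t c d : τ} (hcd : T.Adj c d) (hc : c ∈ tside T s t)
    (hd : d ∉ tside T s t) : s(c, d) = s(s, t) := by
  by_contra h
  apply hd
  refine SimpleGraph.Reachable.trans hc (SimpleGraph.Adj.reachable ?_)
  rw [SimpleGraph.deleteEdges_adj]
  exact ⟨hcd, fun h' => h (by simpa using h')⟩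

theorem notMem_tside (hT : T.IsTree) {s t : τ} (hst : T.Adj s t) : s ∉ tside T s t := by
  intro h
  have h1 := (SimpleGraph.isAcyclic_iff_forall_isBridge.1 hT.isAcyclic)
    (show s(s, t) ∈ T.edgeSet from hst)
  rw [SimpleGraph.isBridge_iff] at h1
  exact h1 h.symm

/-- Distances decrease when moving towards a side. -/
theorem tside_dist (hT : T.IsTree) {s t t' : τ} (hst : T.Adj s t) (h : t' ∈ tside T s t) :
    T.dist t t' + 1 ≤ T.dist s t' := by
  classical
  obtain ⟨p, hp⟩ := hT.connected.exists_walk_length_eq_dist s t'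
  have hs := notMem_tside hT hst
  obtain ⟨d, hd, hd1, hd2⟩ := p.exists_boundary_dart (tside T s t)ᶜ hs (by simpa using h)
  rw [mem_compl_iff, not_not] at hd2
  have h1 := tside_cross d.adj.symm hd2 hd1
  rw [Sym2.eq_iff] at h1
  have h2 : d.snd = t := by
    rcases h1 with h1 | h1
    · exfalso
      rw [h1.1] at hd2
      exact hs hd2
    · exact h1.1
  have hmem : t ∈ p.support := by
    rw [← h2]
    exact p.dart_snd_mem_support_of_mem_darts hd
  have h3 : (p.takeUntil t hmem).length + (p.dropUntil t hmem).length = p.length := by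
    rw [← SimpleGraph.Walk.length_append, SimpleGraph.Walk.take_spec]
  have h4 : 1 ≤ (p.takeUntil t hmem).length := by
    by_contra hlt
    have h5 : (p.takeUntil t hmem).length = 0 := by omega
    exact hst.ne (SimpleGraph.Walk.eq_of_length_eq_zero h5)
  have h5 := SimpleGraph.dist_le (p.dropUntil t hmem)
  omega

/-- Every other node is on the side of some neighbour. -/
theorem exists_tside (hT : T.IsTree) {s t' : τ} (hne : t' ≠ s) :
    ∃ t, T.Adj s t ∧ t' ∈ tside T s t := by
  classical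
  obtain ⟨p, hp⟩ := (hT.connected.preconnected s t').exists_isPath
  cases p with
  | nil => exact absurd rfl hne
  | @cons _ t _ hst q =>
    rw [SimpleGraph.Walk.cons_isPath_iff] at hp
    refine ⟨t, hst, ?_⟩
    refine ⟨q.transfer _ fun e he => ?_⟩
    rw [SimpleGraph.edgeSet_deleteEdges]
    refine ⟨q.edges_subset_edgeSet he, fun h => ?_⟩
    rw [mem_singleton_iff] at h
    subst h
    exact hp.2 (SimpleGraph.Walk.fst_mem_support_of_mem_edges _ he)

/-- Bags on different sides of an edge meet in the adhesion set. -/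
theorem mem_adhesion (hd : IsTreeDec G' T β) {s t t₁ t₂ : τ} {v : V'} (h1 : v ∈ β t₁)
    (h2 : v ∈ β t₂) (ht₁ : t₁ ∈ tside T s t) (ht₂ : t₂ ∉ tside T s t) : v ∈ β s ∧ v ∈ β t := by
  obtain ⟨p⟩ := hd.conn v ⟨t₁, h1⟩ ⟨t₂, h2⟩
  obtain ⟨d, -, hd1, hd2⟩ := p.exists_boundary_dart {x | x.1 ∈ tside T s t} ht₁ ht₂
  have h3 := tside_cross (T := T) d.adj hd1 hd2
  rw [Sym2.eq_iff] at h3
  rcases h3 with h3 | h3
  · rw [← h3.1, ← h3.2]
    exact ⟨d.fst.2, d.snd.2⟩
  · rw [← h3.1, ← h3.2]
    exact ⟨d.snd.2, d.fst.2⟩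

/-- `v` lies in a bag on the side of `t`. -/
def OnSide (T : SimpleGraph τ) (β : τ → Set V') (s t : τ) (v : V') : Prop :=
  ∃ t' ∈ tside T s t, v ∈ β t'

theorem onSide_iff (hd : IsTreeDec G' T β) {s t t₁ : τ} {v : V'} (hv : ¬ (v ∈ β s ∧ v ∈ β t))
    (h1 : v ∈ β t₁) : OnSide T β s t v ↔ t₁ ∈ tside T s t := by
  constructor
  · rintro ⟨t', ht', hv'⟩
    by_contra h
    exact hv (mem_adhesion hd hv' h1 ht' h)
  · exact fun h => ⟨t₁, h, h1⟩

theorem onSide_walk (hd : IsTreeDec G' T β) {s t : τ} {u v : V'} (p : G'.Walk u v)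
    (hp : ∀ z ∈ p.support, ¬ (z ∈ β s ∧ z ∈ β t)) : OnSide T β s t u ↔ OnSide T β s t v := by
  induction p with
  | nil => exact Iff.rfl
  | @cons u w v h p ih =>
    rw [← ih fun z hz => hp z (by rw [SimpleGraph.Walk.support_cons, List.mem_cons]; exact Or.inr hz)]
    obtain ⟨t₁, h1, h2⟩ := hd.edge u w h
    rw [onSide_iff hd (hp u (by simp)) h1, onSide_iff hd (hp w (by simp)) h2]

/-- Projecting a walk to the torso. -/
theorem torso_walk (hd : IsTreeDec G' T β) {s : τ} {u v : V'} (p : G'.Walk u v) (hv : v ∈ β s) :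
    (∀ hu : u ∈ β s, ∃ p' : (Torso G' T β s).Walk ⟨u, hu⟩ ⟨v, hv⟩,
      (∀ z ∈ p'.support, z.1 ∈ p.support) ∧ p'.length ≤ p.length) ∧
    (u ∉ β s → ∀ t, T.Adj s t → OnSide T β s t u → ∃ w : β s, w.1 ∈ β t ∧
      ∃ q : (Torso G' T β s).Walk w ⟨v, hv⟩,
        (∀ z ∈ q.support, z.1 ∈ p.support) ∧ q.length + 1 ≤ p.length) := by
  induction p with
  | nil =>
    refine ⟨fun hu => ⟨SimpleGraph.Walk.nil, ?_, le_refl _⟩, fun h => absurd hv h⟩
    intro z hz
    rw [SimpleGraph.Walk.support_nil, List.mem_singleton] at hz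
    subst hz
    simp
  | @cons u x v h p ih =>
    obtain ⟨ih1, ih2⟩ := ih hv
    obtain ⟨t₁, hut, hxt⟩ := hd.edge u x h
    refine ⟨fun hu => ?_, fun hu t hst hut' => ?_⟩
    · by_cases hx : x ∈ β s
      · obtain ⟨p', hp', hl⟩ := ih1 hx
        have hadj : (Torso G' T β s).Adj ⟨u, hu⟩ ⟨x, hx⟩ :=
          ⟨fun e => h.ne (congrArg Subtype.val e), Or.inl h⟩
        refine ⟨SimpleGraph.Walk.cons hadj p', ?_, ?_⟩
        · intro z hz
          rw [SimpleGraph.Walk.support_cons, List.mem_cons] at hz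
          rw [SimpleGraph.Walk.support_cons, List.mem_cons]
          rcases hz with rfl | hz
          · exact Or.inl rfl
          · exact Or.inr (hp' z hz)
        · rw [SimpleGraph.Walk.length_cons, SimpleGraph.Walk.length_cons]
          omega
      · have ht₁s : t₁ ≠ s := fun e => hx (e ▸ hxt)
        obtain ⟨t, hst, ht⟩ := exists_tside hd.tree ht₁s
        obtain ⟨w, hwt, q, hq, hl⟩ := ih2 hx t hst ⟨t₁, ht, hxt⟩
        have hut' := (mem_adhesion hd hut hu ht (notMem_tside hd.tree hst)).2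
        by_cases huw : (⟨u, hu⟩ : β s) = w
        · subst huw
          refine ⟨q, ?_, ?_⟩
          · intro z hz
            rw [SimpleGraph.Walk.support_cons, List.mem_cons]
            exact Or.inr (hq z hz)
          · rw [SimpleGraph.Walk.length_cons]
            omega
        · have hadj : (Torso G' T β s).Adj ⟨u, hu⟩ w := ⟨huw, Or.inr ⟨t, hst, hut', hwt⟩⟩
          refine ⟨SimpleGraph.Walk.cons hadj q, ?_, ?_⟩
          · intro z hz
            rw [SimpleGraph.Walk.support_cons, List.mem_cons] at hz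
            rw [SimpleGraph.Walk.support_cons, List.mem_cons]
            rcases hz with rfl | hz
            · exact Or.inl rfl
            · exact Or.inr (hq z hz)
          · rw [SimpleGraph.Walk.length_cons, SimpleGraph.Walk.length_cons]
            omega
    · have ht₁ : t₁ ∈ tside T s t := by
        rwa [onSide_iff hd (fun h => hu h.1) hut] at hut'
      by_cases hx : x ∈ β s
      · obtain ⟨p', hp', hl⟩ := ih1 hx
        refine ⟨⟨x, hx⟩, (mem_adhesion hd hxt hx ht₁ (notMem_tside hd.tree hst)).2, p', ?_, ?_⟩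
        · intro z hz
          rw [SimpleGraph.Walk.support_cons, List.mem_cons]
          exact Or.inr (hp' z hz)
        · rw [SimpleGraph.Walk.length_cons]
          omega
      · obtain ⟨w, hwt, q, hq, hl⟩ := ih2 hx t hst ⟨t₁, ht₁, hxt⟩
        refine ⟨w, hwt, q, ?_, ?_⟩
        · intro z hz
          rw [SimpleGraph.Walk.support_cons, List.mem_cons]
          exact Or.inr (hq z hz)
        · rw [SimpleGraph.Walk.length_cons]
          omega

end Run7.h926
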