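import Pool.Agent.Run7.h926.Small
import Pool.Agent.Run7.h926.TreeDec

set_option autoImplicit false

/-!
# Inaccessible pieces live in torsos
-/

namespace Run7.h926

open Set Opposite

theorem dist_le_two_length {X : Type*} {H : SimpleGraph X} (hH : H.Connected) {u v a b : X}
    (p : H.Walk u v) (ha : a ∈ p.support) (hb : b ∈ p.support) : H.dist a b ≤ 2 * p.length := by
  classical
  have h1 : ∀ c ∈ p.support, H.dist u c ≤ p.length := by
    intro c hc
    exact (SimpleGraph.dist_le (p.takeUntil c hc)).trans (p.length_takeUntil_le_length hc)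
  have h2 := hH.dist_triangle (u := a) (v := u) (w := b)
  rw [SimpleGraph.dist_comm (u := a) (v := u)] at h2
  have h3 := h1 a ha
  have h4 := h1 b hb
  omega

/-- The reduction theorem. -/
theorem torso_reduction {V : Type} {G : SimpleGraph V} (hG : G.Connected)
    (hf : ∀ v, (G.neighborSet v).Finite)
    (hS : ∃ S : Finset V, ∀ v : V, ∃ s ∈ S, ∃ φ : G ≃g G, φ s = v) (hI : Inacc G)
    {V' : Type} {G' : SimpleGraph V'} (hG' : G'.Connected) {q : V → V'} {C : ℕ}
    (hq : ∀ x y, G'.dist (q x) (q y) ≤ C * G.dist x y + C ∧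
      G.dist x y ≤ C * G'.dist (q x) (q y) + C)
    {τ : Type} {T : SimpleGraph τ} {β : τ → Set V'} (hd : IsTreeDec G' T β) {N : ℕ}
    (hN : ∀ s t, T.Adj s t → (β s ∩ β t).Finite ∧ (β s ∩ β t).ncard ≤ N) (k : ℕ) :
    ∃ s : τ, ∃ (V₀ : Type) (G₀ : SimpleGraph V₀), G₀.Connected ∧
      (∀ v, (G₀.neighborSet v).Finite) ∧
      (∃ S : Finset V₀, ∀ v : V₀, ∃ s ∈ S, ∃ φ : G₀ ≃g G₀, φ s = v) ∧ Inacc G₀ ∧
      (∀ η₁ η₂ : G₀.end, ∀ K : Finset V₀, K.card ≤ k → η₁.val (op K) = η₂.val (op K)) ∧
      ∃ (Z : Type) (GZ : SimpleGraph Z), GZ.Connected ∧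
        (∃ D : ℕ, ∀ v, (GZ.neighborSet v).Finite ∧ (GZ.neighborSet v).ncard ≤ D) ∧
        (∃ (q₀ : V₀ → Z) (C₀ : ℕ), QI G₀ GZ q₀ C₀) ∧
        ∃ j : Z → β s, Function.Injective j ∧
          ∀ x y, GZ.Adj x y → (Torso G' T β s).Adj (j x) (j y) := by
  classical
  obtain ⟨Δ, hΔ⟩ := degree_bound hS
  obtain ⟨b, hb⟩ := ball_bound hG hS (C * (4 * C) + C)
  set M := N * b with hM
  set lev := k * Δ + M * Δ + 1 with hlev
  obtain ⟨o, ho, hpairs⟩ := exists_block hG hf hS hI lev
  have hF := fam_nfam hG lev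
  obtain ⟨r, hr⟩ := exists_scale hG hf hS hF
  obtain ⟨ω, ω', hne, hω, hω', -⟩ := hpairs 0
  subst hω
  set o := ori (Fam G lev) ω with ho'
  set B := blk G o with hB
  have hadh : ∀ L : Finset V, (B ∩ side ω L).Nonempty := blk_adherent hG hF ho
  have hBinf : B.Infinite := by
    intro hfin
    obtain ⟨x, hx, hx'⟩ := hadh hfin.toFinset
    exact side_notMem ω _ hx' (by simpa using hx)
  obtain ⟨D, hD⟩ := blk_outside_bound hG hf hS ho hr (M := M) (Δ := Δ) hΔ (by omega)
  have hconn := bg_connected hG hF ho hr (hBinf.nonempty)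
  -- the separators of `G` coming from the adhesion sets
  have hKex : ∀ s t, T.Adj s t → ∃ K : Finset V, K.card ≤ M ∧
      ∀ x, x ∈ K ↔ ∃ z, (z ∈ β s ∧ z ∈ β t) ∧ G'.dist (q x) z ≤ 2 * C := by
    intro s t hst
    obtain ⟨hfin, hcard⟩ := hN s t hst
    have hone : ∀ z, {x | G'.dist (q x) z ≤ 2 * C}.Finite ∧
        {x | G'.dist (q x) z ≤ 2 * C}.ncard ≤ b := by
      intro z
      by_cases hne : ({x | G'.dist (q x) z ≤ 2 * C}).Nonempty
      swap
      · rw [not_nonempty_iff_eq_empty.1 hne]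
        simp
      obtain ⟨x₀, hx₀⟩ := hne
      have hsub : {x | G'.dist (q x) z ≤ 2 * C} ⊆ {y | G.dist x₀ y ≤ C * (4 * C) + C} := by
        intro x hx
        have h1 := hG'.dist_triangle (u := q x₀) (v := z) (w := q x)
        rw [SimpleGraph.dist_comm (u := z)] at h1
        have h2 : G'.dist (q x) z ≤ 2 * C := hx
        have h3 : G'.dist (q x₀) z ≤ 2 * C := hx₀
        exact (hq x₀ x).2.trans (Nat.add_le_add_right (Nat.mul_le_mul_left _ (by omega)) _)
      have hbf := ball_finite hG hf (C * (4 * C) + C) x₀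
      exact ⟨hbf.subset hsub, (ncard_le_ncard hsub hbf).trans (hb x₀)⟩
    let K : Finset V := hfin.toFinset.biUnion fun z => (hone z).1.toFinset
    refine ⟨K, ?_, ?_⟩
    · refine (Finset.card_biUnion_le_card_mul _ _ b ?_).trans ?_
      · intro z _
        rw [← ncard_eq_toFinset_card _ (hone z).1]
        exact (hone z).2
      · rw [hM]
        refine Nat.mul_le_mul_right _ ?_
        rw [← ncard_eq_toFinset_card _ hfin]
        exact hcard
    · intro x
      simp only [K, Finset.mem_biUnion, Set.Finite.mem_toFinset]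
      exact ⟨fun ⟨z, hz, hxz⟩ => ⟨z, hz, hxz⟩, fun ⟨z, hz, hxz⟩ => ⟨z, hz, hxz⟩⟩
  -- one step
  have hstep : ∀ s t, ∀ K : Finset V,
      (∀ x, x ∈ K ↔ ∃ z, (z ∈ β s ∧ z ∈ β t) ∧ G'.dist (q x) z ≤ 2 * C) →
      ∀ x y, G.Adj x y → x ∉ K → (OnSide T β s t (q x) ↔ OnSide T β s t (q y)) := by
    intro s t K hK x y hxy hx
    obtain ⟨p, hp⟩ := hG'.exists_walk_length_eq_dist (q x) (q y)
    refine onSide_walk hd p fun z hz hzS => hx ((hK x).2 ⟨z, hzS, ?_⟩)
    refine (SimpleGraph.dist_le (p.takeUntil z hz)).trans ?_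
    refine (p.length_takeUntil_le_length hz).trans ?_
    rw [hp]
    have h1 := (hq x y).1
    rw [SimpleGraph.dist_eq_one_iff_adj.2 hxy] at h1
    omega
  have hside : ∀ s t, ∀ K : Finset V,
      (∀ x, x ∈ K ↔ ∃ z, (z ∈ β s ∧ z ∈ β t) ∧ G'.dist (q x) z ≤ 2 * C) →
      ∀ x ∈ side ω K, ∀ y ∈ side ω K, (OnSide T β s t (q x) ↔ OnSide T β s t (q y)) := by
    intro s t K hK x hx y hy
    obtain ⟨p, hp⟩ := side_walk ω K hx hy
    have : ∀ {a b : V} (p : G.Walk a b), (∀ z ∈ p.support, z ∉ K) →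
        (OnSide T β s t (q a) ↔ OnSide T β s t (q b)) := by
      intro a b p
      induction p with
      | nil => exact fun _ => Iff.rfl
      | @cons a c b h p ih =>
        intro hp
        rw [hstep s t K hK a c h (hp a (by simp))]
        exact ih fun z hz => hp z (by
          rw [SimpleGraph.Walk.support_cons, List.mem_cons]; exact Or.inr hz)
    exact this p hp
  have hnotS : ∀ s t, ∀ K : Finset V,
      (∀ x, x ∈ K ↔ ∃ z, (z ∈ β s ∧ z ∈ β t) ∧ G'.dist (q x) z ≤ 2 * C) →
      ∀ x ∈ side ω K, ¬ (q x ∈ β s ∧ q x ∈ β t) := by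
    intro s t K hK x hx h
    exact side_notMem ω K hx ((hK x).2 ⟨q x, h, by simp⟩)
  -- choose the node minimising the total distance to many bags
  obtain ⟨X, hXB, hXc⟩ := hBinf.exists_subset_card_eq (2 * D + 1)
  choose tx htx using hd.cover
  let f : τ → ℕ := fun s => ∑ x ∈ X, T.dist s (tx (q x))
  have hτne : Nonempty τ := hd.tree.connected.nonempty
  obtain ⟨s, hs⟩ : ∃ s, ∀ t, f s ≤ f t := by
    have hex : ∃ n, ∃ s, f s = n := ⟨_, hτne.some, rfl⟩
    obtain ⟨s, hs⟩ := Nat.find_spec hex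
    exact ⟨s, fun t => by rw [hs]; exact Nat.find_min' hex ⟨t, rfl⟩⟩
  -- all main sides point to `s`
  have hmain : ∀ t, T.Adj s t → ∀ K : Finset V, K.card ≤ M →
      (∀ x, x ∈ K ↔ ∃ z, (z ∈ β s ∧ z ∈ β t) ∧ G'.dist (q x) z ≤ 2 * C) →
      ∀ x ∈ side ω K, ¬ OnSide T β s t (q x) := by
    intro t hst K hKc hK x₀ hx₀ hon
    have hall : ∀ x ∈ side ω K, OnSide T β s t (q x) := fun x hx =>
      (hside s t K hK x₀ hx₀ x hx).1 hon
    have hlt : f t < f s := by
      -- split the sum
      have h1 : ∀ x ∈ X.filter (fun x => x ∈ side ω K), T.dist t (tx (q x)) + 1 ≤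
          T.dist s (tx (q x)) := by
        intro x hx
        rw [Finset.mem_filter] at hx
        have h2 := (onSide_iff hd (hnotS s t K hK x hx.2) (htx (q x))).1 (hall x hx.2)
        exact tside_dist hd.tree hst h2
      have h2 : ∀ x ∈ X.filter (fun x => ¬ x ∈ side ω K), T.dist t (tx (q x)) ≤
          T.dist s (tx (q x)) + 1 := by
        intro x _
        have h3 := hd.tree.connected.dist_triangle (u := t) (v := s) (w := tx (q x))
        have h4 : T.dist t s = 1 := SimpleGraph.dist_eq_one_iff_adj.2 hst.symm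
        omega
      have hcard : (X.filter (fun x => ¬ x ∈ side ω K)).card ≤ D := by
        obtain ⟨hfin, hle⟩ := hD K hKc
        rw [← ncard_coe_finset]
        refine (ncard_le_ncard ?_ hfin).trans hle
        intro x hx
        have hx' : x ∈ X.filter (fun x => ¬ x ∈ side ω K) := by exact_mod_cast hx
        rw [Finset.mem_filter] at hx'
        exact ⟨hXB (by exact_mod_cast hx'.1), hx'.2⟩
      have hcard' : (X.filter (fun x => x ∈ side ω K)).card +
          (X.filter (fun x => ¬ x ∈ side ω K)).card = 2 * D + 1 := by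
        rw [Finset.card_filter_add_card_filter_not, hXc]
      have hft : f t = ∑ x ∈ X.filter (fun x => x ∈ side ω K), T.dist t (tx (q x)) +
          ∑ x ∈ X.filter (fun x => ¬ x ∈ side ω K), T.dist t (tx (q x)) :=
        (Finset.sum_filter_add_sum_filter_not X _ _).symm
      have hfs : f s = ∑ x ∈ X.filter (fun x => x ∈ side ω K), T.dist s (tx (q x)) +
          ∑ x ∈ X.filter (fun x => ¬ x ∈ side ω K), T.dist s (tx (q x)) :=
        (Finset.sum_filter_add_sum_filter_not X _ _).symm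
      have h3 : ∑ x ∈ X.filter (fun x => x ∈ side ω K), (T.dist t (tx (q x)) + 1) ≤
          ∑ x ∈ X.filter (fun x => x ∈ side ω K), T.dist s (tx (q x)) := Finset.sum_le_sum h1
      have h4 : ∑ x ∈ X.filter (fun x => ¬ x ∈ side ω K), T.dist t (tx (q x)) ≤
          ∑ x ∈ X.filter (fun x => ¬ x ∈ side ω K), (T.dist s (tx (q x)) + 1) :=
        Finset.sum_le_sum h2
      rw [Finset.sum_add_distrib] at h3 h4
      simp only [Finset.sum_const, smul_eq_mul, mul_one] at h3 h4
      omega
    exact absurd (hs t) (by omega)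
  -- the block is close to the bag of `s`
  set D₂ := C * (r * D) + C with hD₂
  have hclose : ∀ x : B, ∃ v : β s, G'.dist (q x.1) v.1 ≤ D₂ := by
    rintro ⟨x, hx⟩
    by_cases hxs : q x ∈ β s
    · exact ⟨⟨q x, hxs⟩, by simp⟩
    have hne' : tx (q x) ≠ s := fun e => hxs (e ▸ htx (q x))
    obtain ⟨t, hst, ht⟩ := exists_tside hd.tree hne'
    obtain ⟨K, hKc, hK⟩ := hKex s t hst
    have hxon : OnSide T β s t (q x) := ⟨_, ht, htx (q x)⟩
    have hcl : ∃ y : B, y.1 ∈ side ω K ∧ (bg G r o).dist ⟨x, hx⟩ y ≤ D := by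
      -- closest vertex of the block in the side
      have hex : ∃ n, ∃ y : B, y.1 ∈ side ω K ∧ (bg G r o).dist ⟨x, hx⟩ y = n := by
        obtain ⟨y, hy, hy'⟩ := hadh K
        exact ⟨_, ⟨y, hy⟩, hy', rfl⟩
      obtain ⟨y, hy, hyn⟩ := Nat.find_spec hex
      refine ⟨y, hy, ?_⟩
      obtain ⟨p, hp, hpl⟩ := hconn.exists_path_of_dist ⟨x, hx⟩ y
      have hin : ∀ z ∈ p.support, z ≠ y → z.1 ∈ B \ side ω K := by
        intro z hz hzy
        refine ⟨z.2, fun hzs => ?_⟩
        have h1 : Nat.find hex ≤ (bg G r o).dist ⟨x, hx⟩ z := Nat.find_min' hex ⟨z, hzs, rfl⟩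
        have h2 : (p.takeUntil z hz).length + (p.dropUntil z hz).length = p.length := by
          rw [← SimpleGraph.Walk.length_append, SimpleGraph.Walk.take_spec]
        have h3 := SimpleGraph.dist_le (p.takeUntil z hz)
        have h4 : (p.dropUntil z hz).length = 0 := by omega
        exact hzy (SimpleGraph.Walk.eq_of_length_eq_zero h4)
      obtain ⟨hfin, hle⟩ := hD K hKc
      -- count the vertices of the path
      have hnd : p.support.Nodup := hp.support_nodup
      have hcount : (p.support.toFinset.erase y).card ≤ D := by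
        have h5 : ((p.support.toFinset.erase y).image Subtype.val).card =
            (p.support.toFinset.erase y).card :=
          Finset.card_image_of_injective _ Subtype.val_injective
        rw [← h5, ← ncard_coe_finset]
        refine (ncard_le_ncard ?_ hfin).trans hle
        intro v hv
        have hv' : v ∈ (p.support.toFinset.erase y).image Subtype.val := by exact_mod_cast hv
        obtain ⟨z, hz, rfl⟩ := Finset.mem_image.1 hv'
        rw [Finset.mem_erase, List.mem_toFinset] at hz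
        exact hin z hz.2 hz.1
      rw [Finset.card_erase_of_mem (List.mem_toFinset.2 p.end_mem_support),
        List.toFinset_card_of_nodup hnd, SimpleGraph.Walk.length_support] at hcount
      rw [← hpl]
      omega
    obtain ⟨y, hy, hyd⟩ := hcl
    have hyoff := hmain t hst K hKc hK y.1 hy
    obtain ⟨p, hp⟩ := hG'.exists_walk_length_eq_dist (q x) (q y.1)
    have hmeet : ∃ z ∈ p.support, z ∈ β s ∧ z ∈ β t := by
      by_contra hno
      push Not at hno
      exact hyoff ((onSide_walk hd p fun z hz h => hno z hz h.1 h.2).1 hxon)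
    obtain ⟨z, hz, hzs, -⟩ := hmeet
    refine ⟨⟨z, hzs⟩, (SimpleGraph.dist_le (p.takeUntil z hz)).trans ?_⟩
    refine (p.length_takeUntil_le_length hz).trans ?_
    rw [hp]
    have h1 := (hq x y.1).1
    have h2 := dist_le_bg hG hF ho hr ⟨x, hx⟩ y
    have h3 : r * (bg G r o).dist ⟨x, hx⟩ y ≤ r * D := Nat.mul_le_mul_left _ hyd
    have h4 : C * G.dist x y.1 ≤ C * (r * D) := Nat.mul_le_mul_left _ (h2.trans h3)
    omega
  choose π hπ using hclose
  -- the short torso edges
  set L := 2 * D₂ + (C * r + C) with hL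
  let H : SimpleGraph (β s) :=
    { Adj := fun u v => (Torso G' T β s).Adj u v ∧ G'.dist u.1 v.1 ≤ 2 * L
      symm := ⟨fun u v h => ⟨h.1.symm, by rw [SimpleGraph.dist_comm]; exact h.2⟩⟩
      loopless := ⟨fun u h => h.1.ne rfl⟩ }
  have hHle : H ≤ Torso G' T β s := fun u v h => h.1
  have hedge : ∀ x y : B, (bg G r o).Adj x y → ∃ p : H.Walk (π x) (π y), p.length ≤ L := by
    intro x y hxy
    have hxyd : G.dist x.1 y.1 ≤ r := hxy.2
    obtain ⟨p, hp⟩ := hG'.exists_walk_length_eq_dist (π x).1 (π y).1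
    have hpL : p.length ≤ L := by
      rw [hp]
      have h1 := hG'.dist_triangle (u := (π x).1) (v := q x.1) (w := (π y).1)
      have h2 := hG'.dist_triangle (u := q x.1) (v := q y.1) (w := (π y).1)
      rw [SimpleGraph.dist_comm (u := (π x).1) (v := q x.1)] at h1
      have h3 := hπ x
      have h4 := hπ y
      have h5 := (hq x.1 y.1).1
      have h6 : C * G.dist x.1 y.1 ≤ C * r := Nat.mul_le_mul_left _ hxyd
      omega
    obtain ⟨p', hp', hl⟩ := (torso_walk hd p (π y).2).1 (π x).2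
    refine ⟨p'.transfer H fun e he => ?_, ?_⟩
    · induction e with
      | _ u v =>
        have hu := hp' u (SimpleGraph.Walk.fst_mem_support_of_mem_edges _ he)
        have hv := hp' v (SimpleGraph.Walk.snd_mem_support_of_mem_edges _ he)
        refine ⟨p'.adj_of_mem_edges he, ?_⟩
        exact (dist_le_two_length hG' p hu hv).trans (Nat.mul_le_mul_left _ hpL)
    · rw [SimpleGraph.Walk.length_transfer]
      exact hl.trans hpL
  have hwalks : ∀ {x y : B} (p : (bg G r o).Walk x y),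
      ∃ p' : H.Walk (π x) (π y), p'.length ≤ L * p.length := by
    intro x y p
    induction p with
    | nil => exact ⟨SimpleGraph.Walk.nil, by simp⟩
    | @cons x z y h p ih =>
      obtain ⟨p', hp'⟩ := ih
      obtain ⟨e, he⟩ := hedge x z h
      refine ⟨e.append p', ?_⟩
      rw [SimpleGraph.Walk.length_append, SimpleGraph.Walk.length_cons, Nat.mul_add, Nat.mul_one]
      omega
  obtain ⟨x₀⟩ := hconn.nonempty
  have hcomp : ∀ x : B, π x ∈ compOf H (π x₀) := by
    intro x
    obtain ⟨p⟩ := hconn.preconnected x₀ x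
    obtain ⟨p', -⟩ := hwalks p
    exact p'.reachable
  have hlowH : ∀ {u v : β s} (p : H.Walk u v), G'.dist u.1 v.1 ≤ 2 * L * p.length := by
    intro u v p
    induction p with
    | nil => simp
    | @cons u w v h p ih =>
      have h1 := hG'.dist_triangle (u := u.1) (v := w.1) (w := v.1)
      have h2 : G'.dist u.1 w.1 ≤ 2 * L := h.2
      rw [SimpleGraph.Walk.length_cons, Nat.mul_add, Nat.mul_one]
      omega
  -- the quasi-isometric embedding
  set E := L + C * (2 * L) + (C * (2 * D₂) + C) with hE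
  have hemb : ∀ x y : B, (H.induce (compOf H (π x₀))).dist ⟨π x, hcomp x⟩ ⟨π y, hcomp y⟩ ≤
      E * (bg G r o).dist x y + E ∧ (bg G r o).dist x y ≤
      E * (H.induce (compOf H (π x₀))).dist ⟨π x, hcomp x⟩ ⟨π y, hcomp y⟩ + E := by
    intro x y
    constructor
    · obtain ⟨p, hp⟩ := hconn.exists_walk_length_eq_dist x y
      obtain ⟨p', hp'⟩ := hwalks p
      have h1 := compOf_dist_le (u := ⟨π x, hcomp x⟩) (v := ⟨π y, hcomp y⟩) p'
      rw [hp] at hp'
      have h2 : L * (bg G r o).dist x y ≤ E * (bg G r o).dist x y :=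
        Nat.mul_le_mul_right _ (by omega)
      omega
    · obtain ⟨p, hp⟩ := compOf_exists_walk (G := H) (z₀ := π x₀) ⟨π x, hcomp x⟩ ⟨π y, hcomp y⟩
      have h1 := hlowH p
      rw [hp] at h1
      set n := (H.induce (compOf H (π x₀))).dist ⟨π x, hcomp x⟩ ⟨π y, hcomp y⟩ with hn
      have h1' : G'.dist (π x).1 (π y).1 ≤ 2 * L * n := h1
      have h2 := bg_dist_le hG hF ho hr x y
      have h3 := (hq x.1 y.1).2
      have h4 := hG'.dist_triangle (u := q x.1) (v := (π x).1) (w := q y.1)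
      have h5 := hG'.dist_triangle (u := (π x).1) (v := (π y).1) (w := q y.1)
      rw [SimpleGraph.dist_comm (u := (π y).1) (v := q y.1)] at h5
      have h6 := hπ x
      have h7 := hπ y
      have h8 : G'.dist (q x.1) (q y.1) ≤ 2 * D₂ + 2 * L * n := by omega
      have h9 : C * G'.dist (q x.1) (q y.1) ≤ C * (2 * D₂ + 2 * L * n) :=
        Nat.mul_le_mul_left _ h8
      have h10 : C * (2 * D₂ + 2 * L * n) = C * (2 * D₂) + C * (2 * L) * n := by ring
      have h11 : C * (2 * L) * n ≤ E * n := Nat.mul_le_mul_right _ (by omega)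
      omega
  have hlfin : ∀ v, ((bg G r o).neighborSet v).Finite := bg_locfin hG hf r o
  have hqt := bg_quasi hG hf hS hF ho r
  obtain ⟨Z, GZ, hZ1, hZ2, ⟨q₀, C₀, hq₀⟩, j, hj1, hj2⟩ := thin_emb hconn hlfin hqt
    (compOf_connected H (π x₀)) (q := fun x : B => ⟨π x, hcomp x⟩) hemb
  refine ⟨s, B, bg G r o, hconn, hlfin, hqt, bg_inacc hG hf hF ho hr hpairs, ?_, Z, GZ, hZ1, hZ2,
    ⟨q₀, C₀, hq₀⟩, fun z => (j z).1, ?_, ?_⟩
  · intro η₁ η₂ K hK
    exact bg_insep hG hf ho hr hΔ (by omega) η₁ η₂ K hK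
  · exact Subtype.val_injective.comp hj1
  · intro x y hxy
    exact hHle (hj2 x y hxy)

end Run7.h926
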